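import Pool.Agent.NH60.TP.Stm

/-!
Project TP: the number of all possible trapezoids.
-/

set_option autoImplicit false

namespace Pool.Agent.NH60.TP

open Finset
open scoped Classical

namespace ALL

variable {ι : Type} [Fintype ι]

/-- all abscissae at which two of the functions agree -/
noncomputable def E (f : ι → ℝ → ℝ) (B : ℕ) (hf : Fam f B) : Finset ℝ :=
  (univ : Finset (ι × ι)).biUnion fun q =>
    if h : q.1 ≠ q.2 then (hf.2 q.1 q.2 h).1.toFinset else ∅

theorem E_card (f : ι → ℝ → ℝ) (B : ℕ) (hf : Fam f B) :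
    (E f B hf).card ≤ Fintype.card ι ^ 2 * B := by
  unfold E
  refine (Finset.card_biUnion_le_card_mul _ _ B fun q _ => ?_).trans (le_of_eq ?_)
  · split_ifs with h
    · rw [← Set.ncard_eq_toFinset_card _ (hf.2 q.1 q.2 h).1]
      exact (hf.2 q.1 q.2 h).2
    · simp
  · rw [Finset.card_univ, Fintype.card_prod, sq]

theorem mem_E {f : ι → ℝ → ℝ} {B : ℕ} (hf : Fam f B) {R : Finset ι} {o : Option ι} {x : ℝ}
    (h : Ev f R o x) : x ∈ E f B hf := by
  obtain ⟨i, -, g, -, hgi, he⟩ := h
  unfold E
  rw [Finset.mem_biUnion]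
  refine ⟨(g, i), Finset.mem_univ _, ?_⟩
  rw [dif_pos hgi, Set.Finite.mem_toFinset]
  exact he

end ALL

open ALL in
theorem all_traps : S_ALL := by
  intro ι _ f B hf
  have hm : Set.MapsTo (fun τ : Trap ι => (τ.b, τ.t, τ.l, τ.r)) {τ : Trap ι | ∃ R, IsTrap f R τ}
      ((univ : Finset (Option ι)) ×ˢ (univ : Finset (Option ι)) ×ˢ
        (insert none ((E f B hf).image some)) ×ˢ (insert none ((E f B hf).image some)) :
          Finset (Option ι × Option ι × Option ℝ × Option ℝ)) := by
    rintro τ ⟨R, hτ⟩
    rw [Finset.mem_coe, Finset.mem_product, Finset.mem_product, Finset.mem_product]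
    refine ⟨Finset.mem_univ _, Finset.mem_univ _, ?_, ?_⟩
    · simp only
      rcases hl : τ.l with _ | x
      · exact Finset.mem_insert_self _ _
      · refine Finset.mem_insert_of_mem (Finset.mem_image_of_mem _ ?_)
        rcases hτ.lev x (by rw [hl]; rfl) with h | h
        · exact mem_E hf h
        · exact mem_E hf h
    · simp only
      rcases hl : τ.r with _ | x
      · exact Finset.mem_insert_self _ _
      · refine Finset.mem_insert_of_mem (Finset.mem_image_of_mem _ ?_)
        rcases hτ.rev x (by rw [hl]; rfl) with h | h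
        · exact mem_E hf h
        · exact mem_E hf h
  have hi : Set.InjOn (fun τ : Trap ι => (τ.b, τ.t, τ.l, τ.r)) {τ : Trap ι | ∃ R, IsTrap f R τ} := by
    rintro ⟨b, t, l, r⟩ _ ⟨b', t', l', r'⟩ _ h
    simp only [Prod.mk.injEq] at h
    obtain ⟨h1, h2, h3, h4⟩ := h
    rw [h1, h2, h3, h4]
  refine ⟨Set.Finite.of_injOn hm hi (Finset.finite_toSet _), ?_⟩
  have hn := Set.ncard_le_ncard_of_injOn _ hm hi (Finset.finite_toSet _)
  rw [Set.ncard_coe_finset, Finset.card_product, Finset.card_product, Finset.card_product,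
    Finset.card_univ, Fintype.card_option] at hn
  have hk : (insert none ((E f B hf).image some) : Finset (Option ℝ)).card ≤
      (B + 1) * (Fintype.card ι + 1) ^ 2 := by
    calc (insert none ((E f B hf).image some) : Finset (Option ℝ)).card
        ≤ ((E f B hf).image some).card + 1 := Finset.card_insert_le _ _
      _ ≤ (E f B hf).card + 1 := Nat.add_le_add_right Finset.card_image_le 1
      _ ≤ Fintype.card ι ^ 2 * B + 1 := Nat.add_le_add_right (E_card f B hf) 1
      _ ≤ (B + 1) * (Fintype.card ι + 1) ^ 2 := by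
        have : (B + 1) * (Fintype.card ι + 1) ^ 2 = Fintype.card ι ^ 2 * B + 1 +
            (Fintype.card ι ^ 2 + 2 * Fintype.card ι * B + 2 * Fintype.card ι + B) := by ring
        omega
  refine hn.trans ?_
  calc (Fintype.card ι + 1) * ((Fintype.card ι + 1) *
        ((insert none ((E f B hf).image some) : Finset (Option ℝ)).card *
          (insert none ((E f B hf).image some) : Finset (Option ℝ)).card))
      ≤ (Fintype.card ι + 1) * ((Fintype.card ι + 1) *
        (((B + 1) * (Fintype.card ι + 1) ^ 2) * ((B + 1) * (Fintype.card ι + 1) ^ 2))) :=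
        Nat.mul_le_mul_left _ (Nat.mul_le_mul_left _ (Nat.mul_le_mul hk hk))
    _ = (B + 1) ^ 2 * (Fintype.card ι + 1) ^ 6 := by ring

end Pool.Agent.NH60.TP
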