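import Pool.Agent.NH60.TP.Stm

/-!
Project TP, part ARC: arcs of conics as parts of graphs of functions on the real line.
-/

set_option autoImplicit false

namespace Pool.Agent.NH60.TP

open Finset
open scoped Classical

namespace ARC

/-- the zeros of a nonzero polynomial of degree at most two -/
lemma quad (a b c : ℝ) (h : ¬ (a = 0 ∧ b = 0 ∧ c = 0)) :
    {x : ℝ | a * x ^ 2 + b * x + c = 0}.Finite ∧
      {x : ℝ | a * x ^ 2 + b * x + c = 0}.ncard ≤ 2 := by
  set P : Polynomial ℝ := Polynomial.C a * Polynomial.X ^ 2 + Polynomial.C b * Polynomial.X +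
    Polynomial.C c with hP
  have hP0 : P ≠ 0 := by
    intro h0
    apply h
    have h2 : P.coeff 2 = a := by simp [hP, Polynomial.coeff_X, Polynomial.coeff_C]
    have h1 : P.coeff 1 = b := by simp [hP, Polynomial.coeff_X, Polynomial.coeff_C]
    have h3 : P.coeff 0 = c := by simp [hP, Polynomial.coeff_X, Polynomial.coeff_C]
    rw [h0] at h1 h2 h3
    simp only [Polynomial.coeff_zero] at h1 h2 h3
    exact ⟨h2.symm, h1.symm, h3.symm⟩
  have hsub : {x : ℝ | a * x ^ 2 + b * x + c = 0} ⊆ (↑P.roots.toFinset : Set ℝ) := by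
    intro x hx
    simp only [Finset.mem_coe, Multiset.mem_toFinset, Polynomial.mem_roots hP0,
      Polynomial.IsRoot.def]
    simpa [hP] using hx
  refine ⟨(Finset.finite_toSet _).subset hsub, ?_⟩
  calc {x : ℝ | a * x ^ 2 + b * x + c = 0}.ncard ≤ (↑P.roots.toFinset : Set ℝ).ncard :=
        Set.ncard_le_ncard hsub (Finset.finite_toSet _)
    _ = P.roots.toFinset.card := Set.ncard_coe_finset _
    _ ≤ Multiset.card P.roots := Multiset.toFinset_card_le _
    _ ≤ P.natDegree := Polynomial.card_roots' _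
    _ ≤ 2 := Polynomial.natDegree_quadratic_le

/-- a line and a hyperbola -/
lemma lineHyp (p q α m β : ℝ) (hα : 0 < α) (hβ : β ≠ 0) :
    {x : ℝ | (p * x + q) ^ 2 = α * (x - m) ^ 2 - β}.Finite ∧
      {x : ℝ | (p * x + q) ^ 2 = α * (x - m) ^ 2 - β}.ncard ≤ 2 := by
  have h := quad (p ^ 2 - α) (2 * p * q + 2 * α * m) (q ^ 2 - α * m ^ 2 + β) (by
    rintro ⟨h1, h2, h3⟩
    have hp : p ^ 2 = α := by linarith
    have hp0 : p ≠ 0 := by
      rintro rfl
      rw [← hp] at hα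
      norm_num at hα
    have hq : q = - p * m := by
      have : p * (q + p * m) = 0 := by
        rw [← hp] at h2
        nlinarith
      rcases mul_eq_zero.1 this with h | h
      · exact absurd h hp0
      · linarith
    apply hβ
    rw [hq, ← hp] at h3
    nlinarith)
  have he : {x : ℝ | (p * x + q) ^ 2 = α * (x - m) ^ 2 - β} =
      {x : ℝ | (p ^ 2 - α) * x ^ 2 + (2 * p * q + 2 * α * m) * x +
        (q ^ 2 - α * m ^ 2 + β) = 0} := by
    ext x
    simp only [Set.mem_ofPred_eq]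
    constructor <;> intro hx <;> nlinarith
  rw [he]
  exact h

/-- a sign -/
noncomputable def sg (b : Bool) : ℝ := if b then 1 else -1

/-- the centre line -/
noncomputable def Lf (c : Cd) (X : ℝ) : ℝ := c.2.1 + c.2.2.1 * (X - c.1)

/-- the discriminant -/
noncomputable def Df (c : Cd) (X : ℝ) : ℝ := c.2.2.2.1 * (X - c.1) ^ 2 - c.2.2.2.2

/-- half the width of the gap -/
noncomputable def om (c : Cd) : ℝ := Real.sqrt (max c.2.2.2.2 0 / c.2.2.2.1)

/-- the end point of the arc -/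
noncomputable def ee (c : Cd) (b : Bool × Bool) : ℝ := c.1 + sg b.2 * om c

/-- the first branch -/
noncomputable def g1 (c : Cd) (b : Bool × Bool) (X : ℝ) : ℝ := Lf c X + sg b.1 * Real.sqrt (Df c X)

/-- the second branch -/
noncomputable def g2 (c : Cd) (b : Bool × Bool) (l : ℝ) (X : ℝ) : ℝ :=
  g1 c b (ee c b) + l * (X - ee c b)

/-- the function -/
noncomputable def gg (c : Cd) (b : Bool × Bool) (l : ℝ) (X : ℝ) : ℝ :=
  if om c ≤ sg b.2 * (X - c.1) then g1 c b X else g2 c b l X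

lemma sg_sq (b : Bool) : sg b ^ 2 = 1 := by
  unfold sg; split_ifs <;> norm_num

lemma cont (c : Cd) (b : Bool × Bool) (l : ℝ) : Continuous (gg c b l) := by
  unfold gg
  refine Continuous.if_le ?_ ?_ continuous_const ?_ ?_
  · unfold g1 Lf Df; fun_prop
  · unfold g2; fun_prop
  · fun_prop
  · intro X hX
    have : X = ee c b := by
      unfold ee
      rw [hX]
      have := sg_sq b.2
      linear_combination (-(X - c.1)) * this
    rw [this]
    unfold g2
    ring

lemma Df_nonneg (c : Cd) (hc : GoodC c) (b : Bool × Bool) (X : ℝ)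
    (h : om c ≤ sg b.2 * (X - c.1)) : 0 ≤ Df c X := by
  have h0 : 0 ≤ om c := Real.sqrt_nonneg _
  have h1 : om c ^ 2 ≤ (sg b.2 * (X - c.1)) ^ 2 := pow_le_pow_left₀ h0 h 2
  rw [mul_pow, sg_sq, one_mul] at h1
  have h2 : om c ^ 2 = max c.2.2.2.2 0 / c.2.2.2.1 :=
    Real.sq_sqrt (div_nonneg (le_max_right _ _) hc.1.le)
  rw [h2, div_le_iff₀ hc.1] at h1
  unfold Df
  have := le_max_left c.2.2.2.2 0
  nlinarith

lemma onC (c : Cd) (hc : GoodC c) (b : Bool × Bool) (X : ℝ)
    (h : om c ≤ sg b.2 * (X - c.1)) : OnC c X (g1 c b X) := by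
  have h0 := Df_nonneg c hc b X h
  have h1 := Real.sq_sqrt h0
  have h2 := sg_sq b.1
  unfold OnC
  have : g1 c b X - c.2.1 - c.2.2.1 * (X - c.1) = sg b.1 * Real.sqrt (Df c X) := by
    unfold g1 Lf; ring
  rw [this, mul_pow, h2, h1, one_mul]
  rfl

lemma cross (c c' : Cd) (hc : GoodC c) (b : Bool × Bool) (b' : Bool × Bool) (l' : ℝ) :
    ∃ S : Set ℝ, S.Finite ∧ S.ncard ≤ 2 ∧
      ∀ X, om c ≤ sg b.2 * (X - c.1) → g1 c b X = g2 c' b' l' X → X ∈ S := by
  have h := lineHyp (l' - c.2.2.1)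
    (g1 c' b' (ee c' b') - l' * ee c' b' - c.2.1 + c.2.2.1 * c.1) c.2.2.2.1 c.1 c.2.2.2.2
    hc.1 hc.2
  refine ⟨_, h.1, h.2, ?_⟩
  intro X hX hg
  have h1 := onC c hc b X hX
  rw [hg] at h1
  unfold OnC at h1
  simp only [Set.mem_ofPred_eq]
  rw [← h1]
  unfold g2
  ring

lemma lines (u v l l' : ℝ) (h : l ≠ l') (e e' : ℝ) :
    {X : ℝ | u + l * (X - e) = v + l' * (X - e')}.Finite ∧
      {X : ℝ | u + l * (X - e) = v + l' * (X - e')}.ncard ≤ 1 := by
  have hs : {X : ℝ | u + l * (X - e) = v + l' * (X - e')} ⊆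
      {(v - l' * e' - u + l * e) / (l - l')} := by
    intro X hX
    simp only [Set.mem_ofPred_eq] at hX
    simp only [Set.mem_singleton_iff]
    rw [eq_div_iff (sub_ne_zero.2 h)]
    linarith
  refine ⟨(Set.finite_singleton _).subset hs, ?_⟩
  calc _ ≤ ({(v - l' * e' - u + l * e) / (l - l')} : Set ℝ).ncard :=
        Set.ncard_le_ncard hs (Set.finite_singleton _)
    _ = 1 := Set.ncard_singleton _

lemma agree (h : S_POLY) (c c' : Cd) (hc : GoodC c) (hc' : GoodC c') (hne : c ≠ c')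
    (b b' : Bool × Bool) (l l' : ℝ) (hl : l ≠ l') :
    {X | gg c b l X = gg c' b' l' X}.Finite ∧ {X | gg c b l X = gg c' b' l' X}.ncard ≤ 9 := by
  obtain ⟨h1f, h1c⟩ := h c c' hc hc' hne
  obtain ⟨S2, h2f, h2c, h2⟩ := cross c c' hc b b' l'
  obtain ⟨S3, h3f, h3c, h3⟩ := cross c' c hc' b' b l
  obtain ⟨h4f, h4c⟩ := lines (g1 c b (ee c b)) (g1 c' b' (ee c' b')) l l' hl (ee c b) (ee c' b')
  set S1 := {X | ∃ Y, OnC c X Y ∧ OnC c' X Y} with hS1
  set S4 := {X | g1 c b (ee c b) + l * (X - ee c b) =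
    g1 c' b' (ee c' b') + l' * (X - ee c' b')} with hS4
  have hsub : {X | gg c b l X = gg c' b' l' X} ⊆ (S1 ∪ S2) ∪ (S3 ∪ S4) := by
    intro X hX
    simp only [Set.mem_ofPred_eq] at hX
    unfold gg at hX
    split_ifs at hX with ha hb hb
    · left; left
      exact ⟨g1 c b X, onC c hc b X ha, by rw [hX]; exact onC c' hc' b' X hb⟩
    · left; right
      exact h2 X ha hX
    · right; left
      exact h3 X hb hX.symm
    · right; right
      exact hX
  have hfin : ((S1 ∪ S2) ∪ (S3 ∪ S4)).Finite := (h1f.union h2f).union (h3f.union h4f)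
  refine ⟨hfin.subset hsub, ?_⟩
  have e1 := Set.ncard_le_ncard hsub hfin
  have e2 := Set.ncard_union_le (S1 ∪ S2) (S3 ∪ S4)
  have e3 := Set.ncard_union_le S1 S2
  have e4 := Set.ncard_union_le S3 S4
  omega

lemma hits (c : Cd) (hc : GoodC c) (b : Bool × Bool) (l : ℝ) (X Y : ℝ) (hO : OnC c X Y)
    (h1 : if b.1 then 0 ≤ Y - c.2.1 - c.2.2.1 * (X - c.1)
      else Y - c.2.1 - c.2.2.1 * (X - c.1) ≤ 0)
    (h2 : if b.2 then c.1 ≤ X else X ≤ c.1) : gg c b l X = Y := by
  unfold OnC at hO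
  have hD : Df c X = (Y - c.2.1 - c.2.2.1 * (X - c.1)) ^ 2 := hO.symm
  have h3 : 0 ≤ sg b.2 * (X - c.1) := by
    unfold sg
    split_ifs at h2 ⊢ <;> linarith
  have h4 : (sg b.2 * (X - c.1)) ^ 2 = (X - c.1) ^ 2 := by
    rw [mul_pow, sg_sq, one_mul]
  have h5 : om c ≤ sg b.2 * (X - c.1) := by
    unfold om
    rw [Real.sqrt_le_left h3, h4, div_le_iff₀ hc.1]
    apply max_le
    · have : 0 ≤ Df c X := by rw [hD]; positivity
      unfold Df at this
      linarith
    · have := hc.1.le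
      positivity
  unfold gg
  rw [if_pos h5]
  unfold g1
  rw [hD, Real.sqrt_sq_eq_abs]
  unfold sg Lf
  split_ifs at h1 ⊢
  · rw [abs_of_nonneg h1]; ring
  · rw [abs_of_nonpos h1]; ring

end ARC

theorem arc (h : S_POLY) : S_ARC := by
  intro F hF o
  refine ⟨fun c X => ARC.gg c.1 (o c.1) ((Fintype.equivFin {c // c ∈ F} c : ℕ) : ℝ) X,
    ⟨?_, ?_⟩, ?_⟩
  · intro c
    exact ARC.cont _ _ _
  · intro c c' hcc
    refine ARC.agree h c.1 c'.1 (hF _ c.2) (hF _ c'.2) (fun e => hcc (Subtype.ext e)) _ _ _ _ ?_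
    intro e
    apply hcc
    apply (Fintype.equivFin {c // c ∈ F}).injective
    apply Fin.ext
    exact_mod_cast e
  · intro c X Y hO h1 h2
    exact ARC.hits c.1 (hF _ c.2) (o c.1) _ X Y hO h1 h2

end Pool.Agent.NH60.TP
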