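import Pool.Agent.NH60.TP.Stm

/-!
Project TP, part CON: the conic of a branch of a hyperbola.
-/

set_option autoImplicit false

namespace Pool.Agent.NH60.TP

open Finset
open scoped Classical

namespace CON

theorem dist_sq (p q : ℂ) : dist p q ^ 2 = (p.re - q.re) ^ 2 + (p.im - q.im) ^ 2 := by
  rw [Complex.dist_eq_re_im, Real.sq_sqrt (by positivity)]

theorem pos_e {τ : ℂ × ℂ × ℝ} (h : GoodT τ) :
    0 < τ.2.2 ^ 2 * (dist τ.1 τ.2.1 ^ 2 - τ.2.2 ^ 2) := by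
  obtain ⟨h1, h2, _⟩ := h
  have h3 : 0 < τ.2.2 ^ 2 := by positivity
  have h4 : τ.2.2 ^ 2 < dist τ.1 τ.2.1 ^ 2 := by
    rw [← sq_abs τ.2.2]
    exact pow_lt_pow_left₀ h2 (abs_nonneg _) two_ne_zero
  exact mul_pos h3 (by linarith)

theorem g_ne {τ : ℂ × ℂ × ℝ} (h : GoodT τ) : τ.2.2 ^ 2 - (τ.2.1 - τ.1).im ^ 2 ≠ 0 :=
  sub_ne_zero.2 h.2.2

theorem goodC {τ : ℂ × ℂ × ℝ} (h : GoodT τ) : GoodC (cdat τ) := by
  have h1 := pos_e h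
  have h2 := g_ne h
  refine ⟨?_, ?_⟩
  · simp only [cdat]
    exact div_pos h1 (by positivity)
  · simp only [cdat]
    exact div_ne_zero h1.ne' (mul_ne_zero (by norm_num) h2)

theorem key (x1 x2 y1 y2 q1 q2 a R S : ℝ) (hR : R ^ 2 = (q1 - x1) ^ 2 + (q2 - x2) ^ 2)
    (hS : S ^ 2 = (q1 - y1) ^ 2 + (q2 - y2) ^ 2) (hRS : R - S = a)
    (hg : a ^ 2 - (y2 - x2) ^ 2 ≠ 0) :
    (q2 - (x2 + y2) / 2 - (y1 - x1) * (y2 - x2) / (a ^ 2 - (y2 - x2) ^ 2) *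
      (q1 - (x1 + y1) / 2)) ^ 2 =
    a ^ 2 * ((x1 - y1) ^ 2 + (x2 - y2) ^ 2 - a ^ 2) / (a ^ 2 - (y2 - x2) ^ 2) ^ 2 *
      (q1 - (x1 + y1) / 2) ^ 2 -
    a ^ 2 * ((x1 - y1) ^ 2 + (x2 - y2) ^ 2 - a ^ 2) / (4 * (a ^ 2 - (y2 - x2) ^ 2)) := by
  have hS' : S = R - a := by linarith
  have h1 : 2 * a * R = a ^ 2 + ((q1 - x1) ^ 2 + (q2 - x2) ^ 2) -
      ((q1 - y1) ^ 2 + (q2 - y2) ^ 2) := by
    rw [← hR, ← hS, hS']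
    ring
  have h2 : 4 * a ^ 2 * ((q1 - x1) ^ 2 + (q2 - x2) ^ 2) =
      (a ^ 2 + ((q1 - x1) ^ 2 + (q2 - x2) ^ 2) - ((q1 - y1) ^ 2 + (q2 - y2) ^ 2)) ^ 2 := by
    rw [← h1, ← hR]
    ring
  have h3 : (q2 - (x2 + y2) / 2 - (y1 - x1) * (y2 - x2) / (a ^ 2 - (y2 - x2) ^ 2) *
      (q1 - (x1 + y1) / 2)) ^ 2 -
    (a ^ 2 * ((x1 - y1) ^ 2 + (x2 - y2) ^ 2 - a ^ 2) / (a ^ 2 - (y2 - x2) ^ 2) ^ 2 *
      (q1 - (x1 + y1) / 2) ^ 2 -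
    a ^ 2 * ((x1 - y1) ^ 2 + (x2 - y2) ^ 2 - a ^ 2) / (4 * (a ^ 2 - (y2 - x2) ^ 2))) =
    (4 * a ^ 2 * ((q1 - x1) ^ 2 + (q2 - x2) ^ 2) -
      (a ^ 2 + ((q1 - x1) ^ 2 + (q2 - x2) ^ 2) - ((q1 - y1) ^ 2 + (q2 - y2) ^ 2)) ^ 2) /
      (4 * (a ^ 2 - (y2 - x2) ^ 2)) := by
    field_simp
    ring
  rw [h2, sub_self, zero_div] at h3
  linarith

theorem onC {τ : ℂ × ℂ × ℝ} (h : GoodT τ) (q : ℂ) (hq : dist q τ.1 - dist q τ.2.1 = τ.2.2) :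
    OnC (cdat τ) q.re q.im := by
  have h2 := g_ne h
  rw [Complex.sub_im] at h2
  have := key τ.1.re τ.1.im τ.2.1.re τ.2.1.im q.re q.im τ.2.2 (dist q τ.1) (dist q τ.2.1)
    (dist_sq _ _) (dist_sq _ _) hq h2
  simp only [OnC, cdat, Complex.sub_re, Complex.sub_im, dist_sq τ.1 τ.2.1]
  exact this

/-- the data determine `a ^ 2` and `w` up to sign -/
theorem det (u v a u' v' a' : ℝ) (ha : a ≠ 0) (ha' : a' ≠ 0)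
    (he : 0 < a ^ 2 * (u ^ 2 + v ^ 2 - a ^ 2)) (he' : 0 < a' ^ 2 * (u' ^ 2 + v' ^ 2 - a' ^ 2))
    (hg : a ^ 2 - v ^ 2 ≠ 0) (hg' : a' ^ 2 - v' ^ 2 ≠ 0)
    (h1 : u * v / (a ^ 2 - v ^ 2) = u' * v' / (a' ^ 2 - v' ^ 2))
    (h2 : a ^ 2 * (u ^ 2 + v ^ 2 - a ^ 2) / (a ^ 2 - v ^ 2) ^ 2 =
      a' ^ 2 * (u' ^ 2 + v' ^ 2 - a' ^ 2) / (a' ^ 2 - v' ^ 2) ^ 2)
    (h3 : a ^ 2 * (u ^ 2 + v ^ 2 - a ^ 2) / (4 * (a ^ 2 - v ^ 2)) =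
      a' ^ 2 * (u' ^ 2 + v' ^ 2 - a' ^ 2) / (4 * (a' ^ 2 - v' ^ 2))) :
    (a = a' ∨ a = -a') ∧ ((u = u' ∧ v = v') ∨ (u = -u' ∧ v = -v')) := by
  obtain ⟨e, hee⟩ : ∃ e, e = a ^ 2 * (u ^ 2 + v ^ 2 - a ^ 2) := ⟨_, rfl⟩
  obtain ⟨e', hee'⟩ : ∃ e', e' = a' ^ 2 * (u' ^ 2 + v' ^ 2 - a' ^ 2) := ⟨_, rfl⟩
  obtain ⟨g, hgg⟩ : ∃ g, g = a ^ 2 - v ^ 2 := ⟨_, rfl⟩
  obtain ⟨g', hgg'⟩ : ∃ g', g' = a' ^ 2 - v' ^ 2 := ⟨_, rfl⟩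
  rw [← hee] at he h2 h3
  rw [← hee'] at he' h2 h3
  rw [← hgg] at hg h1 h2 h3
  rw [← hgg'] at hg' h1 h2 h3
  rw [div_eq_div_iff (by positivity) (by positivity)] at h2
  rw [div_eq_div_iff (mul_ne_zero (by norm_num) hg) (mul_ne_zero (by norm_num) hg')] at h3
  have h3' : e * g' = e' * g := by linarith
  have hgeq : g = g' := by
    have h4 : e' * g * (g - g') = 0 := by linear_combination g' * h3' - h2
    rcases mul_eq_zero.1 h4 with h5 | h5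
    · rcases mul_eq_zero.1 h5 with h6 | h6
      · exact absurd h6 he'.ne'
      · exact absurd h6 hg
    · linarith
  have heeq : e = e' := by
    rw [hgeq] at h3'
    exact mul_right_cancel₀ hg' h3'
  have huv : u * v = u' * v' := by
    rw [hgeq] at h1
    exact (div_left_inj' hg').1 h1
  have h5 : a ^ 2 - u ^ 2 = a' ^ 2 - u' ^ 2 := by
    have e1 : (a ^ 2 - u ^ 2) * g = (u * v) ^ 2 - e := by rw [hgg, hee]; ring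
    have e2 : (a' ^ 2 - u' ^ 2) * g' = (u' * v') ^ 2 - e' := by rw [hgg', hee']; ring
    rw [huv, heeq, ← e2, hgeq] at e1
    exact mul_right_cancel₀ hg' e1
  have h6 : a ^ 2 - v ^ 2 = a' ^ 2 - v' ^ 2 := by rw [← hgg, ← hgg', hgeq]
  have hap : 0 < a ^ 2 := by positivity
  have hap' : 0 < a' ^ 2 := by positivity
  have h7 : a ^ 2 = a' ^ 2 := by
    have h8 : (a ^ 2 - a' ^ 2) * (a ^ 2 + a' ^ 2 - (a ^ 2 - v ^ 2) - (a ^ 2 - u ^ 2)) = 0 := by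
      have e3 : e = a ^ 2 * (a ^ 2 - (a ^ 2 - v ^ 2) - (a ^ 2 - u ^ 2)) := by rw [hee]; ring
      have e4 : e' = a' ^ 2 * (a' ^ 2 - (a ^ 2 - v ^ 2) - (a ^ 2 - u ^ 2)) := by
        rw [hee', h5, h6]; ring
      linear_combination heeq - e3 + e4
    rcases mul_eq_zero.1 h8 with h9 | h9
    · linarith
    · exfalso
      have e3 : e = a ^ 2 * (a ^ 2 - (a ^ 2 - v ^ 2) - (a ^ 2 - u ^ 2)) := by rw [hee]; ring
      have e5 : e = - (a ^ 2 * a' ^ 2) := by rw [e3]; linear_combination a ^ 2 * h9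
      have := mul_pos hap hap'
      linarith
  have hu : u ^ 2 = u' ^ 2 := by linarith
  have hv : v ^ 2 = v' ^ 2 := by linarith
  refine ⟨sq_eq_sq_iff_eq_or_eq_neg.1 h7, ?_⟩
  rcases sq_eq_sq_iff_eq_or_eq_neg.1 hu with hu1 | hu1 <;>
    rcases sq_eq_sq_iff_eq_or_eq_neg.1 hv with hv1 | hv1
  · exact Or.inl ⟨hu1, hv1⟩
  · have h8 : u' * v' = 0 := by rw [hu1, hv1] at huv; linarith
    rcases mul_eq_zero.1 h8 with h9 | h9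
    · exact Or.inr ⟨by rw [hu1, h9]; simp, hv1⟩
    · exact Or.inl ⟨hu1, by rw [hv1, h9]; simp⟩
  · have h8 : u' * v' = 0 := by rw [hu1, hv1] at huv; linarith
    rcases mul_eq_zero.1 h8 with h9 | h9
    · exact Or.inl ⟨by rw [hu1, h9]; simp, hv1⟩
    · exact Or.inr ⟨hu1, by rw [hv1, h9]; simp⟩
  · exact Or.inr ⟨hu1, hv1⟩

theorem fibre {τ τ' : ℂ × ℂ × ℝ} (h : GoodT τ) (h' : GoodT τ') (hc : cdat τ = cdat τ') :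
    τ ∈ ({(τ'.1, τ'.2.1, τ'.2.2), (τ'.2.1, τ'.1, τ'.2.2), (τ'.1, τ'.2.1, -τ'.2.2),
      (τ'.2.1, τ'.1, -τ'.2.2)} : Finset (ℂ × ℂ × ℝ)) := by
  have p := pos_e h
  have p' := pos_e h'
  have n := g_ne h
  have n' := g_ne h'
  simp only [cdat, Prod.mk.injEq] at hc
  obtain ⟨c1, c2, c3, c4, c5⟩ := hc
  have d : dist τ.1 τ.2.1 ^ 2 = (τ.2.1 - τ.1).re ^ 2 + (τ.2.1 - τ.1).im ^ 2 := by
    rw [dist_sq, Complex.sub_re, Complex.sub_im]; ring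
  have d' : dist τ'.1 τ'.2.1 ^ 2 = (τ'.2.1 - τ'.1).re ^ 2 + (τ'.2.1 - τ'.1).im ^ 2 := by
    rw [dist_sq, Complex.sub_re, Complex.sub_im]; ring
  rw [d] at p c4 c5
  rw [d'] at p' c4 c5
  obtain ⟨r1, r2⟩ := det _ _ _ _ _ _ h.1 h'.1 p p' n n' c3 c4 c5
  rw [Complex.sub_re, Complex.sub_re, Complex.sub_im, Complex.sub_im] at r2
  have hxy : (τ.1 = τ'.1 ∧ τ.2.1 = τ'.2.1) ∨ (τ.1 = τ'.2.1 ∧ τ.2.1 = τ'.1) := by
    rcases r2 with ⟨s1, s2⟩ | ⟨s1, s2⟩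
    · left
      exact ⟨Complex.ext (by linarith) (by linarith), Complex.ext (by linarith) (by linarith)⟩
    · right
      exact ⟨Complex.ext (by linarith) (by linarith), Complex.ext (by linarith) (by linarith)⟩
  obtain ⟨x, y, a⟩ := τ
  simp only at hxy r1
  simp only [mem_insert, mem_singleton, Prod.mk.injEq]
  rcases hxy with ⟨t1, t2⟩ | ⟨t1, t2⟩ <;> rcases r1 with r1 | r1
  · exact Or.inl ⟨t1, t2, r1⟩
  · exact Or.inr (Or.inr (Or.inl ⟨t1, t2, r1⟩))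
  · exact Or.inr (Or.inl ⟨t1, t2, r1⟩)
  · exact Or.inr (Or.inr (Or.inr ⟨t1, t2, r1⟩))

theorem card4 (H : Finset (ℂ × ℂ × ℝ)) (hH : ∀ τ ∈ H, GoodT τ) :
    H.card ≤ 4 * (H.image cdat).card := by
  refine card_le_mul_card_image H 4 ?_
  intro c hc
  obtain ⟨τ', h1, h2⟩ := mem_image.1 hc
  refine le_trans (card_le_card (t := ({(τ'.1, τ'.2.1, τ'.2.2), (τ'.2.1, τ'.1, τ'.2.2),
    (τ'.1, τ'.2.1, -τ'.2.2), (τ'.2.1, τ'.1, -τ'.2.2)} : Finset (ℂ × ℂ × ℝ))) ?_) card_le_four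
  intro τ hτ
  rw [mem_filter] at hτ
  exact fibre (hH τ hτ.1) (hH τ' h1) (hτ.2.trans h2.symm)

end CON

theorem con : S_CON :=
  ⟨fun _ h => CON.goodC h, fun _ h q hq => CON.onC h q hq, CON.card4⟩

end Pool.Agent.NH60.TP
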