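import Pool.Agent.NH60.TP.Stm

/-!
Project TP, part CUTA: the cutting lemma from its parts.
-/

set_option autoImplicit false

namespace Pool.Agent.NH60.TP

open Finset
open scoped Classical

namespace CUTA

variable {ι : Type} [Fintype ι]

/-- the functions whose graph meets the trapezoid -/
noncomputable def Ks (f : ι → ℝ → ℝ) (τ : Trap ι) : Finset ι := univ.filter (fun i => Crs f τ i)

theorem exp_lam (B N : ℕ) :
    Real.exp (lam B N) = ((B : ℝ) + 1) ^ 2 * ((N : ℝ) + 1) ^ 6 * Real.exp 1 := by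
  have hB : (0 : ℝ) < (B : ℝ) + 1 := by positivity
  have hN : (0 : ℝ) < (N : ℝ) + 1 := by positivity
  unfold lam
  rw [Real.exp_add, Real.exp_add]
  have e1 : Real.exp (6 * Real.log ((N : ℝ) + 1)) = ((N : ℝ) + 1) ^ 6 := by
    have : (6 : ℝ) * Real.log ((N : ℝ) + 1) = Real.log (((N : ℝ) + 1) ^ 6) := by
      rw [Real.log_pow]; norm_num
    rw [this, Real.exp_log (by positivity)]
  have e2 : Real.exp (2 * Real.log ((B : ℝ) + 1)) = ((B : ℝ) + 1) ^ 2 := by
    have : (2 : ℝ) * Real.log ((B : ℝ) + 1) = Real.log (((B : ℝ) + 1) ^ 2) := by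
      rw [Real.log_pow]; norm_num
    rw [this, Real.exp_log (by positivity)]
  rw [e1, e2]
  ring

theorem lam_nonneg (B N : ℕ) : 0 ≤ lam B N := by
  unfold lam
  have h1 : 0 ≤ Real.log ((N : ℝ) + 1) := Real.log_nonneg (by
    have : (0 : ℝ) ≤ N := Nat.cast_nonneg N
    linarith)
  have h2 : 0 ≤ Real.log ((B : ℝ) + 1) := Real.log_nonneg (by
    have : (0 : ℝ) ≤ B := Nat.cast_nonneg B
    linarith)
  linarith

theorem sample (h4 : S_ALL) (h5 : S_HIT) [Nonempty ι] (f : ι → ℝ → ℝ) (B : ℕ) (hf : Fam f B)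
    (r : ℕ) (hr : 1 ≤ r) :
    ∃ ω : Fin r → ι, ∀ τ, (∃ R, IsTrap f R τ) →
      lam B (Fintype.card ι) * Fintype.card ι < r * ((Ks f τ).card : ℝ) →
        ∃ i, ω i ∈ Ks f τ := by
  have hr0 : (0 : ℝ) < r := by exact_mod_cast hr
  have hl0 := lam_nonneg B (Fintype.card ι)
  by_cases hlam : (r : ℝ) ≤ lam B (Fintype.card ι)
  · refine ⟨fun _ => Classical.arbitrary ι, fun τ _ hbad => ?_⟩
    exfalso
    have h1 : ((Ks f τ).card : ℝ) ≤ Fintype.card ι := by exact_mod_cast card_le_univ _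
    have h2 : (r : ℝ) * ((Ks f τ).card : ℝ) ≤ lam B (Fintype.card ι) * Fintype.card ι :=
      mul_le_mul hlam h1 (Nat.cast_nonneg _) hl0
    linarith
  · push Not at hlam
    obtain ⟨hfin, hcard⟩ := h4 ι f B hf
    set N := Fintype.card ι with hN
    set A : Finset (Trap ι) := hfin.toFinset with hA
    have hAc : A.card ≤ (B + 1) ^ 2 * (N + 1) ^ 6 := by
      rw [Set.ncard_eq_toFinset_card _ hfin] at hcard
      exact hcard
    set F : Finset (Finset ι) :=
      (A.filter (fun τ => lam B N * N < r * ((Ks f τ).card : ℝ))).image (Ks f) with hF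
    have hFc : (F.card : ℝ) ≤ ((B : ℝ) + 1) ^ 2 * ((N : ℝ) + 1) ^ 6 := by
      have : F.card ≤ (B + 1) ^ 2 * (N + 1) ^ 6 :=
        (card_image_le.trans (card_filter_le _ _)).trans hAc
      exact_mod_cast this
    have he0 : 0 ≤ lam B N / r := div_nonneg hl0 hr0.le
    have he1 : lam B N / r ≤ 1 := by rw [div_le_one hr0]; exact hlam.le
    obtain ⟨ω, hω⟩ := h5 ι F r (lam B N / r) he0 he1 (by
        intro K hK
        rw [hF, mem_image] at hK
        obtain ⟨τ, hτ, rfl⟩ := hK
        rw [mem_filter] at hτ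
        rw [div_mul_eq_mul_div, div_le_iff₀ hr0]
        linarith [hτ.2, mul_comm (r : ℝ) ((Ks f τ).card : ℝ)])
      (by
        have h1 : (1 - lam B N / r) ^ r ≤ Real.exp (-(lam B N)) := by
          have h2 : (1 - lam B N / r) ≤ Real.exp (-(lam B N / r)) := by
            have := Real.add_one_le_exp (-(lam B N / r))
            linarith
          have h3 : (1 - lam B N / r) ^ r ≤ Real.exp (-(lam B N / r)) ^ r :=
            pow_le_pow_left₀ (by linarith) h2 r
          rw [← Real.exp_nat_mul] at h3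
          have h4 : (r : ℝ) * (-(lam B N / r)) = -(lam B N) := by
            field_simp
          rwa [h4] at h3
        have h2 : (F.card : ℝ) * (1 - lam B N / r) ^ r ≤
            (((B : ℝ) + 1) ^ 2 * ((N : ℝ) + 1) ^ 6) * Real.exp (-(lam B N)) :=
          mul_le_mul hFc h1 (pow_nonneg (by linarith) _) (by positivity)
        have h3 : (((B : ℝ) + 1) ^ 2 * ((N : ℝ) + 1) ^ 6) * Real.exp (-(lam B N)) =
            (Real.exp 1)⁻¹ := by
          rw [Real.exp_neg, exp_lam]
          have : Real.exp 1 ≠ 0 := (Real.exp_pos 1).ne'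
          field_simp
        have h4 : (Real.exp 1)⁻¹ < 1 := by
          rw [inv_lt_one₀ (Real.exp_pos 1)]
          exact Real.one_lt_exp_iff.2 one_pos
        linarith)
    refine ⟨ω, fun τ hτ hbad => hω _ ?_⟩
    rw [hF, mem_image]
    refine ⟨τ, ?_, rfl⟩
    rw [mem_filter, hA, Set.Finite.mem_toFinset]
    exact ⟨hτ, hbad⟩

omit [Fintype ι] in
/-- the number of points of `V` on two different graphs -/
theorem common (f : ι → ℝ → ℝ) (B : ℕ) (hf : Fam f B) (V : Finset (ℝ × ℝ)) (g i : ι) :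
    (V.filter (fun v => g ≠ i ∧ f g v.1 = v.2 ∧ f i v.1 = v.2)).card ≤ B := by
  by_cases hgi : g = i
  · have : V.filter (fun v => g ≠ i ∧ f g v.1 = v.2 ∧ f i v.1 = v.2) = ∅ := by
      ext v; simp [hgi]
    rw [this]; simp
  · obtain ⟨hfin, hc⟩ := hf.2 g i hgi
    rw [Set.ncard_eq_toFinset_card _ hfin] at hc
    refine le_trans (card_le_card_of_injOn Prod.fst ?_ ?_) hc
    · intro v hv
      have hv' := (mem_filter.1 (mem_coe.1 hv)).2
      simp only [Set.Finite.coe_toFinset, Set.mem_ofPred_eq]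
      rw [hv'.2.1, hv'.2.2]
    · intro v hv v' hv' h
      have h1 := (mem_filter.1 (mem_coe.1 hv)).2
      have h2 := (mem_filter.1 (mem_coe.1 hv')).2
      refine Prod.ext h ?_
      rw [← h1.2.1, ← h2.2.1, h]

theorem count (f : ι → ℝ → ℝ) (B : ℕ) (hf : Fam f B) (V : Finset (ℝ × ℝ)) (R : Finset ι) :
    ∑ v ∈ V, ((R ×ˢ (univ : Finset ι)).filter
      (fun e => e.1 ≠ e.2 ∧ f e.1 v.1 = v.2 ∧ f e.2 v.1 = v.2)).card ≤
      R.card * Fintype.card ι * B := by
  have h1 : ∑ v ∈ V, ((R ×ˢ (univ : Finset ι)).filter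
      (fun e => e.1 ≠ e.2 ∧ f e.1 v.1 = v.2 ∧ f e.2 v.1 = v.2)).card =
      ∑ e ∈ R ×ˢ (univ : Finset ι),
        (V.filter (fun v => e.1 ≠ e.2 ∧ f e.1 v.1 = v.2 ∧ f e.2 v.1 = v.2)).card := by
    simp only [card_filter]
    exact sum_comm
  rw [h1]
  calc _ ≤ ∑ e ∈ R ×ˢ (univ : Finset ι), B := sum_le_sum (fun e _ => common f B hf V e.1 e.2)
    _ = R.card * Fintype.card ι * B := by
      rw [sum_const, smul_eq_mul, card_product, card_univ]

theorem opt_card (o : Option ι) : (univ.filter (fun i => i ∈ o)).card ≤ 1 := by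
  rw [card_le_one]
  intro a ha b hb
  rw [mem_filter] at ha hb
  exact Option.mem_unique ha.2 hb.2

end CUTA

open CUTA in
/-- CUTA: the cutting lemma from its parts -/
theorem cut (h1 : S_PERT) (h2 : S_TEX) (h3 : S_TCT) (h4 : S_ALL) (h5 : S_HIT) (h6 : S_EXC) :
    S_CUT := by
  intro ι _ _ f B hf V r hr
  obtain ⟨ω, hω⟩ := sample h4 h5 f B hf r hr
  set R : Finset ι := univ.image ω with hR
  have hRne : R.Nonempty := by
    refine ⟨ω ⟨0, hr⟩, ?_⟩
    rw [hR]; exact mem_image_of_mem _ (mem_univ _)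
  have hRc : R.card ≤ r := by
    have := card_image_le (s := (univ : Finset (Fin r))) (f := ω)
    rw [card_univ, Fintype.card_fin] at this
    exact this
  choose w hw using fun v => h1 ι f B hf v
  choose τ hτ using fun v => h2 ι f B hf R (w v) (hw v).2.1
  have hgood : ∀ v, (r : ℝ) * ((Ks f (τ v)).card : ℝ) ≤
      lam B (Fintype.card ι) * Fintype.card ι := by
    intro v
    by_contra hcon
    push Not at hcon
    obtain ⟨i, hi⟩ := hω (τ v) ⟨R, (hτ v).1⟩ hcon
    unfold Ks at hi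
    rw [mem_filter] at hi
    exact (hτ v).1.nocr (ω i) (by rw [hR]; exact mem_image_of_mem _ (mem_univ _)) hi.2
  refine ⟨Trap ι, τ, fun c => if (r : ℝ) * ((Ks f c).card : ℝ) ≤
      lam B (Fintype.card ι) * Fintype.card ι then Ks f c else ∅, ?_, ?_, ?_⟩
  · obtain ⟨hfin, hc⟩ := h3 ι f B hf R r hRne hRc
    rw [Set.ncard_eq_toFinset_card _ hfin] at hc
    refine le_trans (card_le_card ?_) hc
    intro t ht
    rw [mem_image] at ht
    obtain ⟨v, _, rfl⟩ := ht
    rw [Set.Finite.mem_toFinset]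
    exact (hτ v).1
  · intro c
    show (((if (r : ℝ) * ((Ks f c).card : ℝ) ≤
      lam B (Fintype.card ι) * Fintype.card ι then Ks f c else ∅ : Finset ι)).card : ℝ) * r ≤ _
    split_ifs with hc
    · linarith [mul_comm (r : ℝ) ((Ks f c).card : ℝ)]
    · simp only [card_empty, Nat.cast_zero, zero_mul]
      exact mul_nonneg (lam_nonneg _ _) (Nat.cast_nonneg _)
  · have key : ∀ v ∈ V, (univ.filter (fun i => f i v.1 = v.2 ∧
        i ∉ (if (r : ℝ) * ((Ks f (τ v)).card : ℝ) ≤
          lam B (Fintype.card ι) * Fintype.card ι then Ks f (τ v) else ∅))).card ≤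
        2 + ((R ×ˢ (univ : Finset ι)).filter
          (fun e => e.1 ≠ e.2 ∧ f e.1 v.1 = v.2 ∧ f e.2 v.1 = v.2)).card := by
      intro v _
      rw [if_pos (hgood v)]
      have hsub : univ.filter (fun i => f i v.1 = v.2 ∧ i ∉ Ks f (τ v)) ⊆
          (univ.filter (fun i => i ∈ (τ v).b) ∪ univ.filter (fun i => i ∈ (τ v).t)) ∪
            ((R ×ˢ (univ : Finset ι)).filter
              (fun e => e.1 ≠ e.2 ∧ f e.1 v.1 = v.2 ∧ f e.2 v.1 = v.2)).image Prod.snd := by
        intro i hi
        rw [mem_filter] at hi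
        obtain ⟨_, hi1, hi2⟩ := hi
        have hi3 : ¬ Crs f (τ v) i := by
          intro hcr
          apply hi2
          unfold Ks
          rw [mem_filter]
          exact ⟨mem_univ _, hcr⟩
        rcases h6 ι f B hf R (τ v) v (w v) (hτ v).1 (hw v) (hτ v).2 i hi1 hi3 with h | h | h
        · exact mem_union_left _ (mem_union_left _ (mem_filter.2 ⟨mem_univ _, h⟩))
        · exact mem_union_left _ (mem_union_right _ (mem_filter.2 ⟨mem_univ _, h⟩))
        · obtain ⟨g, hg, hgi, hgv⟩ := h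
          refine mem_union_right _ (mem_image.2 ⟨(g, i), ?_, rfl⟩)
          rw [mem_filter, mem_product]
          exact ⟨⟨hg, mem_univ _⟩, hgi, hgv, hi1⟩
      have c1 := opt_card (τ v).b
      have c2 := opt_card (τ v).t
      have c3 := card_le_card hsub
      have c4 := card_union_le (univ.filter (fun i => i ∈ (τ v).b) ∪
        univ.filter (fun i => i ∈ (τ v).t)) (((R ×ˢ (univ : Finset ι)).filter
              (fun e => e.1 ≠ e.2 ∧ f e.1 v.1 = v.2 ∧ f e.2 v.1 = v.2)).image Prod.snd)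
      have c5 := card_union_le (univ.filter (fun i => i ∈ (τ v).b))
        (univ.filter (fun i => i ∈ (τ v).t))
      have c6 := card_image_le (s := (R ×ˢ (univ : Finset ι)).filter
              (fun e => e.1 ≠ e.2 ∧ f e.1 v.1 = v.2 ∧ f e.2 v.1 = v.2)) (f := Prod.snd)
      omega
    have h7 := count f B hf V R
    have h8 : R.card * Fintype.card ι * B ≤ B * r * Fintype.card ι := by
      calc R.card * Fintype.card ι * B ≤ r * Fintype.card ι * B :=
            Nat.mul_le_mul_right _ (Nat.mul_le_mul_right _ hRc)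
        _ = B * r * Fintype.card ι := by ring
    refine le_trans (sum_le_sum key) ?_
    rw [sum_add_distrib, sum_const, smul_eq_mul]
    omega

end Pool.Agent.NH60.TP
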