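import Pool.Agent.NH60.TP.Stm

/-!
Project TP, part EN: the energy inequality.
-/

set_option autoImplicit false

namespace Pool.Agent.NH60.TP

open Finset
open scoped Classical

namespace EN

/-- the branch through the first point -/
noncomputable def f1 (z : ℂ × ℂ × ℂ × ℂ) : ℂ × ℂ × ℝ :=
  (z.2.2.1, z.2.2.2, dist z.1 z.2.2.1 - dist z.1 z.2.2.2)

/-- the branch through the second point -/
noncomputable def f2 (z : ℂ × ℂ × ℂ × ℂ) : ℂ × ℂ × ℝ :=
  (z.2.2.1, z.2.2.2, dist z.1 z.2.2.2 - dist z.1 z.2.2.1)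

/-- the opposite branch -/
noncomputable def op (τ : ℂ × ℂ × ℝ) : ℂ × ℂ × ℝ := (τ.1, τ.2.1, -τ.2.2)

/-- the number of points on a branch -/
noncomputable def hn (P : Finset ℂ) (τ : ℂ × ℂ × ℝ) : Finset ℂ := hh P τ.1 τ.2.1 τ.2.2

/-- all quadruples -/
noncomputable def ZZ (P : Finset ℂ) (r : ℕ) : Finset (ℂ × ℂ × ℂ × ℂ) :=
  (P ×ˢ P ×ˢ P ×ˢ P).filter (fun z => z.2 ∈ GG P r z.1)

lemma card_ZZ (P : Finset ℂ) (r : ℕ) : (ZZ P r).card = ∑ p ∈ P, (GG P r p).card := by
  rw [card_eq_sum_card_fiberwise (f := fun z => z.1) (t := P)]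
  · refine sum_congr rfl fun p hp => ?_
    refine card_bij (fun z _ => z.2) ?_ ?_ ?_
    · intro z hz
      rw [mem_filter, ZZ, mem_filter] at hz
      rw [← hz.2]
      exact hz.1.2
    · intro z hz z' hz' h
      rw [mem_filter] at hz hz'
      exact Prod.ext (hz.2.trans hz'.2.symm) h
    · intro e he
      refine ⟨(p, e), ?_, rfl⟩
      rw [mem_filter, ZZ, mem_filter]
      refine ⟨⟨mem_product.2 ⟨hp, ?_⟩, he⟩, rfl⟩
      rw [GG, mem_filter] at he
      exact he.1
  · intro z hz
    have hz := mem_coe.1 hz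
    rw [ZZ, mem_filter, mem_product] at hz
    exact mem_coe.2 hz.1.1

variable {P : Finset ℂ} {r : ℕ}

lemma mem_ZZ {z : ℂ × ℂ × ℂ × ℂ} (hz : z ∈ ZZ P r) :
    z.1 ∈ P ∧ z.2.1 ∈ P ∧ f1 z ∈ TT P ∧ f2 z ∈ TT P ∧ z.1 ∈ hn P (f1 z) ∧ z.2.1 ∈ hn P (f2 z) ∧
      r ^ 2 ≤ 16 * (hn P (f2 z)).card := by
  obtain ⟨p, q, x, y⟩ := z
  rw [ZZ, mem_filter, mem_product, mem_product, mem_product] at hz
  obtain ⟨⟨hp, hq, hx, hy⟩, h⟩ := hz
  simp only at hp hq hx hy h
  rw [GG, mem_filter] at h
  obtain ⟨-, h1, h2, h3, h4⟩ := h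
  simp only at h1 h2 h3 h4
  have e : dist q x - dist q y = dist p y - dist p x := by linarith
  refine ⟨hp, hq, ?_, ?_, ?_, ?_, ?_⟩
  · rw [TT, mem_image]
    refine ⟨(x, y, p), ?_, rfl⟩
    rw [mem_filter, mem_product, mem_product]
    exact ⟨⟨hx, hy, hp⟩, h1, h3⟩
  · rw [TT, mem_image]
    refine ⟨(x, y, q), ?_, ?_⟩
    · rw [mem_filter, mem_product, mem_product]
      refine ⟨⟨hx, hy, hq⟩, h1, ?_⟩
      simp only
      rw [e, abs_sub_comm]
      exact h3
    · simp only [f2]
      rw [e]
  · rw [hn, hh, mem_filter]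
    exact ⟨hp, rfl⟩
  · rw [hn, hh, mem_filter]
    exact ⟨hq, e⟩
  · exact h4

lemma op_f1 (z : ℂ × ℂ × ℂ × ℂ) : op (f1 z) = f2 z := by
  simp only [op, f1, f2, neg_sub]

lemma op_f2 (z : ℂ × ℂ × ℂ × ℂ) : op (f2 z) = f1 z := by
  simp only [op, f1, f2, neg_sub]

lemma inj {z z' : ℂ × ℂ × ℂ × ℂ} (h : f1 z = f1 z' ∨ f2 z = f2 z') (h1 : z.1 = z'.1)
    (h2 : z.2.1 = z'.2.1) : z = z' := by
  obtain ⟨p, q, x, y⟩ := z
  obtain ⟨p', q', x', y'⟩ := z'
  simp only [f1, f2, Prod.mk.injEq] at h h1 h2 ⊢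
  rcases h with h | h
  · exact ⟨h1, h2, h.1, h.2.1⟩
  · exact ⟨h1, h2, h.1, h.2.1⟩

end EN

open EN

theorem en : S_EN := by
  intro P r hP
  set T := (TT P).filter (fun τ => r ^ 2 ≤ 16 * (hh P τ.1 τ.2.1 τ.2.2).card) with hT
  have hmT : ∀ τ, τ ∈ T ↔ τ ∈ TT P ∧ r ^ 2 ≤ 16 * (hn P τ).card := fun τ => by
    rw [hT, mem_filter]; rfl
  have hsum : P.card ^ 3 ≤ 16 * (ZZ P r).card := by
    rw [card_ZZ, mul_sum]
    calc P.card ^ 3 = ∑ _p ∈ P, P.card ^ 2 := by rw [sum_const, smul_eq_mul]; ring
      _ ≤ _ := sum_le_sum hP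
  have hle : (ZZ P r).card ≤ 2 * ∑ τ ∈ T, (hn P τ).card ^ 2 := by
    rw [← card_filter_add_card_filter_not (fun z => (hn P (f1 z)).card ≤ (hn P (f2 z)).card),
      two_mul]
    refine add_le_add ?_ ?_
    · rw [card_eq_sum_card_fiberwise (f := f2) (t := T)]
      · refine sum_le_sum fun τ _ => ?_
        by_cases hτ : (hn P (op τ)).card ≤ (hn P τ).card
        · calc _ ≤ (hn P (op τ) ×ˢ hn P τ).card := by
                refine card_le_card_of_injOn (fun z => (z.1, z.2.1)) ?_ ?_
                · intro z hz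
                  have hz := mem_coe.1 hz
                  rw [mem_filter, mem_filter] at hz
                  have h := mem_ZZ hz.1.1
                  rw [← hz.2, op_f2]
                  exact mem_coe.2 (mem_product.2 ⟨h.2.2.2.2.1, h.2.2.2.2.2.1⟩)
                · intro z hz z' hz' h
                  have hz := mem_coe.1 hz
                  have hz' := mem_coe.1 hz'
                  rw [mem_filter] at hz hz'
                  simp only [Prod.mk.injEq] at h
                  exact inj (Or.inr (hz.2.trans hz'.2.symm)) h.1 h.2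
            _ = (hn P (op τ)).card * (hn P τ).card := card_product _ _
            _ ≤ (hn P τ).card * (hn P τ).card := Nat.mul_le_mul_right _ hτ
            _ = _ := (sq _).symm
        · have : ((((ZZ P r).filter (fun z => (hn P (f1 z)).card ≤ (hn P (f2 z)).card)).filter
              (fun z => f2 z = τ)).card) = 0 := by
            rw [card_eq_zero, filter_eq_empty_iff]
            intro z hz h
            rw [mem_filter] at hz
            apply hτ
            rw [← h, op_f2]
            exact hz.2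
          rw [this]
          exact Nat.zero_le _
      · intro z hz
        have hz := mem_coe.1 hz
        rw [mem_filter] at hz
        have h := mem_ZZ hz.1
        exact mem_coe.2 ((hmT _).2 ⟨h.2.2.2.1, h.2.2.2.2.2.2⟩)
    · rw [card_eq_sum_card_fiberwise (f := f1) (t := T)]
      · refine sum_le_sum fun τ _ => ?_
        by_cases hτ : (hn P (op τ)).card ≤ (hn P τ).card
        · calc _ ≤ (hn P τ ×ˢ hn P (op τ)).card := by
                refine card_le_card_of_injOn (fun z => (z.1, z.2.1)) ?_ ?_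
                · intro z hz
                  have hz := mem_coe.1 hz
                  rw [mem_filter, mem_filter] at hz
                  have h := mem_ZZ hz.1.1
                  rw [← hz.2, op_f1]
                  exact mem_coe.2 (mem_product.2 ⟨h.2.2.2.2.1, h.2.2.2.2.2.1⟩)
                · intro z hz z' hz' h
                  have hz := mem_coe.1 hz
                  have hz' := mem_coe.1 hz'
                  rw [mem_filter] at hz hz'
                  simp only [Prod.mk.injEq] at h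
                  exact inj (Or.inl (hz.2.trans hz'.2.symm)) h.1 h.2
            _ = (hn P τ).card * (hn P (op τ)).card := card_product _ _
            _ ≤ (hn P τ).card * (hn P τ).card := Nat.mul_le_mul_left _ hτ
            _ = _ := (sq _).symm
        · have : ((((ZZ P r).filter (fun z => ¬ (hn P (f1 z)).card ≤ (hn P (f2 z)).card)).filter
              (fun z => f1 z = τ)).card) = 0 := by
            rw [card_eq_zero, filter_eq_empty_iff]
            intro z hz h
            rw [mem_filter] at hz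
            apply hτ
            rw [← h, op_f1]
            exact (not_le.1 hz.2).le
          rw [this]
          exact Nat.zero_le _
      · intro z hz
        have hz := mem_coe.1 hz
        rw [mem_filter] at hz
        have h := mem_ZZ hz.1
        refine mem_coe.2 ((hmT _).2 ⟨h.2.2.1, h.2.2.2.2.2.2.trans ?_⟩)
        exact Nat.mul_le_mul_left _ (not_le.1 hz.2).le
  calc P.card ^ 3 ≤ 16 * (ZZ P r).card := hsum
    _ ≤ 16 * (2 * ∑ τ ∈ T, (hn P τ).card ^ 2) := Nat.mul_le_mul_left _ hle
    _ = 32 * ∑ τ ∈ T, (hn P τ).card ^ 2 := by ring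

end Pool.Agent.NH60.TP
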