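import Pool.Agent.NH60.TP.Stm

/-!
Project TP: which functions through a point do not enter its trapezoid.
-/

set_option autoImplicit false

namespace Pool.Agent.NH60.TP

open Finset
open scoped Classical

theorem exc : S_EXC := by
  intro ι _ f B hf R τ v w hτ hN hw i hi hcr
  obtain ⟨hvw, hG, hno, hlow, hup⟩ := hN
  have h1 : (∃ g ∈ τ.b, f i w.1 ≤ f g w.1) ∨ ∃ g ∈ τ.t, f g w.1 ≤ f i w.1 := by
    by_contra hcon
    push Not at hcon
    exact hcr ⟨w.1, hcon.1, hcon.2, hw.2.2.1, hw.2.2.2⟩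
  rcases h1 with ⟨g, hg, hle⟩ | ⟨g, hg, hle⟩
  · by_cases hgi : g = i
    · exact Or.inl (hgi ▸ hg)
    right; right
    have hlt : f i w.1 < f g w.1 := lt_of_le_of_ne hle (hG.2 i g (Ne.symm hgi))
    have h2 : f g v.1 ≤ v.2 := by
      by_contra hcon
      have := hup g (not_le.1 hcon)
      exact lt_asymm this (hw.1 g hg)
    refine ⟨g, hτ.bR g hg, hgi, ?_⟩
    by_contra hne
    have h3 : f g v.1 < f i v.1 := by rw [hi]; exact lt_of_le_of_ne h2 hne
    have hcont : Continuous fun z => f g z - f i z := (hf.1 g).sub (hf.1 i)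
    obtain ⟨z, hz, hz0⟩ := intermediate_value_Icc hvw.le hcont.continuousOn
      (show (0 : ℝ) ∈ Set.Icc (f g v.1 - f i v.1) (f g w.1 - f i w.1) from
        ⟨by linarith, by linarith⟩)
    have hz1 : v.1 < z := by
      refine lt_of_le_of_ne hz.1 ?_
      rintro rfl
      simp only at hz0
      linarith
    exact hno g i hgi z hz1 hz.2 (sub_eq_zero.1 hz0)
  · by_cases hgi : g = i
    · exact Or.inr (Or.inl (hgi ▸ hg))
    right; right
    have hlt : f g w.1 < f i w.1 := lt_of_le_of_ne hle (hG.2 g i hgi)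
    have h2 : v.2 ≤ f g v.1 := by
      by_contra hcon
      have := hlow g (not_le.1 hcon)
      exact lt_asymm this (hw.2.1 g hg)
    refine ⟨g, hτ.tR g hg, hgi, ?_⟩
    by_contra hne
    have h3 : f i v.1 < f g v.1 := by rw [hi]; exact lt_of_le_of_ne h2 (Ne.symm hne)
    have hcont : Continuous fun z => f i z - f g z := (hf.1 i).sub (hf.1 g)
    obtain ⟨z, hz, hz0⟩ := intermediate_value_Icc hvw.le hcont.continuousOn
      (show (0 : ℝ) ∈ Set.Icc (f i v.1 - f g v.1) (f i w.1 - f g w.1) from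
        ⟨by linarith, by linarith⟩)
    have hz1 : v.1 < z := by
      refine lt_of_le_of_ne hz.1 ?_
      rintro rfl
      simp only at hz0
      linarith
    exact hno i g (Ne.symm hgi) z hz1 hz.2 (sub_eq_zero.1 hz0)

end Pool.Agent.NH60.TP
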