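import Pool.Agent.NH60.TP.Stm

/-!
TP-FOC (helper75): the main counting for a fixed focus.
-/

set_option autoImplicit false

namespace Pool.Agent.NH60.TP

open Finset
open scoped Classical

namespace FOC

/-- few points of `P` are on the ray from `p` to the left -/
lemma few_ray (h5 : S_LINE) {P : Finset ℂ} {D : Finset ℝ} (hP : Per P D) (p : ℂ) :
    (P.filter (fun x => ¬ 0 < dist x p + (x - p).re)).card ≤ D.card + 2 := by
  refine le_trans (card_le_card ?_) (h5 P D hP p (p + 1) (by simp))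
  intro x hx
  rw [mem_filter] at hx ⊢
  refine ⟨hx.1, ?_⟩
  have h1 : dist x p = ‖x - p‖ := dist_eq_norm _ _
  have h2 : (x - p).im = 0 := by
    by_contra h
    have h3 := Complex.abs_re_lt_norm.2 h
    have h4 := neg_abs_le (x - p).re
    apply hx.2
    rw [h1]
    linarith
  have h3 : (p + 1 - p).re = 1 := by simp
  have h4 : (p + 1 - p).im = 0 := by simp
  rw [h3, h4, h2]
  ring

/-- few points of `P` are on a segment -/
lemma few_seg (h5 : S_LINE) {P : Finset ℂ} {D : Finset ℝ} (hP : Per P D) {p q : ℂ}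
    (hpq : p ≠ q) :
    (P.filter (fun x => ¬ dist q p < dist p x + dist q x)).card ≤ D.card + 2 := by
  refine le_trans (card_le_card ?_) (h5 P D hP p q hpq)
  intro x hx
  rw [mem_filter] at hx ⊢
  refine ⟨hx.1, ?_⟩
  have h1 : dist p x + dist x q = dist p q := by
    have h3 := dist_triangle p x q
    have h2 := hx.2
    rw [not_lt, dist_comm q x, dist_comm q p] at h2
    exact le_antisymm h2 h3
  rw [dist_add_dist_eq_iff] at h1
  obtain ⟨t, -, ht⟩ := h1
  have h3 : x - p = (t : ℂ) * (q - p) := by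
    rw [← ht, AffineMap.lineMap_apply]
    simp
  rw [h3, Complex.re_ofReal_mul, Complex.im_ofReal_mul]
  ring

/-- the pairs that are used -/
noncomputable def AA (P : Finset ℂ) (p : ℂ) : Finset (ℂ × ℂ) :=
  (P ×ˢ P).filter (fun e => e.1 ≠ p ∧ 0 < dist e.2 p + (e.2 - p).re ∧ e.2 ≠ e.1 ∧
    dist e.1 p < dist p e.2 + dist e.1 e.2)

lemma card_AA (h5 : S_LINE) {P : Finset ℂ} {D : Finset ℝ} (hP : Per P D) (p : ℂ) :
    P.card ^ 2 ≤ (AA P p).card + P.card * (2 * D.card + 6) := by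
  have hsub : P ×ˢ P ⊆ (((AA P p ∪ ({p} ×ˢ P)) ∪
      (P ×ˢ (P.filter (fun x => ¬ 0 < dist x p + (x - p).re)))) ∪
      P.image (fun x => (x, x))) ∪ (P.erase p).biUnion (fun q =>
        (P.filter (fun x => ¬ dist q p < dist p x + dist q x)).image (fun x => (q, x))) := by
    rintro ⟨q, x⟩ hqx
    obtain ⟨hq, hx⟩ := mem_product.1 hqx
    dsimp only at hq hx
    by_cases a1 : q = p
    · refine mem_union_left _ (mem_union_left _ (mem_union_left _ (mem_union_right _ ?_)))
      exact mem_product.2 ⟨mem_singleton.2 a1, hx⟩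
    by_cases a2 : 0 < dist x p + (x - p).re
    swap
    · refine mem_union_left _ (mem_union_left _ (mem_union_right _ ?_))
      exact mem_product.2 ⟨hq, mem_filter.2 ⟨hx, a2⟩⟩
    by_cases a3 : x = q
    · refine mem_union_left _ (mem_union_right _ ?_)
      exact mem_image.2 ⟨x, hx, by rw [a3]⟩
    by_cases a4 : dist q p < dist p x + dist q x
    swap
    · refine mem_union_right _ (mem_biUnion.2 ⟨q, mem_erase.2 ⟨a1, hq⟩, ?_⟩)
      exact mem_image.2 ⟨x, mem_filter.2 ⟨hx, a4⟩, rfl⟩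
    refine mem_union_left _ (mem_union_left _ (mem_union_left _ (mem_union_left _ ?_)))
    exact mem_filter.2 ⟨hqx, a1, a2, a3, a4⟩
  have hc := card_le_card hsub
  rw [card_product] at hc
  have b1 := card_union_le (((AA P p ∪ ({p} ×ˢ P)) ∪
      (P ×ˢ (P.filter (fun x => ¬ 0 < dist x p + (x - p).re)))) ∪
      P.image (fun x => (x, x))) ((P.erase p).biUnion (fun q =>
        (P.filter (fun x => ¬ dist q p < dist p x + dist q x)).image (fun x => (q, x))))
  have b2 := card_union_le ((AA P p ∪ ({p} ×ˢ P)) ∪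
      (P ×ˢ (P.filter (fun x => ¬ 0 < dist x p + (x - p).re)))) (P.image (fun x => (x, x)))
  have b3 := card_union_le (AA P p ∪ ({p} ×ˢ P))
      (P ×ˢ (P.filter (fun x => ¬ 0 < dist x p + (x - p).re)))
  have b4 := card_union_le (AA P p) ({p} ×ˢ P)
  have c1 : ({p} ×ˢ P).card = P.card := by rw [card_product, card_singleton, one_mul]
  have c2 : (P ×ˢ (P.filter (fun x => ¬ 0 < dist x p + (x - p).re))).card ≤
      P.card * (D.card + 2) := by
    rw [card_product]
    exact Nat.mul_le_mul_left _ (few_ray h5 hP p)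
  have c3 : (P.image (fun x => (x, x))).card ≤ P.card := card_image_le
  have c4 : ((P.erase p).biUnion (fun q =>
        (P.filter (fun x => ¬ dist q p < dist p x + dist q x)).image (fun x => (q, x)))).card ≤
        P.card * (D.card + 2) := by
    refine card_biUnion_le.trans ?_
    calc ∑ q ∈ P.erase p, ((P.filter (fun x => ¬ dist q p < dist p x + dist q x)).image
          (fun x => (q, x))).card ≤ ∑ q ∈ P.erase p, (D.card + 2) := by
          refine sum_le_sum fun q hq => card_image_le.trans (few_seg h5 hP ?_)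
          exact (ne_of_mem_erase hq).symm
      _ = (P.erase p).card * (D.card + 2) := by rw [sum_const, smul_eq_mul]
      _ ≤ P.card * (D.card + 2) := Nat.mul_le_mul_right _ (card_le_card (erase_subset _ _))
  nlinarith

/-- the index set -/
noncomputable def QQ (P : Finset ℂ) (D : Finset ℝ) (p : ℂ) : Finset (ℂ × ℝ) :=
  ((P ×ˢ D).image (fun e => (e.1, e.2 - dist e.1 p))).filter
    (fun e => e.1 ≠ p ∧ dist e.1 p < e.2)

lemma card_QQ (P : Finset ℂ) (D : Finset ℝ) (p : ℂ) : (QQ P D p).card ≤ P.card * D.card := by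
  refine (card_filter_le _ _).trans (card_image_le.trans ?_)
  rw [card_product]

lemma QQ_P {P : Finset ℂ} {D : Finset ℝ} {p : ℂ} {e : ℂ × ℝ} (he : e ∈ QQ P D p) : e.1 ∈ P := by
  obtain ⟨a, ha, rfl⟩ := mem_image.1 (mem_filter.1 he).1
  exact (mem_product.1 ha).1

lemma QQ_lt {P : Finset ℂ} {D : Finset ℝ} {p : ℂ} {e : ℂ × ℝ} (he : e ∈ QQ P D p) :
    dist e.1 p < e.2 := (mem_filter.1 he).2.2

lemma QQ_sq {P : Finset ℂ} {D : Finset ℝ} {p : ℂ} {e : ℂ × ℝ} (he : e ∈ QQ P D p) :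
    e.2 ^ 2 ≠ dist e.1 p ^ 2 := by
  have h1 := QQ_lt he
  have h2 : 0 ≤ dist e.1 p := dist_nonneg
  exact (pow_lt_pow_left₀ h1 h2 two_ne_zero).ne'

/-- the functions -/
noncomputable def FF (P : Finset ℂ) (D : Finset ℝ) (p : ℂ) : {e // e ∈ QQ P D p} → ℝ → ℝ :=
  fun e => phi p e.1.1 e.1.2

lemma fam (h4 : S_PFAM) (P : Finset ℂ) (D : Finset ℝ) (p : ℂ) : Fam (FF P D p) 2 := by
  refine ⟨fun i => ?_, fun i j hij => ?_⟩
  · unfold FF
    show Continuous (fun t => phi p i.1.1 i.1.2 t)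
    unfold phi
    fun_prop
  · refine h4 p i.1.1 j.1.1 i.1.2 j.1.2 (QQ_sq i.2) (QQ_sq j.2) ?_
    intro h
    exact hij (Subtype.ext h)

/-- the points off the ray -/
noncomputable def PP (P : Finset ℂ) (p : ℂ) : Finset ℂ :=
  P.filter (fun x => 0 < dist x p + (x - p).re)

/-- the points on the conic with foci `p`, `e.1` and parameter `e.2` -/
noncomputable def JJ (P : Finset ℂ) (p : ℂ) (e : ℂ × ℝ) : Finset ℂ :=
  (PP P p).filter (fun x => x ≠ e.1 ∧ dist p x + dist e.1 x = e.2)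

/-- their coordinates -/
noncomputable def II (P : Finset ℂ) (D : Finset ℝ) (p : ℂ) (i : {e // e ∈ QQ P D p}) :
    Finset (ℝ × ℝ) := (JJ P p i.1).image (psi p)

lemma inj (h3 : S_PINJ) {P : Finset ℂ} {p x y : ℂ} (hx : x ∈ PP P p) (hy : y ∈ PP P p)
    (h : psi p x = psi p y) : x = y :=
  h3 p x y (mem_filter.1 hx).2 (mem_filter.1 hy).2 h

lemma card_II (h3 : S_PINJ) (P : Finset ℂ) (D : Finset ℝ) (p : ℂ) (i : {e // e ∈ QQ P D p}) :
    (II P D p i).card = (JJ P p i.1).card := by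
  refine card_image_of_injOn ?_
  intro x hx y hy h
  exact inj h3 (mem_filter.1 (mem_coe.1 hx)).1 (mem_filter.1 (mem_coe.1 hy)).1 h

lemma card_sum (h3 : S_PINJ) {P : Finset ℂ} {D : Finset ℝ} (hP : Per P D) {p : ℂ}
    (hp : p ∈ P) : (AA P p).card ≤ ∑ i, (II P D p i).card := by
  have e1 : ∑ i, (II P D p i).card =
      ((univ : Finset {e // e ∈ QQ P D p}).sigma (fun i => JJ P p i.1)).card := by
    rw [card_sigma]
    exact sum_congr rfl fun i _ => card_II h3 P D p i
  rw [e1]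
  have key : ∀ e ∈ AA P p, (e.1, dist p e.2 + dist e.1 e.2) ∈ QQ P D p := by
    rintro ⟨q, x⟩ he
    obtain ⟨h1, a1, a2, a3, a4⟩ := mem_filter.1 he
    obtain ⟨hq, hx⟩ := mem_product.1 h1
    dsimp only at *
    refine mem_filter.2 ⟨mem_image.2 ⟨(q, dist p x + dist q x + dist q p), ?_, ?_⟩, a1, a4⟩
    · refine mem_product.2 ⟨hq, ?_⟩
      have hpx : p ≠ x := by
        rintro rfl
        simp at a2
      have := hP p hp x hx q hq hpx a3 (Ne.symm a1)
      rwa [dist_comm x q] at this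
    · simp
  have hsub : AA P p ⊆ ((univ : Finset {e // e ∈ QQ P D p}).sigma (fun i => JJ P p i.1)).image
      (fun e => (e.1.1.1, e.2)) := by
    intro e he
    obtain ⟨h1, a1, a2, a3, a4⟩ := mem_filter.1 he
    obtain ⟨hq, hx⟩ := mem_product.1 h1
    refine mem_image.2 ⟨⟨⟨(e.1, dist p e.2 + dist e.1 e.2), key e he⟩, e.2⟩, ?_, rfl⟩
    refine mem_sigma.2 ⟨mem_univ _, ?_⟩
    exact mem_filter.2 ⟨mem_filter.2 ⟨hx, a2⟩, a3, rfl⟩
  exact (card_le_card hsub).trans card_image_le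

/-- the number of curves through two points is at most the number of points on a hyperbola -/
lemma mu_le (h3 : S_PINJ) {P : Finset ℂ} {D : Finset ℝ} {p x y : ℂ}
    (hx : x ∈ PP P p) (hy : y ∈ PP P p) :
    mu (II P D p) (psi p x, psi p y) ≤ (hh P x y (dist p y - dist p x)).card := by
  unfold mu
  refine card_le_card_of_injOn (fun i => i.1.1) ?_ ?_
  · intro i hi
    obtain ⟨-, h1, h2⟩ := mem_filter.1 (mem_coe.1 hi)
    obtain ⟨x', hx', ex⟩ := mem_image.1 h1
    obtain ⟨y', hy', ey⟩ := mem_image.1 h2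
    obtain ⟨hx1, -, hx2⟩ := mem_filter.1 hx'
    obtain ⟨hy1, -, hy2⟩ := mem_filter.1 hy'
    obtain rfl := inj h3 hx1 hx ex
    obtain rfl := inj h3 hy1 hy ey
    refine mem_coe.2 (mem_filter.2 ⟨QQ_P i.2, ?_⟩)
    linarith
  · intro i hi j hj hij
    obtain ⟨-, h1, h2⟩ := mem_filter.1 (mem_coe.1 hi)
    obtain ⟨x', hx', ex⟩ := mem_image.1 h1
    obtain ⟨hx1, -, hx2⟩ := mem_filter.1 hx'
    obtain rfl := inj h3 hx1 hx ex
    obtain ⟨-, h1, h2⟩ := mem_filter.1 (mem_coe.1 hj)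
    obtain ⟨y', hy', ey⟩ := mem_image.1 h1
    obtain ⟨hy1, -, hy2⟩ := mem_filter.1 hy'
    obtain rfl := inj h3 hy1 hx1 ey
    apply Subtype.ext
    apply Prod.ext
    · exact hij
    · have e : i.1.1 = j.1.1 := hij
      rw [← hx2, ← hy2, e]

/-- the good pairs of `S_PAIRS` give elements of `GG` -/
lemma sum_le (h3 : S_PINJ) (h6 : S_NDEG) {P : Finset ℂ} {D : Finset ℝ} {p : ℂ} {r : ℕ}
    (hI : P.card ^ 2 ≤ 2 * ∑ i, (II P D p i).card) (hn : 1 ≤ P.card) :
    ∑ e ∈ (((PP P p).image (psi p)) ×ˢ ((PP P p).image (psi p))).filter (fun e => e.1 ≠ e.2 ∧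
      r ^ 2 * ∑ i, (II P D p i).card ≤ 8 * ((PP P p).image (psi p)).card ^ 2 *
        mu (II P D p) e), mu (II P D p) e ≤ (GG P r p).card := by
  set Z := (((PP P p).image (psi p)) ×ˢ ((PP P p).image (psi p))).filter (fun e => e.1 ≠ e.2 ∧
      r ^ 2 * ∑ i, (II P D p i).card ≤ 8 * ((PP P p).image (psi p)).card ^ 2 *
        mu (II P D p) e) with hZ
  have e1 : ∑ e ∈ Z, mu (II P D p) e = (Z.sigma (fun e => (univ : Finset {e // e ∈ QQ P D p}).filter
      (fun i => e.1 ∈ II P D p i ∧ e.2 ∈ II P D p i))).card := by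
    rw [card_sigma]
    rfl
  rw [e1]
  have e2 : ((Z.sigma (fun e => (univ : Finset {e // e ∈ QQ P D p}).filter
      (fun i => e.1 ∈ II P D p i ∧ e.2 ∈ II P D p i))).image
        (fun t => ((t.1, t.2.1) : ((ℝ × ℝ) × (ℝ × ℝ)) × (ℂ × ℝ)))).card =
      (Z.sigma (fun e => (univ : Finset {e // e ∈ QQ P D p}).filter
      (fun i => e.1 ∈ II P D p i ∧ e.2 ∈ II P D p i))).card := by
    refine card_image_of_injective _ ?_
    rintro ⟨e, i⟩ ⟨e', i'⟩ h
    simp only [Prod.mk.injEq] at h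
    obtain ⟨rfl, h⟩ := h
    obtain rfl := Subtype.ext h
    rfl
  rw [← e2]
  refine (card_le_card (t := (GG P r p).image (fun g => (((psi p g.2.1, psi p g.2.2),
    (g.1, dist p g.2.1 + dist g.1 g.2.1)) : ((ℝ × ℝ) × (ℝ × ℝ)) × (ℂ × ℝ)))) ?_).trans
    card_image_le
  intro t ht
  obtain ⟨⟨e, i⟩, hei, rfl⟩ := mem_image.1 ht
  obtain ⟨he, hi⟩ := mem_sigma.1 hei
  obtain ⟨-, k1, k2⟩ := mem_filter.1 hi
  obtain ⟨-, hne, hmu⟩ := mem_filter.1 he
  obtain ⟨x, hx, ex⟩ := mem_image.1 k1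
  obtain ⟨y, hy, ey⟩ := mem_image.1 k2
  obtain ⟨hx1, hx0, hx2⟩ := mem_filter.1 hx
  obtain ⟨hy1, hy0, hy2⟩ := mem_filter.1 hy
  obtain ⟨u, v⟩ := e
  dsimp only at ex ey k1 k2 hne hmu hx0 hx2 hy0 hy2 ⊢
  subst ex
  subst ey
  refine mem_image.2 ⟨(i.1.1, x, y), mem_filter.2 ⟨?_, ?_, ?_, ?_, ?_⟩, ?_⟩
  · exact mem_product.2 ⟨QQ_P i.2, mem_product.2 ⟨(mem_filter.1 hx1).1, (mem_filter.1 hy1).1⟩⟩
  · intro h
    have h' : x = y := h
    exact hne (by rw [h'])
  · show dist p x + dist i.1.1 x = dist p y + dist i.1.1 y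
    rw [hx2, hy2]
  · show |dist p x - dist p y| < dist x y
    refine h6 p i.1.1 x y ?_ (by rw [hx2, hy2]) ?_
    · rintro rfl
      exact hne rfl
    · rw [hx2, dist_comm]
      exact QQ_lt i.2
  · show r ^ 2 ≤ 16 * (hh P x y (dist p y - dist p x)).card
    have m1 := mu_le (D := D) h3 hx1 hy1
    have m2 : ((PP P p).image (psi p)).card ≤ P.card :=
      card_image_le.trans (card_filter_le _ _)
    have m3 : ((PP P p).image (psi p)).card ^ 2 ≤ P.card ^ 2 := Nat.pow_le_pow_left m2 2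
    set M := mu (II P D p) (psi p x, psi p y)
    have m4 : r ^ 2 * P.card ^ 2 ≤ 16 * M * P.card ^ 2 := by
      calc r ^ 2 * P.card ^ 2 ≤ r ^ 2 * (2 * ∑ i, (II P D p i).card) := Nat.mul_le_mul_left _ hI
        _ = 2 * (r ^ 2 * ∑ i, (II P D p i).card) := by ring
        _ ≤ 2 * (8 * ((PP P p).image (psi p)).card ^ 2 * M) := Nat.mul_le_mul_left _ hmu
        _ = 16 * M * ((PP P p).image (psi p)).card ^ 2 := by ring
        _ ≤ 16 * M * P.card ^ 2 := Nat.mul_le_mul_left _ m3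
    have m5 : r ^ 2 ≤ 16 * M := Nat.le_of_mul_le_mul_right m4 (by positivity)
    omega
  · show ((psi p x, psi p y), (i.1.1, dist p x + dist i.1.1 x)) = ((psi p x, psi p y), i.1)
    rw [hx2]

end FOC

open FOC in
theorem foc (h1 : S_PAIRS) (h2 : S_PINC) (h3 : S_PINJ) (h4 : S_PFAM) (h5 : S_LINE)
    (h6 : S_NDEG) : S_FOC := by
  obtain ⟨C0, hC0, hpairs⟩ := h1 2
  refine ⟨8 * C0 + 1000, by linarith, ?_⟩
  intro P D hP hD r hr hrn hC p hp
  have hn4 : 4 ≤ P.card := by nlinarith [Nat.pow_le_pow_left hr 2]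
  have hn4R : (4 : ℝ) ≤ P.card := by exact_mod_cast hn4
  have hL : 1 ≤ Real.log ((P.card : ℝ) + 2) := by
    rw [Real.le_log_iff_exp_le (by positivity)]
    have := Real.exp_one_lt_d9
    linarith
  set n : ℝ := (P.card : ℝ) with hn
  set f : ℝ := (D.card : ℝ) with hf
  set L : ℝ := Real.log (n + 2) with hLdef
  have hrR : (1 : ℝ) ≤ r := by exact_mod_cast hr
  have hfR : (1 : ℝ) ≤ f := by rw [hf]; exact_mod_cast hD
  have hrf : f ≤ r * f := by nlinarith
  have hr0 : (0 : ℝ) < r := by linarith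
  have hf0 : (0 : ℝ) < f := by linarith
  have hL0 : (0 : ℝ) < L := by linarith
  have hrfL : r * f ≤ r * f * L := by nlinarith [mul_pos hr0 hf0]
  have c1 : (8 * C0 + 1000) * f ≤ n := by
    refine le_trans ?_ hC
    exact mul_le_mul_of_nonneg_left (hrf.trans hrfL) (by linarith)
  have c2 : 8 * C0 + 1000 ≤ n := by nlinarith
  have c3 : 1000 * f ≤ n := by nlinarith
  have c4 : C0 * (r * f * L) ≤ n / 8 := by nlinarith [mul_pos (mul_pos hr0 hf0) hL0]
  -- the sum is large
  have a1 := (card_AA h5 hP p).trans (Nat.add_le_add_right (card_sum h3 hP hp) _)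
  have a1R : n ^ 2 ≤ ((∑ i, (II P D p i).card : ℕ) : ℝ) + n * (2 * f + 6) := by
    rw [hn, hf]
    exact_mod_cast a1
  set S : ℕ := ∑ i, (II P D p i).card with hS
  have a2 : n ^ 2 ≤ 2 * (S : ℝ) := by nlinarith
  have a2N : P.card ^ 2 ≤ 2 * S := by
    rw [hn] at a2
    exact_mod_cast a2
  have hne : Nonempty {e // e ∈ QQ P D p} := by
    by_contra h
    rw [not_nonempty_iff] at h
    have : S = 0 := by rw [hS]; exact Fintype.sum_empty _
    rw [this] at a2
    norm_num at a2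
    nlinarith
  -- the number of indices
  have hN : Fintype.card {e // e ∈ QQ P D p} ≤ P.card * D.card := by
    rw [Fintype.card_coe]
    exact card_QQ P D p
  have hNR : (Fintype.card {e // e ∈ QQ P D p} : ℝ) ≤ n * f := by
    rw [hn, hf]
    exact_mod_cast hN
  have hlog : Real.log ((Fintype.card {e // e ∈ QQ P D p} : ℝ) + 2) ≤ 2 * L := by
    have e : 2 * L = Real.log ((n + 2) ^ 2) := by rw [Real.log_pow, ← hLdef]; norm_num
    rw [e]
    refine Real.log_le_log (by positivity) ?_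
    nlinarith
  have hV : ((((PP P p).image (psi p)).card : ℕ) : ℝ) ≤ n := by
    rw [hn]
    exact_mod_cast card_image_le.trans (card_filter_le _ _)
  have hVc : ((PP P p).image (psi p)).card = (PP P p).card := by
    refine card_image_of_injOn ?_
    intro x hx y hy h
    exact inj h3 (mem_coe.1 hx) (mem_coe.1 hy) h
  have hV2 : P.card ≤ (PP P p).card + (D.card + 2) := by
    have e := card_filter_add_card_filter_not (s := P) (fun x => 0 < dist x p + (x - p).re)
    have e2 := few_ray h5 hP p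
    unfold PP
    omega
  have hrV : r ^ 2 ≤ ((PP P p).image (psi p)).card := by
    rw [hVc]
    have e3 : 1000 * D.card ≤ P.card := by
      rw [hf, hn] at c3
      exact_mod_cast c3
    have e4 : 1000 ≤ P.card := by
      have : (1000 : ℝ) ≤ n := by linarith
      rw [hn] at this
      exact_mod_cast this
    omega
  have hbig : C0 * ((r : ℝ) * Fintype.card {e // e ∈ QQ P D p} *
      Real.log ((Fintype.card {e // e ∈ QQ P D p} : ℝ) + 2) +
      (((PP P p).image (psi p)).card : ℝ)) ≤ (S : ℝ) := by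
    have e1 : (r : ℝ) * Fintype.card {e // e ∈ QQ P D p} *
        Real.log ((Fintype.card {e // e ∈ QQ P D p} : ℝ) + 2) ≤ r * (n * f) * (2 * L) := by
      refine mul_le_mul (mul_le_mul_of_nonneg_left hNR (by linarith)) hlog ?_ (by positivity)
      refine Real.log_nonneg ?_
      have : (0 : ℝ) ≤ (Fintype.card {e // e ∈ QQ P D p} : ℝ) := Nat.cast_nonneg _
      linarith
    have e2 : C0 * (r * (n * f) * (2 * L) + n) ≤ n ^ 2 / 2 := by
      have e3 : C0 * (r * (n * f) * (2 * L)) = 2 * n * (C0 * (r * f * L)) := by ring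
      rw [mul_add, e3]
      nlinarith
    calc C0 * ((r : ℝ) * Fintype.card {e // e ∈ QQ P D p} *
      Real.log ((Fintype.card {e // e ∈ QQ P D p} : ℝ) + 2) +
      (((PP P p).image (psi p)).card : ℝ)) ≤ C0 * (r * (n * f) * (2 * L) + n) :=
          mul_le_mul_of_nonneg_left (add_le_add e1 hV) hC0.le
      _ ≤ n ^ 2 / 2 := e2
      _ ≤ S := by linarith
  have hfin := hpairs {e // e ∈ QQ P D p} (FF P D p) (fam h4 P D p) ((PP P p).image (psi p))
    (II P D p) (fun i => image_subset_image (filter_subset _ _)) ?_ r hr hrV hbig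
  · have h7 := sum_le (r := r) h3 h6 a2N (by omega)
    have h8 : S ≤ 4 * (GG P r p).card := hfin.trans (Nat.mul_le_mul_left 4 h7)
    omega
  · intro i v hv
    obtain ⟨x, hx, rfl⟩ := mem_image.1 hv
    obtain ⟨hx1, -, hx2⟩ := mem_filter.1 hx
    refine h2 p i.1.1 x i.1.2 (mem_filter.1 hx1).2 (QQ_sq i.2) (Or.inl ?_)
    rw [dist_comm x, dist_comm x, ← hx2]
    ring

end Pool.Agent.NH60.TP
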