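import Pool.Agent.NH60.TP.Stm

/-!
Project TP, part H2F: a branch of a hyperbola contains at most `2 f` points.
-/

set_option autoImplicit false

namespace Pool.Agent.NH60.TP

open Finset
open scoped Classical

namespace H2F

lemma branch (P : Finset ℂ) (D : Finset ℝ) (hD : Per P D) (x y : ℂ) (a : ℝ) (hx : x ∈ P)
    (hy : y ∈ P) (hxy : x ≠ y) (ha : |a| < dist x y) : (hh P x y a).card ≤ 2 * D.card := by
  refine Finset.card_le_mul_card_image_of_maps_to
    (f := fun q => dist x y - a + 2 * dist q x) ?_ 2 ?_
  · intro q hq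
    unfold hh at hq
    rw [Finset.mem_filter] at hq
    obtain ⟨hqP, hqa⟩ := hq
    have ha' := abs_lt.1 ha
    have hqx : x ≠ q := by
      rintro rfl
      rw [dist_self] at hqa
      linarith [ha'.1]
    have hqy : y ≠ q := by
      rintro rfl
      rw [dist_self, dist_comm] at hqa
      linarith [ha'.2]
    have := hD x hx y hy q hqP hxy hqy hqx
    have e : dist x y + dist y q + dist q x = dist x y - a + 2 * dist q x := by
      rw [dist_comm y q]; linarith
    rw [e] at this
    exact this
  · intro b _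
    by_contra hlt
    push Not at hlt
    obtain ⟨u, hu, v, hv, w, hw, huv, huw, hvw⟩ := Finset.two_lt_card.1 hlt
    simp only [Finset.mem_filter, hh] at hu hv hw
    have := EuclideanGeometry.eq_of_dist_eq_of_dist_eq_of_finrank_eq_two
      (V := ℂ) (P := ℂ) Complex.finrank_real_complex (c₁ := x) (c₂ := y) (p₁ := u) (p₂ := v)
      (p := w) (r₁ := dist u x) (r₂ := dist u y) hxy huv rfl (by linarith [hu.2, hv.2])
      (by linarith [hu.2, hw.2]) rfl
      (by linarith [hu.2, hv.2, hu.1.2, hv.1.2])
      (by linarith [hu.2, hw.2, hu.1.2, hw.1.2])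
    rcases this with h | h
    · exact huw h.symm
    · exact hvw h.symm

end H2F

theorem h2f : S_H2F := by
  intro P D hD τ hτ
  unfold TT at hτ
  rw [Finset.mem_image] at hτ
  obtain ⟨e, he, rfl⟩ := hτ
  rw [Finset.mem_filter, Finset.mem_product, Finset.mem_product] at he
  obtain ⟨⟨h1, h2, h3⟩, h4, h5⟩ := he
  exact H2F.branch P D hD _ _ _ h1 h2 h4 h5

end Pool.Agent.NH60.TP
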