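import Pool.Agent.NH60.TP.Stm

/-!
# TP-HIT: a random sample hits all large sets of a family
-/

set_option autoImplicit false

namespace Pool.Agent.NH60.TP

open Finset
open scoped Classical

theorem hit : S_HIT := by
  intro ι _ _ F r ε h0 h1 hK hF
  by_contra hcon
  push Not at hcon
  have hN : (0 : ℝ) < Fintype.card ι := by exact_mod_cast Fintype.card_pos
  have hsub : (univ : Finset (Fin r → ι)) ⊆
      F.biUnion fun K => Fintype.piFinset fun _ : Fin r => (univ \ K : Finset ι) := by
    intro ω _
    obtain ⟨K, hKF, hω⟩ := hcon ω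
    rw [mem_biUnion]
    refine ⟨K, hKF, ?_⟩
    rw [Fintype.mem_piFinset]
    exact fun i => mem_sdiff.2 ⟨mem_univ _, hω i⟩
  have hcard := (card_le_card hsub).trans card_biUnion_le
  rw [card_univ, Fintype.card_fun, Fintype.card_fin] at hcard
  have hc : ∀ K ∈ F, ((Fintype.piFinset fun _ : Fin r => (univ \ K : Finset ι)).card : ℝ) ≤
      (1 - ε) ^ r * (Fintype.card ι : ℝ) ^ r := by
    intro K hKF
    rw [Fintype.card_piFinset_const]
    push_cast
    rw [← mul_pow]
    refine pow_le_pow_left₀ (Nat.cast_nonneg _) ?_ r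
    have h2 : ((univ \ K : Finset ι).card : ℝ) + K.card = Fintype.card ι := by
      have := card_sdiff_add_card_eq_card (subset_univ K)
      rw [card_univ] at this
      exact_mod_cast this
    have := hK K hKF
    linarith
  have hsum : (Fintype.card ι : ℝ) ^ r ≤ F.card * ((1 - ε) ^ r * (Fintype.card ι : ℝ) ^ r) := by
    have h3 : ((Fintype.card ι ^ r : ℕ) : ℝ) ≤
        ((∑ K ∈ F, (Fintype.piFinset fun _ : Fin r => (univ \ K : Finset ι)).card : ℕ) : ℝ) := by
      exact_mod_cast hcard
    push_cast at h3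
    refine h3.trans ((sum_le_sum (g := fun _ => (1 - ε) ^ r * (Fintype.card ι : ℝ) ^ r)
      fun K hKF => hc K hKF).trans (le_of_eq ?_))
    rw [sum_const, nsmul_eq_mul]
  have hp : (0 : ℝ) < (Fintype.card ι : ℝ) ^ r := by positivity
  nlinarith

end Pool.Agent.NH60.TP
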