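import Pool.Agent.NH60.TP.Stm

/-!
# TP-KST: the trivial incidence bound for curves with `s` degrees of freedom
-/

set_option autoImplicit false

namespace Pool.Agent.NH60.TP

open Finset
open scoped Classical

theorem kst : S_KST := by
  intro s A hs ι K W I hI hT
  obtain ⟨n, rfl⟩ : ∃ n, s = n + 1 := ⟨s - 1, by omega⟩
  have h1 : ∀ i ∈ K, ((I i).card - (n + 1 - 1)) ^ (n + 1) ≤
      (n + 1).factorial * ((I i).powersetCard (n + 1)).card := by
    intro i _
    rw [card_powersetCard, ← Nat.descFactorial_eq_factorial_mul_choose]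
    refine le_trans ?_ (Nat.pow_sub_le_descFactorial _ _)
    refine Nat.pow_le_pow_left ?_ _
    omega
  have h2 : ∑ i ∈ K, ((I i).powersetCard (n + 1)).card ≤ A * (W.powersetCard (n + 1)).card := by
    have e : ∀ i ∈ K, ((I i).powersetCard (n + 1)).card =
        ∑ T ∈ W.powersetCard (n + 1), if T ⊆ I i then 1 else 0 := by
      intro i hi
      rw [← card_filter]
      congr 1
      ext T
      rw [mem_powersetCard, mem_filter, mem_powersetCard]
      constructor
      · exact fun h => ⟨⟨h.1.trans (hI i hi), h.2⟩, h.1⟩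
      · exact fun h => ⟨h.2, h.1.2⟩
    rw [sum_congr rfl e, sum_comm]
    calc ∑ T ∈ W.powersetCard (n + 1), ∑ i ∈ K, (if T ⊆ I i then 1 else 0)
        = ∑ T ∈ W.powersetCard (n + 1), (K.filter fun i => T ⊆ I i).card := by
          refine sum_congr rfl fun T _ => ?_
          rw [card_filter]
      _ ≤ ∑ _T ∈ W.powersetCard (n + 1), A :=
          sum_le_sum fun T hTm => hT T (mem_powersetCard.1 hTm).2
      _ = A * (W.powersetCard (n + 1)).card := by rw [sum_const, smul_eq_mul, mul_comm]
  have h3 : (n + 1).factorial * (W.powersetCard (n + 1)).card ≤ W.card ^ (n + 1) := by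
    rw [card_powersetCard, ← Nat.descFactorial_eq_factorial_mul_choose]
    exact Nat.descFactorial_le_pow _ _
  have h4 : ∑ i ∈ K, ((I i).card - (n + 1 - 1)) ^ (n + 1) ≤ A * W.card ^ (n + 1) := by
    refine (sum_le_sum h1).trans ?_
    rw [← mul_sum]
    refine (Nat.mul_le_mul_left _ h2).trans ?_
    calc (n + 1).factorial * (A * (W.powersetCard (n + 1)).card)
        = A * ((n + 1).factorial * (W.powersetCard (n + 1)).card) := by ring
      _ ≤ _ := Nat.mul_le_mul_left _ h3
  have h5 : (∑ i ∈ K, ((I i).card - (n + 1 - 1))) ^ (n + 1) ≤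
      K.card ^ n * ∑ i ∈ K, ((I i).card - (n + 1 - 1)) ^ (n + 1) := by
    rcases K.eq_empty_or_nonempty with rfl | hne
    · simp
    · have h6 := pow_sum_div_card_le_sum_pow (s := K) (n := n)
        (f := fun i => (((I i).card - (n + 1 - 1) : ℕ) : ℝ)) (fun i _ => Nat.cast_nonneg _)
      have hc : (0 : ℝ) < (K.card : ℝ) ^ n := by
        have : 0 < K.card := card_pos.2 hne
        positivity
      rw [div_le_iff₀ hc] at h6
      have h7 : (((∑ i ∈ K, ((I i).card - (n + 1 - 1))) ^ (n + 1) : ℕ) : ℝ) ≤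
          ((K.card ^ n * ∑ i ∈ K, ((I i).card - (n + 1 - 1)) ^ (n + 1) : ℕ) : ℝ) := by
        rw [Nat.cast_pow, Nat.cast_sum, Nat.cast_mul, Nat.cast_sum, Nat.cast_pow]
        simp only [Nat.cast_pow]
        rw [mul_comm]
        exact h6
      exact_mod_cast h7
  refine h5.trans ?_
  rw [Nat.add_sub_cancel]
  rw [Nat.add_sub_cancel] at h4
  exact Nat.mul_le_mul_left _ h4

end Pool.Agent.NH60.TP
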