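import Pool.Agent.NH60.TP.Stm

/-!
Project TP, part LINE: few points on a line.
-/

set_option autoImplicit false

namespace Pool.Agent.NH60.TP

open Finset
open scoped Classical

namespace LINE

/-- the coordinate on the line -/
noncomputable def co (u v x : ℂ) : ℝ := (v - u).re * (x - u).re + (v - u).im * (x - u).im

lemma dist_mul {u v x y : ℂ}
    (hx : (v - u).re * (x - u).im - (v - u).im * (x - u).re = 0)
    (hy : (v - u).re * (y - u).im - (v - u).im * (y - u).re = 0) :
    dist x y * dist v u = |co u v x - co u v y| := by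
  have h1 : (dist x y * dist v u) ^ 2 = (co u v x - co u v y) ^ 2 := by
    rw [mul_pow, Complex.dist_eq, Complex.dist_eq, Complex.sq_norm, Complex.sq_norm,
      Complex.normSq_apply, Complex.normSq_apply]
    unfold co
    simp only [Complex.sub_re, Complex.sub_im] at *
    have h2 : (v.re - u.re) * (x.im - y.im) - (v.im - u.im) * (x.re - y.re) = 0 := by
      linear_combination hx - hy
    linear_combination ((v.re - u.re) * (x.im - y.im) - (v.im - u.im) * (x.re - y.re)) * h2
  rw [← abs_of_nonneg (mul_nonneg dist_nonneg dist_nonneg : 0 ≤ dist x y * dist v u)]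
  exact (sq_eq_sq_iff_abs_eq_abs _ _).1 h1

end LINE

open LINE

theorem line : S_LINE := by
  intro P D hD u v huv
  set Q := P.filter (fun x => (v - u).re * (x - u).im - (v - u).im * (x - u).re = 0) with hQ
  by_cases h2 : Q.card ≤ 2
  · omega
  push Not at h2
  have hN : 0 < dist v u := dist_pos.2 huv.symm
  have hm : ∀ x ∈ Q, x ∈ P ∧ (v - u).re * (x - u).im - (v - u).im * (x - u).re = 0 := fun x hx => by
    rw [hQ, mem_filter] at hx
    exact hx
  have hne : Q.Nonempty := card_pos.1 (by omega)
  obtain ⟨x0, hx0, h0⟩ := Q.exists_min_image (co u v) hne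
  have hc1 : (Q.erase x0).card = Q.card - 1 := card_erase_of_mem hx0
  have hne1 : (Q.erase x0).Nonempty := card_pos.1 (by omega)
  obtain ⟨x1, hx1, h1⟩ := (Q.erase x0).exists_min_image (co u v) hne1
  have hc2 : ((Q.erase x0).erase x1).card = (Q.erase x0).card - 1 := card_erase_of_mem hx1
  have hx1' := mem_of_mem_erase hx1
  have hx01 : x1 ≠ x0 := ne_of_mem_erase hx1
  have key : ∀ x ∈ (Q.erase x0).erase x1, (dist x0 x1 + dist x1 x + dist x x0) * dist v u =
      2 * (co u v x - co u v x0) := by
    intro x hx
    have hxa := mem_of_mem_erase hx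
    have hxb := mem_of_mem_erase hxa
    have e1 := dist_mul (hm x0 hx0).2 (hm x1 hx1').2
    have e2 := dist_mul (hm x1 hx1').2 (hm x hxb).2
    have e3 := dist_mul (hm x hxb).2 (hm x0 hx0).2
    have a1 := h0 x1 hx1'
    have a2 := h1 x hxa
    rw [abs_of_nonpos (by linarith)] at e1 e2
    rw [abs_of_nonneg (by linarith)] at e3
    linear_combination e1 + e2 + e3
  have hle : ((Q.erase x0).erase x1).card ≤ D.card := by
    refine card_le_card_of_injOn (fun x => dist x0 x1 + dist x1 x + dist x x0) ?_ ?_
    · intro x hx
      have hx := mem_coe.1 hx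
      have hxa := mem_of_mem_erase hx
      have hxb := mem_of_mem_erase hxa
      exact mem_coe.2 (hD x0 (hm x0 hx0).1 x1 (hm x1 hx1').1 x (hm x hxb).1 hx01.symm
        (ne_of_mem_erase hx).symm (ne_of_mem_erase hxa).symm)
    · intro x hx y hy hxy
      have hx := mem_coe.1 hx
      have hy := mem_coe.1 hy
      have k1 := key x hx
      have k2 := key y hy
      simp only at hxy
      rw [hxy] at k1
      have h3 : co u v x - co u v y = 0 := by linarith
      have h4 := dist_mul (hm x (mem_of_mem_erase (mem_of_mem_erase hx))).2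
        (hm y (mem_of_mem_erase (mem_of_mem_erase hy))).2
      rw [h3, abs_zero] at h4
      exact dist_eq_zero.1 ((mul_eq_zero.1 h4).resolve_right hN.ne')
  omega

end Pool.Agent.NH60.TP
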