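import Pool.Agent.NH60.TP.Stm

/-!
Project TP: no degenerate hyperbolas.
-/

set_option autoImplicit false

namespace Pool.Agent.NH60.TP

open Finset
open scoped Classical

lemma NDEG.aux {p q x y : ℂ} (hxy : x ≠ y) (h : dist p x + dist q x = dist p y + dist q y)
    (hpq : dist p q < dist p x + dist q x) : dist p x - dist p y < dist x y := by
  by_contra hc
  push Not at hc
  have t1 := dist_triangle p y x
  rw [dist_comm y x] at t1
  have e1 : dist p y + dist y x = dist p x := by rw [dist_comm y x]; linarith
  have e2 : dist q x + dist x y = dist q y := by linarith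
  have w1 : Wbtw ℝ p y x := dist_add_dist_eq_iff.1 e1
  have w2 : Wbtw ℝ y x q := (dist_add_dist_eq_iff.1 e2).symm
  have w3 : Wbtw ℝ p x q := w1.trans_expand_right w2 hxy.symm
  have e3 := w3.dist_add_dist
  rw [dist_comm x q] at e3
  linarith

theorem ndeg : S_NDEG := by
  intro p q x y hxy h hpq
  rw [abs_lt]
  have h1 := NDEG.aux hxy h hpq
  have h2 := NDEG.aux hxy.symm h.symm (by linarith)
  rw [dist_comm y x] at h2
  constructor <;> linarith

end Pool.Agent.NH60.TP
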