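import Pool.Agent.NH60.TP.Stm

/-!
Project TP, part NUM: the final numerical assembly (helper86).
-/

set_option autoImplicit false

namespace Pool.Agent.NH60.TP

open Finset
open scoped Classical

namespace NUM

/-- powers of logarithms against powers -/
lemma ev (A : ℝ) (hA : 0 < A) : ∃ n₀ : ℕ, 1 ≤ n₀ ∧ ∀ n : ℕ, n₀ ≤ n →
    A * Real.log ((n : ℝ) + 2) ^ 6 ≤ (n : ℝ) ^ ((1 : ℝ) / 7) := by
  have h1 := (isLittleO_log_rpow_atTop (show (0 : ℝ) < 1 / 42 by norm_num)).pow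
    (show 0 < 6 by norm_num)
  have h2 := h1.bound (show (0 : ℝ) < 1 / (3 * A) by positivity)
  obtain ⟨X, hX⟩ := Filter.eventually_atTop.1 h2
  refine ⟨⌈max X 1⌉₊ + 1, by omega, fun n hn => ?_⟩
  have hn1 : max X 1 ≤ (n : ℝ) := by
    have := Nat.le_ceil (max X 1)
    have h3 : ((⌈max X 1⌉₊ : ℕ) : ℝ) ≤ (n : ℝ) := by exact_mod_cast (by omega : ⌈max X 1⌉₊ ≤ n)
    linarith
  have hnX : X ≤ (n : ℝ) := le_trans (le_max_left _ _) hn1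
  have hn0 : (1 : ℝ) ≤ (n : ℝ) := le_trans (le_max_right _ _) hn1
  have h4 := hX ((n : ℝ) + 2) (by linarith)
  have hlog : 0 ≤ Real.log ((n : ℝ) + 2) := Real.log_nonneg (by linarith)
  rw [Real.norm_of_nonneg (by positivity), Real.norm_of_nonneg (by positivity)] at h4
  have h5 : (((n : ℝ) + 2) ^ ((1 : ℝ) / 42)) ^ 6 = ((n : ℝ) + 2) ^ ((1 : ℝ) / 7) := by
    rw [← Real.rpow_natCast, ← Real.rpow_mul (by linarith)]
    norm_num
  rw [h5] at h4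
  have h6 : ((n : ℝ) + 2) ^ ((1 : ℝ) / 7) ≤ 3 * (n : ℝ) ^ ((1 : ℝ) / 7) := by
    have h7 : ((n : ℝ) + 2) ^ ((1 : ℝ) / 7) ≤ (3 * (n : ℝ)) ^ ((1 : ℝ) / 7) :=
      Real.rpow_le_rpow (by linarith) (by linarith) (by norm_num)
    have h8 : (3 * (n : ℝ)) ^ ((1 : ℝ) / 7) = 3 ^ ((1 : ℝ) / 7) * (n : ℝ) ^ ((1 : ℝ) / 7) :=
      Real.mul_rpow (by norm_num) (by linarith)
    have h9 : (3 : ℝ) ^ ((1 : ℝ) / 7) ≤ 3 ^ (1 : ℝ) :=
      Real.rpow_le_rpow_of_exponent_le (by norm_num) (by norm_num)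
    rw [Real.rpow_one] at h9
    have h10 : 0 ≤ (n : ℝ) ^ ((1 : ℝ) / 7) := by positivity
    rw [h8] at h7
    nlinarith
  have h11 : A * Real.log ((n : ℝ) + 2) ^ 6 ≤ A * (1 / (3 * A) * (3 * (n : ℝ) ^ ((1 : ℝ) / 7))) := by
    refine mul_le_mul_of_nonneg_left ?_ hA.le
    refine le_trans h4 ?_
    exact mul_le_mul_of_nonneg_left h6 (by positivity)
  refine le_trans h11 (le_of_eq ?_)
  field_simp

lemma ta {C₂ M y L k : ℝ} (hC₂ : 1 ≤ C₂) (hM1 : 128 * C₂ ≤ M) (hy : 1 ≤ y) (hL : 1 ≤ L)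
    (hkM : M * y ^ 2 * L ^ 2 ≤ k) : C₂ * L ^ 8 * ((y ^ 7) ^ 5 / k ^ 7) ≤ y ^ 21 / 128 := by
  have hM0 : 1 ≤ M := by linarith
  have hk0 : 0 < k := lt_of_lt_of_le (by positivity) hkM
  have hk7 : 0 < k ^ 7 := by positivity
  have e1 : (M * y ^ 2 * L ^ 2) ^ 7 ≤ k ^ 7 := pow_le_pow_left₀ (by positivity) hkM 7
  have e2 : C₂ ≤ M ^ 7 / 128 := by
    have a1 : M ≤ M ^ 7 := le_self_pow₀ hM0 (by norm_num)
    linarith
  have e3 : L ^ 8 ≤ L ^ 14 := pow_le_pow_right₀ hL (by norm_num)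
  rw [← mul_div_assoc, div_le_iff₀ hk7]
  calc C₂ * L ^ 8 * (y ^ 7) ^ 5 ≤ (M ^ 7 / 128) * L ^ 14 * (y ^ 7) ^ 5 :=
        mul_le_mul_of_nonneg_right (mul_le_mul e2 e3 (by positivity) (by positivity))
          (by positivity)
    _ = y ^ 21 / 128 * (M * y ^ 2 * L ^ 2) ^ 7 := by ring
    _ ≤ y ^ 21 / 128 * k ^ 7 := mul_le_mul_of_nonneg_left e1 (by positivity)

lemma tb {C₂ M y L k : ℝ} (hC₂ : 1 ≤ C₂) (hM1 : 128 * C₂ ≤ M) (hy : 1 ≤ y) (hL : 1 ≤ L)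
    (hkM : M * y ^ 2 * L ^ 2 ≤ k) (hE : 128 * C₂ * L ^ 6 ≤ y) :
    C₂ * L ^ 8 * ((y ^ 7) ^ 3 / k) ≤ y ^ 21 / 128 := by
  have hM0 : 1 ≤ M := by linarith
  have hk0 : 0 < k := lt_of_lt_of_le (by positivity) hkM
  have e2 : C₂ * L ^ 6 ≤ M * y ^ 2 / 128 := by
    have a1 : y ≤ y ^ 2 := le_self_pow₀ hy (by norm_num)
    have a2 : 1 * y ^ 2 ≤ M * y ^ 2 := mul_le_mul_of_nonneg_right hM0 (by positivity)
    linarith
  rw [← mul_div_assoc, div_le_iff₀ hk0]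
  calc C₂ * L ^ 8 * (y ^ 7) ^ 3 = (C₂ * L ^ 6) * (L ^ 2 * y ^ 21) := by ring
    _ ≤ (M * y ^ 2 / 128) * (L ^ 2 * y ^ 21) := mul_le_mul_of_nonneg_right e2 (by positivity)
    _ = y ^ 21 / 128 * (M * y ^ 2 * L ^ 2) := by ring
    _ ≤ y ^ 21 / 128 * k := mul_le_mul_of_nonneg_left hkM (by positivity)

lemma tc {C₂ y L f : ℝ} (hC₂ : 1 ≤ C₂) (hy : 1 ≤ y) (hL : 1 ≤ L)
    (hE : 128 * C₂ * L ^ 6 ≤ y) (hf : f * L ^ 2 ≤ y ^ 6) (hf0 : 0 ≤ f) :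
    C₂ * L ^ 8 * ((y ^ 7) ^ 2 * f) ≤ y ^ 21 / 128 := by
  have e0 : C₂ * L ^ 6 ≤ y / 128 := by linarith
  calc C₂ * L ^ 8 * ((y ^ 7) ^ 2 * f) = (C₂ * L ^ 6) * y ^ 14 * (f * L ^ 2) := by ring
    _ ≤ (y / 128) * y ^ 14 * y ^ 6 :=
        mul_le_mul (mul_le_mul_of_nonneg_right e0 (by positivity)) hf (by positivity)
          (by positivity)
    _ = y ^ 21 / 128 := by ring

lemma terms {C₂ M y L k f : ℝ} (hC₂ : 1 ≤ C₂) (hM1 : 128 * C₂ ≤ M) (hy : 1 ≤ y) (hL : 1 ≤ L)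
    (hkM : M * y ^ 2 * L ^ 2 ≤ k) (hE : 128 * C₂ * L ^ 6 ≤ y) (hf : f * L ^ 2 ≤ y ^ 6)
    (hf0 : 0 ≤ f) :
    32 * (C₂ * L ^ 8 * ((y ^ 7) ^ 5 / k ^ 7 + (y ^ 7) ^ 3 / k + (y ^ 7) ^ 2 * f)) ≤
      3 / 4 * y ^ 21 := by
  have e1 := ta hC₂ hM1 hy hL hkM
  have e2 := tb hC₂ hM1 hy hL hkM hE
  have e3 := tc hC₂ hy hL hE hf hf0
  rw [mul_add (C₂ * L ^ 8), mul_add (C₂ * L ^ 8)]
  generalize C₂ * L ^ 8 * ((y ^ 7) ^ 5 / k ^ 7) = u at *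
  generalize C₂ * L ^ 8 * ((y ^ 7) ^ 3 / k) = v at *
  generalize C₂ * L ^ 8 * ((y ^ 7) ^ 2 * f) = w at *
  generalize y ^ 21 = z at *
  linarith

/-- the contradiction for large `n` -/
lemma core {C₁ C₂ : ℝ} (hC₁ : 1 ≤ C₁) (hC₂ : 1 ≤ C₂)
    (h1 : ∀ (P : Finset ℂ) (D : Finset ℝ), Per P D → 1 ≤ D.card →
      ∀ r : ℕ, 1 ≤ r → 4 * r ^ 2 ≤ P.card →
      C₁ * ((r : ℝ) * D.card * Real.log (P.card + 2)) ≤ P.card →
      ∀ p ∈ P, P.card ^ 2 ≤ 16 * (GG P r p).card) (h2 : S_EN)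
    (h3 : ∀ (P : Finset ℂ) (D : Finset ℝ), Per P D → ∀ k : ℕ,
      C₂ * Real.log (P.card + 2) ≤ k →
      ((∑ τ ∈ (TT P).filter (fun τ => k ≤ (hh P τ.1 τ.2.1 τ.2.2).card),
        (hh P τ.1 τ.2.1 τ.2.2).card ^ 2 : ℕ) : ℝ) ≤
        C₂ * Real.log (P.card + 2) ^ 8 * ((P.card : ℝ) ^ 5 / (k : ℝ) ^ 7 + (P.card : ℝ) ^ 3 / k +
          (P.card : ℝ) ^ 2 * D.card))
    (P : Finset ℂ) (D : Finset ℝ) (hP : Per P D) (hn : 3 ≤ P.card) (hD : 1 ≤ D.card) {y : ℝ}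
    (hy : 1 ≤ y) (hy7 : y ^ 7 = P.card)
    (hL : 1 ≤ Real.log ((P.card : ℝ) + 2))
    (hE1 : 128 * C₂ * Real.log ((P.card : ℝ) + 2) ^ 6 ≤ y)
    (hE2 : 4 * (91 * C₂) ^ 2 * Real.log ((P.card : ℝ) + 2) ^ 6 ≤ y) :
    1 / (91 * C₁ * C₂) * y ^ 6 ≤ D.card * Real.log ((P.card : ℝ) + 2) ^ 2 := by
  by_contra hcon
  push Not at hcon
  set L := Real.log ((P.card : ℝ) + 2) with hLdef
  set f : ℝ := (D.card : ℝ) with hf
  have hf1 : 1 ≤ f := by rw [hf]; exact_mod_cast hD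
  set K : ℝ := 91 * C₂ with hK
  have hK1 : 91 ≤ K := by rw [hK]; linarith
  have hy0 : 0 < y := by linarith
  have hL0 : 0 < L := by linarith
  -- the upper bound for `f`
  have hfL : C₁ * K * (f * L ^ 2) ≤ y ^ 6 := by
    have e1 : (1 / (91 * C₁ * C₂) * y ^ 6) * (C₁ * K) = y ^ 6 := by
      rw [hK]
      field_simp
    have e2 : (f * L ^ 2) * (C₁ * K) ≤ (1 / (91 * C₁ * C₂) * y ^ 6) * (C₁ * K) :=
      mul_le_mul_of_nonneg_right hcon.le (by positivity)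
    rw [e1] at e2
    linarith
  have hfL' : C₁ * (K * y * L * f * L) ≤ y ^ 7 := by
    have e3 : C₁ * K * (f * L ^ 2) * y ≤ y ^ 6 * y := mul_le_mul_of_nonneg_right hfL hy0.le
    calc C₁ * (K * y * L * f * L) = C₁ * K * (f * L ^ 2) * y := by ring
      _ ≤ y ^ 6 * y := e3
      _ = y ^ 7 := by ring
  have hρ1 : 1 ≤ K * y * L := by nlinarith [mul_le_mul hK1 hy (by norm_num) (by linarith)]
  set r : ℕ := ⌊K * y * L⌋₊ with hr
  have hr1 : 1 ≤ r := by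
    rw [hr, Nat.one_le_floor_iff]
    exact hρ1
  have hrle : (r : ℝ) ≤ K * y * L := Nat.floor_le (by linarith)
  have hrge : K * y * L / 2 ≤ (r : ℝ) := by
    have e1 := Nat.lt_floor_add_one (K * y * L)
    have e2 : (1 : ℝ) ≤ (r : ℝ) := by exact_mod_cast hr1
    have e3 : K * y * L < (r : ℝ) + 1 := e1
    linarith
  have hr0 : (0 : ℝ) ≤ (r : ℝ) := Nat.cast_nonneg _
  -- the hypotheses of FOC
  have hc1 : 4 * r ^ 2 ≤ P.card := by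
    have e1 : (4 : ℝ) * (r : ℝ) ^ 2 ≤ (P.card : ℝ) := by
      rw [← hy7]
      have e2 : (r : ℝ) ^ 2 ≤ (K * y * L) ^ 2 := pow_le_pow_left₀ hr0 hrle 2
      have e3 : L ^ 2 ≤ L ^ 6 := pow_le_pow_right₀ hL (by norm_num)
      have e4 : 4 * K ^ 2 * L ^ 2 ≤ y := by
        refine le_trans ?_ hE2
        exact mul_le_mul_of_nonneg_left e3 (by positivity)
      have e5 : y ^ 3 ≤ y ^ 7 := pow_le_pow_right₀ hy (by norm_num)
      calc 4 * (r : ℝ) ^ 2 ≤ 4 * (K * y * L) ^ 2 := by linarith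
        _ = (4 * K ^ 2 * L ^ 2) * y ^ 2 := by ring
        _ ≤ y * y ^ 2 := mul_le_mul_of_nonneg_right e4 (by positivity)
        _ = y ^ 3 := by ring
        _ ≤ y ^ 7 := e5
    exact_mod_cast e1
  have hc2 : C₁ * ((r : ℝ) * D.card * Real.log (P.card + 2)) ≤ P.card := by
    refine le_trans ?_ (hfL'.trans_eq hy7)
    refine mul_le_mul_of_nonneg_left ?_ (by linarith)
    change (r : ℝ) * f * L ≤ K * y * L * f * L
    refine mul_le_mul_of_nonneg_right ?_ hL0.le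
    exact mul_le_mul_of_nonneg_right hrle (by linarith)
  have hEN := h2 P r (h1 P D hP hD r hr1 hc1 hc2)
  -- the number `k`
  set k : ℕ := (r ^ 2 + 15) / 16 with hk
  have hk1 : ∀ h : ℕ, r ^ 2 ≤ 16 * h → k ≤ h := fun h hh => by
    rw [hk]
    omega
  have hk2 : r ^ 2 ≤ 16 * k := by
    rw [hk]
    omega
  have hsum : ∑ τ ∈ (TT P).filter (fun τ => r ^ 2 ≤ 16 * (hh P τ.1 τ.2.1 τ.2.2).card),
      (hh P τ.1 τ.2.1 τ.2.2).card ^ 2 ≤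
      ∑ τ ∈ (TT P).filter (fun τ => k ≤ (hh P τ.1 τ.2.1 τ.2.2).card),
      (hh P τ.1 τ.2.1 τ.2.2).card ^ 2 := by
    refine Finset.sum_le_sum_of_subset_of_nonneg ?_ (fun _ _ _ => Nat.zero_le _)
    intro τ hτ
    rw [Finset.mem_filter] at hτ ⊢
    exact ⟨hτ.1, hk1 _ hτ.2⟩
  set M : ℝ := K ^ 2 / 64 with hM
  have hM1 : 128 * C₂ ≤ M := by
    rw [hM, hK]
    nlinarith
  have hM0 : 1 ≤ M := by linarith
  have hkM : M * y ^ 2 * L ^ 2 ≤ (k : ℝ) := by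
    have e1 : ((r : ℝ)) ^ 2 ≤ 16 * (k : ℝ) := by exact_mod_cast hk2
    have e2 : (K * y * L / 2) ^ 2 ≤ (r : ℝ) ^ 2 := pow_le_pow_left₀ (by positivity) hrge 2
    have e3 : (K * y * L / 2) ^ 2 = 16 * (M * y ^ 2 * L ^ 2) := by
      rw [hM]
      ring
    rw [e3] at e2
    linarith
  have hk0 : (0 : ℝ) < (k : ℝ) := lt_of_lt_of_le (by positivity) hkM
  have hkL : C₂ * Real.log (P.card + 2) ≤ k := by
    refine le_trans ?_ hkM
    change C₂ * L ≤ M * y ^ 2 * L ^ 2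
    have e1 : C₂ * L ≤ M * L := mul_le_mul_of_nonneg_right (by linarith) hL0.le
    have e2 : M * L ≤ M * y ^ 2 * L ^ 2 := by
      have e3 : 1 ≤ y ^ 2 * L := by nlinarith [pow_le_pow_right₀ hy (show 1 ≤ 2 by norm_num)]
      calc M * L = M * L * 1 := by ring
        _ ≤ M * L * (y ^ 2 * L) := mul_le_mul_of_nonneg_left e3 (by positivity)
        _ = M * y ^ 2 * L ^ 2 := by ring
    linarith
  have hS := h3 P D hP k hkL
  have hmain : ((P.card : ℝ)) ^ 3 ≤ 32 * (C₂ * L ^ 8 * ((P.card : ℝ) ^ 5 / (k : ℝ) ^ 7 +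
      (P.card : ℝ) ^ 3 / k + (P.card : ℝ) ^ 2 * f)) := by
    have e1 : ((P.card ^ 3 : ℕ) : ℝ) ≤ ((32 * ∑ τ ∈ (TT P).filter (fun τ =>
        k ≤ (hh P τ.1 τ.2.1 τ.2.2).card), (hh P τ.1 τ.2.1 τ.2.2).card ^ 2 : ℕ) : ℝ) := by
      exact_mod_cast le_trans hEN (Nat.mul_le_mul_left 32 hsum)
    rw [Nat.cast_mul] at e1
    rw [Nat.cast_pow] at e1
    refine le_trans e1 ?_
    push_cast at hS ⊢
    linarith
  -- the three terms
  have hfL2 : f * L ^ 2 ≤ y ^ 6 := by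
    refine le_trans ?_ hfL
    have a1 : 1 ≤ C₁ * K := by nlinarith
    have a2 : 0 ≤ f * L ^ 2 := by positivity
    nlinarith
  rw [← hy7] at hmain
  have ht := terms hC₂ hM1 hy hL hkM hE1 hfL2 (by linarith : (0 : ℝ) ≤ f)
  have hfin : (y ^ 7) ^ 3 = y ^ 21 := by ring
  have hy21 : 0 < y ^ 21 := by positivity
  have hbad : y ^ 21 ≤ 3 / 4 * y ^ 21 := hfin.symm.trans_le (le_trans hmain ht)
  clear hmain ht
  linarith

end NUM

open NUM in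
theorem num (h1 : S_FOC) (h2 : S_EN) (h3 : S_SUM) : S_FIN := by
  obtain ⟨C₁', hC₁', h1⟩ := h1
  obtain ⟨C₂', hC₂', h3⟩ := h3
  set C₁ := max C₁' 1 with hC₁
  set C₂ := max C₂' 1 with hC₂
  have hC₁1 : 1 ≤ C₁ := le_max_right _ _
  have hC₂1 : 1 ≤ C₂ := le_max_right _ _
  have g1 : ∀ (P : Finset ℂ) (D : Finset ℝ), Per P D → 1 ≤ D.card →
      ∀ r : ℕ, 1 ≤ r → 4 * r ^ 2 ≤ P.card →
      C₁ * ((r : ℝ) * D.card * Real.log (P.card + 2)) ≤ P.card →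
      ∀ p ∈ P, P.card ^ 2 ≤ 16 * (GG P r p).card := by
    intro P D hP hD r hr hr2 hle
    refine h1 P D hP hD r hr hr2 (le_trans ?_ hle)
    have hlog : 0 ≤ Real.log ((P.card : ℝ) + 2) := Real.log_nonneg (by
      have : (0 : ℝ) ≤ (P.card : ℝ) := Nat.cast_nonneg _
      linarith)
    exact mul_le_mul_of_nonneg_right (le_max_left _ _) (by positivity)
  have g3 : ∀ (P : Finset ℂ) (D : Finset ℝ), Per P D → ∀ k : ℕ,
      C₂ * Real.log (P.card + 2) ≤ k →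
      ((∑ τ ∈ (TT P).filter (fun τ => k ≤ (hh P τ.1 τ.2.1 τ.2.2).card),
        (hh P τ.1 τ.2.1 τ.2.2).card ^ 2 : ℕ) : ℝ) ≤
        C₂ * Real.log (P.card + 2) ^ 8 * ((P.card : ℝ) ^ 5 / (k : ℝ) ^ 7 + (P.card : ℝ) ^ 3 / k +
          (P.card : ℝ) ^ 2 * D.card) := by
    intro P D hP k hk
    have hlog : 0 ≤ Real.log ((P.card : ℝ) + 2) := Real.log_nonneg (by
      have : (0 : ℝ) ≤ (P.card : ℝ) := Nat.cast_nonneg _
      linarith)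
    refine le_trans (h3 P D hP k (le_trans (mul_le_mul_of_nonneg_right (le_max_left _ _) hlog)
      hk)) ?_
    refine mul_le_mul_of_nonneg_right ?_ (by positivity)
    exact mul_le_mul_of_nonneg_right (le_max_left _ _) (by positivity)
  obtain ⟨n₀, hn₀, hev⟩ := ev (128 * C₂ + 4 * (91 * C₂) ^ 2) (by positivity)
  set c₀ : ℝ := 1 / (91 * C₁ * C₂) with hc₀
  have hc₀pos : 0 < c₀ := by positivity
  have hn₀pos : (0 : ℝ) < (n₀ : ℝ) := by exact_mod_cast hn₀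
  refine ⟨min (c₀ / 4) (((n₀ : ℝ) ^ ((6 : ℝ) / 7))⁻¹), by positivity, ?_⟩
  intro P D hP hn
  have hD : 1 ≤ D.card := by
    obtain ⟨a, ha, b, hb, c, hc, hab, hac, hbc⟩ := Finset.two_lt_card.1 (by omega : 2 < P.card)
    exact Finset.card_pos.2 ⟨_, hP a ha b hb c hc hab hbc hac⟩
  have hD1 : (1 : ℝ) ≤ (D.card : ℝ) := by exact_mod_cast hD
  have hn3 : (3 : ℝ) ≤ (P.card : ℝ) := by exact_mod_cast hn
  have hlog1 : 1 ≤ Real.log (P.card : ℝ) := by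
    rw [Real.le_log_iff_exp_le (by linarith)]
    have := Real.exp_one_lt_d9
    linarith
  have hpow0 : (0 : ℝ) ≤ (P.card : ℝ) ^ ((6 : ℝ) / 7) := by positivity
  rcases lt_or_ge P.card n₀ with hlt | hge
  · have e1 : (P.card : ℝ) ^ ((6 : ℝ) / 7) ≤ (n₀ : ℝ) ^ ((6 : ℝ) / 7) :=
      Real.rpow_le_rpow (by linarith) (by exact_mod_cast hlt.le) (by norm_num)
    have e2 : 0 < (n₀ : ℝ) ^ ((6 : ℝ) / 7) := by positivity
    calc min (c₀ / 4) (((n₀ : ℝ) ^ ((6 : ℝ) / 7))⁻¹) * (P.card : ℝ) ^ ((6 : ℝ) / 7)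
        ≤ ((n₀ : ℝ) ^ ((6 : ℝ) / 7))⁻¹ * (n₀ : ℝ) ^ ((6 : ℝ) / 7) :=
          mul_le_mul (min_le_right _ _) e1 hpow0 (by positivity)
      _ = 1 := inv_mul_cancel₀ e2.ne'
      _ ≤ D.card * Real.log P.card ^ 2 := by
          have := one_le_pow₀ (n := 2) hlog1
          nlinarith
  · set y : ℝ := (P.card : ℝ) ^ ((1 : ℝ) / 7) with hy
    have hy1 : 1 ≤ y := Real.one_le_rpow (by linarith) (by norm_num)
    have hy7 : y ^ 7 = P.card := by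
      rw [hy, ← Real.rpow_natCast, ← Real.rpow_mul (by linarith)]
      norm_num
    have hy6 : (P.card : ℝ) ^ ((6 : ℝ) / 7) = y ^ 6 := by
      rw [hy, ← Real.rpow_natCast, ← Real.rpow_mul (by linarith)]
      norm_num
    have hL : 1 ≤ Real.log ((P.card : ℝ) + 2) :=
      le_trans hlog1 (Real.log_le_log (by linarith) (by linarith))
    have hL2 : Real.log ((P.card : ℝ) + 2) ≤ 2 * Real.log (P.card : ℝ) := by
      have e1 : (P.card : ℝ) + 2 ≤ (P.card : ℝ) ^ 2 := by nlinarith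
      have e2 := Real.log_le_log (by linarith) e1
      rwa [Real.log_pow, Nat.cast_ofNat] at e2
    have hE := hev P.card hge
    rw [add_mul] at hE
    have hL6 : 0 ≤ Real.log ((P.card : ℝ) + 2) ^ 6 := by positivity
    have p1 : 0 ≤ 128 * C₂ * Real.log ((P.card : ℝ) + 2) ^ 6 := by positivity
    have p2 : 0 ≤ 4 * (91 * C₂) ^ 2 * Real.log ((P.card : ℝ) + 2) ^ 6 := by positivity
    have hmain := core hC₁1 hC₂1 g1 h2 g3 P D hP hn hD hy1 hy7 hL (by linarith) (by linarith)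
    rw [hy6]
    have e3 : Real.log ((P.card : ℝ) + 2) ^ 2 ≤ (2 * Real.log (P.card : ℝ)) ^ 2 :=
      pow_le_pow_left₀ (by linarith) hL2 2
    have e4 : (D.card : ℝ) * Real.log ((P.card : ℝ) + 2) ^ 2 ≤
        D.card * (2 * Real.log (P.card : ℝ)) ^ 2 := mul_le_mul_of_nonneg_left e3 (by linarith)
    have e5 : min (c₀ / 4) (((n₀ : ℝ) ^ ((6 : ℝ) / 7))⁻¹) * y ^ 6 ≤ c₀ / 4 * y ^ 6 :=
      mul_le_mul_of_nonneg_right (min_le_left _ _) (by positivity)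
    have e6 : (D.card : ℝ) * (2 * Real.log (P.card : ℝ)) ^ 2 =
        4 * (D.card * Real.log (P.card : ℝ) ^ 2) := by ring
    rw [e6] at e4
    linarith

end Pool.Agent.NH60.TP
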