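import Pool.Agent.NH60.TP.Stm

/-!
Project TP, part PAIRS: most pairs on common curves are on many common curves.
-/

set_option autoImplicit false

namespace Pool.Agent.NH60.TP

open Finset
open scoped Classical

namespace PAIRS

/-- split a finite set into pieces of at most `m` elements -/
lemma split {α : Type} (W : Finset α) (m : ℕ) (hm : 1 ≤ m) :
    ∃ g : α → ℕ, (∀ j, (W.filter (fun v => g v = j)).card ≤ m) ∧
      ∀ v ∈ W, g v < W.card / m + 1 := by
  classical
  refine ⟨fun v => if h : v ∈ W then (W.equivFin ⟨v, h⟩ : ℕ) / m else 0, ?_, ?_⟩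
  · intro j
    have hmaps : ∀ v ∈ W.filter (fun v => (if h : v ∈ W then (W.equivFin ⟨v, h⟩ : ℕ) / m else 0)
        = j), (if h : v ∈ W then (W.equivFin ⟨v, h⟩ : ℕ) else 0) ∈
          Finset.Ico (j * m) (j * m + m) := by
      intro v hv
      rw [Finset.mem_filter] at hv
      obtain ⟨hv, hj⟩ := hv
      rw [dif_pos hv] at hj
      rw [dif_pos hv, Finset.mem_Ico]
      subst hj
      constructor
      · exact Nat.div_mul_le_self _ _
      · have := Nat.lt_div_mul_add (a := (W.equivFin ⟨v, hv⟩ : ℕ)) (b := m) (by omega)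
        omega
    have hinj : Set.InjOn (fun v => if h : v ∈ W then (W.equivFin ⟨v, h⟩ : ℕ) else 0)
        (W.filter (fun v => (if h : v ∈ W then (W.equivFin ⟨v, h⟩ : ℕ) / m else 0) = j)) := by
      intro v hv v' hv' h
      rw [Finset.mem_coe, Finset.mem_filter] at hv hv'
      dsimp only at h
      rw [dif_pos hv.1, dif_pos hv'.1] at h
      have := W.equivFin.injective (Fin.ext h)
      exact congrArg Subtype.val this
    have := Finset.card_le_card_of_injOn _ hmaps hinj
    rwa [Nat.card_Ico, Nat.add_sub_cancel_left] at this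
  · intro v hv
    dsimp only
    rw [dif_pos hv]
    have h1 : (W.equivFin ⟨v, hv⟩ : ℕ) < W.card := (W.equivFin ⟨v, hv⟩).2
    have := Nat.div_le_div_right (c := m) h1.le
    omega

/-- labels of the pieces -/
structure Pc (κ : Type) where
  /-- class -/
  c : κ
  /-- number of the piece in the class -/
  j : ℕ

/-- refine the classes to pieces of at most `m` elements -/
lemma pieces {α : Type} {κ : Type} (V : Finset α) (cl : α → κ) (m : ℕ) (hm : 1 ≤ m) :
    ∃ (κ' : Type) (q : α → κ') (p : κ' → κ), (∀ v, p (q v) = cl v) ∧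
      (∀ π, (V.filter (fun v => q v = π)).card ≤ m) ∧
      (V.image q).card * m ≤ V.card + (V.image cl).card * m := by
  choose g hg1 hg2 using fun c : κ => split (V.filter (fun v => cl v = c)) m hm
  refine ⟨Pc κ, fun v => ⟨cl v, g (cl v) v⟩, Pc.c, fun v => rfl, ?_, ?_⟩
  · rintro ⟨c, j⟩
    refine le_trans (Finset.card_le_card ?_) (hg1 c j)
    intro v hv
    rw [Finset.mem_filter] at hv
    obtain ⟨hv, h⟩ := hv
    have h1 : cl v = c := congrArg Pc.c h
    have h2 : g (cl v) v = j := congrArg Pc.j h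
    rw [h1] at h2
    rw [Finset.mem_filter, Finset.mem_filter]
    exact ⟨⟨hv, h1⟩, h2⟩
  · have hsub : V.image (fun v => (⟨cl v, g (cl v) v⟩ : Pc κ)) ⊆
        (V.image cl).biUnion (fun c =>
          (range ((V.filter (fun v => cl v = c)).card / m + 1)).image
            (fun j => (⟨c, j⟩ : Pc κ))) := by
      intro x hx
      rw [Finset.mem_image] at hx
      obtain ⟨v, hv, rfl⟩ := hx
      rw [Finset.mem_biUnion]
      refine ⟨cl v, Finset.mem_image_of_mem _ hv, ?_⟩
      rw [Finset.mem_image]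
      refine ⟨g (cl v) v, ?_, rfl⟩
      rw [Finset.mem_range]
      exact hg2 (cl v) v (Finset.mem_filter.2 ⟨hv, rfl⟩)
    have hc : (V.image (fun v => (⟨cl v, g (cl v) v⟩ : Pc κ))).card ≤
        ∑ c ∈ V.image cl, ((V.filter (fun v => cl v = c)).card / m + 1) := by
      refine le_trans (Finset.card_le_card hsub) (le_trans Finset.card_biUnion_le ?_)
      refine Finset.sum_le_sum fun c _ => ?_
      refine le_trans Finset.card_image_le ?_
      rw [Finset.card_range]
    calc (V.image (fun v => (⟨cl v, g (cl v) v⟩ : Pc κ))).card * m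
        ≤ (∑ c ∈ V.image cl, ((V.filter (fun v => cl v = c)).card / m + 1)) * m :=
          Nat.mul_le_mul_right _ hc
      _ = ∑ c ∈ V.image cl, ((V.filter (fun v => cl v = c)).card / m + 1) * m := by
          rw [Finset.sum_mul]
      _ ≤ ∑ c ∈ V.image cl, ((V.filter (fun v => cl v = c)).card + m) := by
          refine Finset.sum_le_sum fun c _ => ?_
          rw [add_mul, one_mul]
          exact Nat.add_le_add_right (Nat.div_mul_le_self _ _) _
      _ = V.card + (V.image cl).card * m := by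
          rw [Finset.sum_add_distrib, ← Finset.card_eq_sum_card_image, Finset.sum_const,
            smul_eq_mul]

variable {ι : Type} [Fintype ι]

/-- the points of `I i` in the piece `π` -/
noncomputable def fib {κ : Type} (I : ι → Finset (ℝ × ℝ)) (q : ℝ × ℝ → κ) (π : κ) (i : ι) :
    Finset (ℝ × ℝ) := (I i).filter (fun v => q v = π)

/-- the sum of all incidences in the chosen classes -/
lemma sum_fib {κ : Type} (V : Finset (ℝ × ℝ)) (I : ι → Finset (ℝ × ℝ)) (hI : ∀ i, I i ⊆ V)
    (q : ℝ × ℝ → κ) (K : κ → Finset ι) :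
    ∑ x ∈ (V.image q).sigma (fun π => K π), (fib I q x.1 x.2).card =
      ∑ i, ((I i).filter (fun v => i ∈ K (q v))).card := by
  rw [Finset.sum_sigma]
  have h1 : ∀ π ∈ V.image q, ∑ i ∈ K π, (fib I q π i).card =
      ∑ i, (((I i).filter (fun v => i ∈ K (q v))).filter (fun v => q v = π)).card := by
    intro π _
    rw [← Finset.sum_subset (Finset.subset_univ (K π))]
    · refine Finset.sum_congr rfl fun i hi => ?_
      congr 1
      ext v
      simp only [fib, Finset.mem_filter]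
      constructor
      · rintro ⟨hv, h⟩
        exact ⟨⟨hv, by rw [h]; exact hi⟩, h⟩
      · rintro ⟨⟨hv, _⟩, h⟩
        exact ⟨hv, h⟩
    · intro i _ hi
      rw [Finset.card_eq_zero, Finset.filter_eq_empty_iff]
      intro v hv h
      rw [Finset.mem_filter, h] at hv
      exact hi hv.2
  rw [Finset.sum_congr rfl h1, Finset.sum_comm]
  refine Finset.sum_congr rfl fun i _ => ?_
  refine (Finset.card_eq_sum_card_fiberwise ?_).symm
  intro v hv
  rw [Finset.mem_coe, Finset.mem_filter] at hv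
  exact Finset.mem_coe.2 (Finset.mem_image_of_mem _ (hI i hv.1))

/-- the incidences in the chosen classes and the others -/
lemma incid {κ : Type} (f : ι → ℝ → ℝ) (V : Finset (ℝ × ℝ)) (I : ι → Finset (ℝ × ℝ))
    (hI : ∀ i, I i ⊆ V) (hf : ∀ i, ∀ v ∈ I i, f i v.1 = v.2) (cl : ℝ × ℝ → κ)
    (K : κ → Finset ι) :
    ∑ i, (I i).card ≤ ∑ i, ((I i).filter (fun v => i ∈ K (cl v))).card +
      ∑ v ∈ V, (univ.filter (fun i => f i v.1 = v.2 ∧ i ∉ K (cl v))).card := by
  classical
  have h1 : ∀ i : ι, (I i).card = ((I i).filter (fun v => i ∈ K (cl v))).card +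
      ((I i).filter (fun v => ¬ i ∈ K (cl v))).card := fun i =>
    (Finset.card_filter_add_card_filter_not _).symm
  rw [Finset.sum_congr rfl fun i _ => h1 i, Finset.sum_add_distrib]
  refine Nat.add_le_add_left ?_ _
  have h2 : ∀ i : ι, ((I i).filter (fun v => ¬ i ∈ K (cl v))).card ≤
      (V.filter (fun v => f i v.1 = v.2 ∧ i ∉ K (cl v))).card := by
    intro i
    refine Finset.card_le_card fun v hv => ?_
    rw [Finset.mem_filter] at hv ⊢
    exact ⟨hI i hv.1, hf i v hv.1, hv.2⟩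
  refine le_trans (Finset.sum_le_sum fun i _ => h2 i) (le_of_eq ?_)
  simp only [Finset.card_filter]
  exact Finset.sum_comm

/-- the pairs in a common piece -/
noncomputable def EE {κ : Type} (V : Finset (ℝ × ℝ)) (q : ℝ × ℝ → κ) :
    Finset ((ℝ × ℝ) × (ℝ × ℝ)) :=
  (V ×ˢ V).filter (fun e => e.1 ≠ e.2 ∧ q e.1 = q e.2)

lemma card_EE {κ : Type} (V : Finset (ℝ × ℝ)) (q : ℝ × ℝ → κ) (m : ℕ)
    (hq : ∀ π, (V.filter (fun v => q v = π)).card ≤ m) : (EE V q).card ≤ V.card * m := by
  classical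
  have hsub : EE V q ⊆ V.biUnion (fun v => (V.filter (fun w => q w = q v)).image
      (fun w => (v, w))) := by
    rintro ⟨v, w⟩ h
    rw [EE, Finset.mem_filter, Finset.mem_product] at h
    rw [Finset.mem_biUnion]
    refine ⟨v, h.1.1, ?_⟩
    rw [Finset.mem_image]
    exact ⟨w, Finset.mem_filter.2 ⟨h.1.2, h.2.2.symm⟩, rfl⟩
  calc (EE V q).card ≤ ∑ v ∈ V, ((V.filter (fun w => q w = q v)).image (fun w => (v, w))).card :=
        le_trans (Finset.card_le_card hsub) Finset.card_biUnion_le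
    _ ≤ ∑ _v ∈ V, m := Finset.sum_le_sum fun v _ => le_trans Finset.card_image_le (hq _)
    _ = V.card * m := by rw [Finset.sum_const, smul_eq_mul]

/-- counting triples -/
lemma triples {κ : Type} (V : Finset (ℝ × ℝ)) (I : ι → Finset (ℝ × ℝ)) (hI : ∀ i, I i ⊆ V)
    (q : ℝ × ℝ → κ) (K : κ → Finset ι) :
    ∑ x ∈ (V.image q).sigma (fun π => K π),
      ((fib I q x.1 x.2).card * (fib I q x.1 x.2).card - (fib I q x.1 x.2).card) ≤
      ∑ e ∈ EE V q, mu I e := by
  have h1 : ∀ x : (Σ _ : κ, ι), (fib I q x.1 x.2).card * (fib I q x.1 x.2).card -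
      (fib I q x.1 x.2).card = ((fib I q x.1 x.2).offDiag).card := fun x => by
    rw [Finset.offDiag_card]
  rw [Finset.sum_congr rfl fun x _ => h1 x, Finset.sum_sigma]
  calc ∑ π ∈ V.image q, ∑ i ∈ K π, ((fib I q π i).offDiag).card
      ≤ ∑ π ∈ V.image q, ∑ i, ((fib I q π i).offDiag).card :=
        Finset.sum_le_sum fun π _ => Finset.sum_le_sum_of_subset (Finset.subset_univ _)
    _ = ∑ i, ∑ π ∈ V.image q, ((fib I q π i).offDiag).card := Finset.sum_comm
    _ ≤ ∑ i, ((EE V q).filter (fun e => e.1 ∈ I i ∧ e.2 ∈ I i)).card := by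
        refine Finset.sum_le_sum fun i _ => ?_
        have hm : Set.MapsTo (fun e : (ℝ × ℝ) × (ℝ × ℝ) => q e.1)
            ((EE V q).filter (fun e => e.1 ∈ I i ∧ e.2 ∈ I i)) (V.image q) := by
          intro e he
          rw [Finset.mem_coe, Finset.mem_filter] at he
          exact Finset.mem_coe.2 (Finset.mem_image_of_mem _ (hI i he.2.1))
        rw [Finset.card_eq_sum_card_fiberwise hm]
        refine Finset.sum_le_sum fun π _ => Finset.card_le_card ?_
        intro e he
        rw [Finset.mem_offDiag, fib, Finset.mem_filter, Finset.mem_filter] at he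
        obtain ⟨⟨h1, h2⟩, ⟨h3, h4⟩, h5⟩ := he
        rw [Finset.mem_filter, Finset.mem_filter, EE, Finset.mem_filter, Finset.mem_product]
        exact ⟨⟨⟨⟨hI i h1, hI i h3⟩, h5, h2.trans h4.symm⟩, h1, h3⟩, h2⟩
    _ = ∑ e ∈ EE V q, mu I e := by
        simp only [Finset.card_filter, mu]
        exact Finset.sum_comm

/-- the numerical core -/
lemma core (Itot J S A T : ℝ) (hJ : 7 / 8 * Itot ≤ J)
    (hA : 4 * A ≤ Itot) (hI : 0 < Itot) (hS : 0 ≤ S) (hCS : J ^ 2 ≤ A * S) (hT : S - J ≤ T) :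
    Itot ≤ T := by
  have h1 : 4 * J ^ 2 ≤ Itot * S := by nlinarith
  have h2 : 7 / 2 * J ≤ S := by
    have h4 : Itot * (7 / 2 * J) ≤ Itot * S := by nlinarith
    exact le_of_mul_le_mul_left h4 hI
  linarith

end PAIRS

open PAIRS in
/-- most pairs on common curves are on many common curves -/
theorem pairs (hcut : S_CUT) : S_PAIRS := by
  intro B
  set c0 : ℝ := 7 + 2 * Real.log (B + 1) with hc0
  have hlogB : 0 ≤ Real.log (B + 1) := Real.log_nonneg (by
    have : (0 : ℝ) ≤ B := Nat.cast_nonneg _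
    linarith)
  have hc0pos : 0 < c0 := by rw [hc0]; linarith
  have hBr : (0 : ℝ) ≤ B := Nat.cast_nonneg _
  refine ⟨8 * B + 16 + 4 * (2 * B + 3) * c0, by positivity, ?_⟩
  intro ι _ _ f hF V I hI hf r hr hrV hC
  obtain ⟨κ, cl, K, h1, h2, h3⟩ := hcut ι f B hF V r hr
  set N : ℕ := Fintype.card ι with hN
  set n : ℕ := V.card with hn
  set Itot : ℕ := ∑ i, (I i).card with hItot
  have hN1 : 1 ≤ N := Fintype.card_pos
  have hNr : (1 : ℝ) ≤ N := by exact_mod_cast hN1
  have hrr : (1 : ℝ) ≤ r := by exact_mod_cast hr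
  have hn1 : 1 ≤ n := le_trans (Nat.one_le_pow _ _ hr) hrV
  have hnr : (1 : ℝ) ≤ n := by exact_mod_cast hn1
  set L : ℝ := Real.log (N + 2) with hL
  have hL1 : 1 ≤ L := by
    rw [hL, ← Real.log_exp 1]
    refine Real.log_le_log (Real.exp_pos 1) ?_
    have := Real.exp_one_lt_d9
    linarith
  have hlam : lam B N ≤ c0 * L := by
    have h4 : Real.log (N + 1) ≤ L := Real.log_le_log (by linarith) (by linarith)
    rw [lam, hc0]
    nlinarith
  have hlampos : 0 ≤ lam B N := by
    rw [lam]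
    have := Real.log_nonneg (by linarith : (1 : ℝ) ≤ (N : ℝ) + 1)
    positivity
  -- consequences of the hypothesis
  have hrN : (0 : ℝ) < (r : ℝ) * N := by positivity
  have hC' : (8 * B + 16) * ((r : ℝ) * N * L + n) + 4 * (2 * B + 3) * c0 * ((r : ℝ) * N * L + n) ≤
      Itot := by
    refine le_trans (le_of_eq ?_) hC
    ring
  have hrNL : (r : ℝ) * N ≤ (r : ℝ) * N * L := le_mul_of_one_le_right hrN.le hL1
  have hpos1 : 0 ≤ 4 * (2 * (B : ℝ) + 3) * c0 * ((r : ℝ) * N * L + n) := by positivity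
  have hpos2 : 0 ≤ (8 * (B : ℝ) + 16) * ((r : ℝ) * N * L + n) := by positivity
  have ha : B * ((r : ℝ) * N) + 2 * n ≤ Itot / 8 := by
    have : (8 * (B : ℝ) + 16) * ((r : ℝ) * N + n) ≤ (8 * B + 16) * ((r : ℝ) * N * L + n) := by
      refine mul_le_mul_of_nonneg_left ?_ (by positivity)
      linarith
    nlinarith [mul_nonneg hBr (by positivity : (0 : ℝ) ≤ n)]
  have hb : 4 * ((2 * B + 3) * r * N * lam B N) ≤ Itot := by
    have h4 : 4 * ((2 * (B : ℝ) + 3) * r * N * lam B N) ≤
        4 * ((2 * B + 3) * r * N * (c0 * L)) := by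
      refine mul_le_mul_of_nonneg_left ?_ (by norm_num)
      exact mul_le_mul_of_nonneg_left hlam (by positivity)
    have h5 : 4 * ((2 * (B : ℝ) + 3) * r * N * (c0 * L)) ≤
        4 * (2 * B + 3) * c0 * ((r : ℝ) * N * L + n) := by
      have : 4 * (2 * (B : ℝ) + 3) * c0 * ((r : ℝ) * N * L + n) =
        4 * ((2 * (B : ℝ) + 3) * r * N * (c0 * L)) + 4 * (2 * B + 3) * c0 * n := by ring
      rw [this]
      have : 0 ≤ 4 * (2 * (B : ℝ) + 3) * c0 * n := by positivity
      linarith
    linarith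
  have hItotpos : (0 : ℝ) < Itot := by
    have : 0 < B * ((r : ℝ) * N) + 2 * n := by positivity
    linarith
  -- the pieces
  set m : ℕ := n / r ^ 2 + 1 with hm
  have hm1 : 1 ≤ m := Nat.le_add_left 1 _
  have hr2 : 0 < r ^ 2 := by positivity
  have hm2 : n < m * r ^ 2 := by
    rw [hm, mul_comm]
    exact Nat.lt_mul_div_succ n hr2
  have hm3 : m * r ^ 2 ≤ 2 * n := by
    rw [hm, add_mul, one_mul]
    have := Nat.div_mul_le_self n (r ^ 2)
    omega
  obtain ⟨κ', q, p, hq1, hq2, hq3⟩ := pieces V cl m hm1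
  have hPcard : (V.image q).card ≤ (2 * B + 3) * r ^ 2 := by
    have h4 : (V.image q).card * m ≤ m * r ^ 2 + (2 * B + 2) * r ^ 2 * m :=
      le_trans hq3 (add_le_add hm2.le (Nat.mul_le_mul_right _ h1))
    have h5 : (V.image q).card * m ≤ (2 * B + 3) * r ^ 2 * m := by
      refine le_trans h4 (le_of_eq ?_)
      ring
    exact Nat.le_of_mul_le_mul_right h5 hm1
  set A : Finset (Σ _ : κ', ι) := (V.image q).sigma (fun π => K (p π)) with hA
  have hAcard : (A.card : ℝ) ≤ (2 * B + 3) * r * N * lam B N := by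
    have h4 : (A.card : ℝ) * r ≤ (V.image q).card * (lam B N * N) := by
      rw [hA, Finset.card_sigma, Nat.cast_sum, Finset.sum_mul]
      calc ∑ π ∈ V.image q, ((K (p π)).card : ℝ) * r ≤ ∑ _π ∈ V.image q, lam B N * N :=
            Finset.sum_le_sum fun π _ => h2 _
        _ = (V.image q).card * (lam B N * N) := by rw [Finset.sum_const, nsmul_eq_mul]
    have h5 : ((V.image q).card : ℝ) * (lam B N * N) ≤ ((2 * B + 3) * r ^ 2) * (lam B N * N) := by
      refine mul_le_mul_of_nonneg_right ?_ (by positivity)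
      exact_mod_cast hPcard
    have h6 : (A.card : ℝ) * r ≤ ((2 * B + 3) * r * N * lam B N) * r := by
      refine le_trans h4 (le_trans h5 (le_of_eq ?_))
      ring
    exact le_of_mul_le_mul_right h6 (by linarith)
  -- the incidences
  have hJsum := sum_fib V I hI q (fun π => K (p π))
  have hinc := incid f V I hI hf (fun v => p (q v)) K
  have hJle : Itot ≤ ∑ x ∈ A, (fib I q x.1 x.2).card + (B * r * N + 2 * n) := by
    rw [hA, hJsum]
    refine le_trans hinc (Nat.add_le_add_left ?_ _)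
    refine le_trans (le_of_eq ?_) h3
    refine Finset.sum_congr rfl fun v _ => ?_
    rw [hq1 v]
  have hJr : 7 / 8 * (Itot : ℝ) ≤ ∑ x ∈ A, ((fib I q x.1 x.2).card : ℝ) := by
    have h4 : (Itot : ℝ) ≤ ∑ x ∈ A, ((fib I q x.1 x.2).card : ℝ) + (B * r * N + 2 * n) := by
      exact_mod_cast hJle
    nlinarith
  have hCS := sq_sum_le_card_mul_sum_sq (s := A) (f := fun x => ((fib I q x.1 x.2).card : ℝ))
  have hT : ∑ x ∈ A, ((fib I q x.1 x.2).card : ℝ) ^ 2 - ∑ x ∈ A, ((fib I q x.1 x.2).card : ℝ) ≤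
      ((∑ e ∈ EE V q, mu I e : ℕ) : ℝ) := by
    rw [← Finset.sum_sub_distrib]
    have h4 : ∀ x ∈ A, ((fib I q x.1 x.2).card : ℝ) ^ 2 - ((fib I q x.1 x.2).card : ℝ) =
        (((fib I q x.1 x.2).card * (fib I q x.1 x.2).card - (fib I q x.1 x.2).card : ℕ) : ℝ) := by
      intro x _
      rw [Nat.cast_sub (Nat.le_mul_self _), Nat.cast_mul, sq]
    rw [Finset.sum_congr rfl h4, ← Nat.cast_sum]
    exact_mod_cast triples V I hI q (fun π => K (p π))
  have hcore := core Itot _ _ A.card _ hJr (by linarith) hItotpos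
    (Finset.sum_nonneg fun x _ => sq_nonneg _) hCS hT
  -- the bad pairs
  have hEcard := card_EE V q m hq2
  have hbad : 4 * ∑ e ∈ (EE V q).filter (fun e => ¬ r ^ 2 * Itot ≤ 8 * n ^ 2 * mu I e), mu I e ≤
      Itot := by
    have h4 : 8 * n ^ 2 * ∑ e ∈ (EE V q).filter
        (fun e => ¬ r ^ 2 * Itot ≤ 8 * n ^ 2 * mu I e), mu I e ≤ n * m * (r ^ 2 * Itot) := by
      rw [Finset.mul_sum]
      calc ∑ e ∈ (EE V q).filter (fun e => ¬ r ^ 2 * Itot ≤ 8 * n ^ 2 * mu I e),
            8 * n ^ 2 * mu I e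
          ≤ ∑ _e ∈ (EE V q).filter (fun e => ¬ r ^ 2 * Itot ≤ 8 * n ^ 2 * mu I e),
            r ^ 2 * Itot := by
            refine Finset.sum_le_sum fun e he => ?_
            rw [Finset.mem_filter] at he
            omega
        _ = ((EE V q).filter (fun e => ¬ r ^ 2 * Itot ≤ 8 * n ^ 2 * mu I e)).card *
            (r ^ 2 * Itot) := by rw [Finset.sum_const, smul_eq_mul]
        _ ≤ n * m * (r ^ 2 * Itot) := Nat.mul_le_mul_right _
            (le_trans (Finset.card_filter_le _ _) hEcard)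
    have h5 : n * m * (r ^ 2 * Itot) ≤ 2 * n ^ 2 * Itot := by
      calc n * m * (r ^ 2 * Itot) = n * (m * r ^ 2) * Itot := by ring
        _ ≤ n * (2 * n) * Itot := Nat.mul_le_mul_right _ (Nat.mul_le_mul_left _ hm3)
        _ = 2 * n ^ 2 * Itot := by ring
    have h6 : 2 * n ^ 2 * (4 * ∑ e ∈ (EE V q).filter
        (fun e => ¬ r ^ 2 * Itot ≤ 8 * n ^ 2 * mu I e), mu I e) ≤ 2 * n ^ 2 * Itot := by
      refine le_trans (le_of_eq ?_) (le_trans h4 h5)
      ring
    exact Nat.le_of_mul_le_mul_left h6 (by positivity)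
  have hcore' : Itot ≤ ∑ e ∈ EE V q, mu I e := by exact_mod_cast hcore
  rw [← Finset.sum_filter_add_sum_filter_not (EE V q)
    (fun e => r ^ 2 * Itot ≤ 8 * n ^ 2 * mu I e)] at hcore'
  have hsub : ∑ e ∈ (EE V q).filter (fun e => r ^ 2 * Itot ≤ 8 * n ^ 2 * mu I e), mu I e ≤
      ∑ e ∈ (V ×ˢ V).filter (fun e => e.1 ≠ e.2 ∧ r ^ 2 * Itot ≤ 8 * n ^ 2 * mu I e), mu I e := by
    refine Finset.sum_le_sum_of_subset fun e he => ?_
    rw [Finset.mem_filter, EE, Finset.mem_filter] at he
    rw [Finset.mem_filter]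
    exact ⟨he.1.1, he.1.2.1, he.2⟩
  omega

end Pool.Agent.NH60.TP
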