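import Pool.Agent.NH60.TP.Stm

/-!
Project TP, part PAR: conics with a given focus as parabolas.
-/

set_option autoImplicit false

namespace Pool.Agent.NH60.TP

open Finset
open scoped Classical

namespace PAR

theorem dsq (r p : ℂ) : dist r p ^ 2 = (r - p).re ^ 2 + (r - p).im ^ 2 := by
  rw [Complex.dist_eq, Complex.sq_norm, Complex.normSq_apply]
  ring

/-- the zeros of a quadratic polynomial which is not zero -/
theorem quad (a b c : ℝ) (h : ¬ (a = 0 ∧ b = 0 ∧ c = 0)) :
    {t : ℝ | a * t ^ 2 + b * t + c = 0}.Finite ∧ {t : ℝ | a * t ^ 2 + b * t + c = 0}.ncard ≤ 2 := by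
  obtain ⟨P, hP⟩ : ∃ P : Polynomial ℝ, P = Polynomial.C a * Polynomial.X ^ 2 +
    Polynomial.C b * Polynomial.X + Polynomial.C c := ⟨_, rfl⟩
  have hev : ∀ t, P.eval t = a * t ^ 2 + b * t + c := by
    intro t
    rw [hP]
    simp
  have hP0 : P ≠ 0 := by
    intro h0
    apply h
    have e : ∀ t, a * t ^ 2 + b * t + c = 0 := by
      intro t
      rw [← hev, h0, Polynomial.eval_zero]
    have e0 := e 0
    have e1 := e 1
    have e2 := e (-1)
    refine ⟨?_, ?_, ?_⟩ <;> linarith
  have hsub : {t : ℝ | a * t ^ 2 + b * t + c = 0} ⊆ (P.roots.toFinset : Set ℝ) := by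
    intro t ht
    rw [Finset.mem_coe, Multiset.mem_toFinset, Polynomial.mem_roots hP0, Polynomial.IsRoot.def, hev]
    exact ht
  refine ⟨(Finset.finite_toSet _).subset hsub, ?_⟩
  refine (Set.ncard_le_ncard hsub (Finset.finite_toSet _)).trans ?_
  rw [Set.ncard_coe_finset]
  refine (Multiset.toFinset_card_le _).trans ((Polynomial.card_roots' P).trans ?_)
  rw [hP]
  exact Polynomial.natDegree_quadratic_le

end PAR

open PAR in
theorem pinc : S_PINC := by
  intro p q r s hm hκ hd
  have h1 := dsq r p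
  have h2 : dist r q ^ 2 = ((r - p).re - (q - p).re) ^ 2 + ((r - p).im - (q - p).im) ^ 2 := by
    rw [dsq]
    simp only [Complex.sub_re, Complex.sub_im]
    ring
  have h3 : dist r q ^ 2 = (s - dist r p) ^ 2 := by
    rcases hd with h | h <;> rw [h]
    ring
  rw [h3] at h2
  rw [dsq q p] at hκ
  unfold phi psi
  rw [dsq q p]
  simp only
  generalize (r - p).re = X at *
  generalize (r - p).im = Y at *
  generalize (q - p).re = a at *
  generalize (q - p).im = b at *
  generalize dist r p = ρ at *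
  have hm' : ρ + X ≠ 0 := hm.ne'
  have hκ' : s ^ 2 - (a ^ 2 + b ^ 2) ≠ 0 := sub_ne_zero.2 hκ
  rw [div_eq_div_iff hκ' hm']
  field_simp
  linear_combination (-(s + a) * 2) * h1 - 2 * (ρ + X) * h2 + 2 * (ρ + X) * h1

open PAR in
theorem pinj : S_PINJ := by
  intro p r r' hm hm' h
  have h1 := dsq r p
  have h2 := dsq r' p
  unfold psi at h
  rw [Prod.mk.injEq] at h
  obtain ⟨e1, e2⟩ := h
  have key : (r - p).re = (r' - p).re ∧ (r - p).im = (r' - p).im := by
    generalize (r - p).re = X at *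
    generalize (r - p).im = Y at *
    generalize (r' - p).re = X' at *
    generalize (r' - p).im = Y' at *
    generalize dist r p = ρ at *
    generalize dist r' p = ρ' at *
    have h3 : ρ + X = ρ' + X' := by
      rw [div_eq_div_iff hm.ne' hm'.ne'] at e2
      linarith
    rw [h3, div_left_inj' hm'.ne'] at e1
    refine ⟨?_, e1⟩
    have h4 : (ρ' + X') * (ρ - X) = (ρ' + X') * (ρ' - X') := by
      rw [← h3]
      have h5 : (ρ + X) * (ρ - X) = Y ^ 2 := by linear_combination h1
      have h6 : (ρ' + X') * (ρ' - X') = Y' ^ 2 := by linear_combination h2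
      rw [h5, h3, h6, e1]
    have h5 := mul_left_cancel₀ hm'.ne' h4
    linarith
  have h4 : r - p = r' - p := Complex.ext key.1 key.2
  exact sub_left_injective h4

open PAR in
theorem pfam : S_PFAM := by
  intro p q q' s s' hκ hκ' hne
  rw [dsq] at hκ hκ'
  have hκ1 := sub_ne_zero.2 hκ
  have hκ1' := sub_ne_zero.2 hκ'
  have hset : {t | phi p q s t = phi p q' s' t} = {t : ℝ |
      (2 * (s + (q - p).re) / (s ^ 2 - ((q - p).re ^ 2 + (q - p).im ^ 2)) -
        2 * (s' + (q' - p).re) / (s' ^ 2 - ((q' - p).re ^ 2 + (q' - p).im ^ 2))) * t ^ 2 +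
      (4 * (q' - p).im / (s' ^ 2 - ((q' - p).re ^ 2 + (q' - p).im ^ 2)) -
        4 * (q - p).im / (s ^ 2 - ((q - p).re ^ 2 + (q - p).im ^ 2))) * t +
      (2 * (s - (q - p).re) / (s ^ 2 - ((q - p).re ^ 2 + (q - p).im ^ 2)) -
        2 * (s' - (q' - p).re) / (s' ^ 2 - ((q' - p).re ^ 2 + (q' - p).im ^ 2))) = 0} := by
    ext t
    rw [Set.mem_ofPred_eq, Set.mem_ofPred_eq, ← sub_eq_zero]
    unfold phi
    rw [dsq, dsq]
    have e : ∀ u v : ℝ, u = v → (u = 0 ↔ v = 0) := by
      rintro u v rfl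
      exact Iff.rfl
    apply e
    ring
  rw [hset]
  apply quad
  rintro ⟨e1, e2, e3⟩
  apply hne
  have key : (q - p).re = (q' - p).re ∧ (q - p).im = (q' - p).im ∧ s = s' := by
    generalize (q - p).re = a at *
    generalize (q - p).im = b at *
    generalize (q' - p).re = a' at *
    generalize (q' - p).im = b' at *
    obtain ⟨κ, hk⟩ : ∃ κ, κ = s ^ 2 - (a ^ 2 + b ^ 2) := ⟨_, rfl⟩
    obtain ⟨κ', hk'⟩ : ∃ κ', κ' = s' ^ 2 - (a' ^ 2 + b' ^ 2) := ⟨_, rfl⟩
    rw [← hk] at e1 e2 e3 hκ1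
    rw [← hk'] at e1 e2 e3 hκ1'
    have f1 : s / κ = s' / κ' := by linear_combination (e1 + e3) / 4
    have f2 : a / κ = a' / κ' := by linear_combination (e1 - e3) / 4
    have f3 : b / κ = b' / κ' := by linear_combination -e2 / 4
    have g1 : κ⁻¹ = (s / κ) ^ 2 - ((a / κ) ^ 2 + (b / κ) ^ 2) := by
      field_simp
      linear_combination hk
    have g2 : κ'⁻¹ = (s' / κ') ^ 2 - ((a' / κ') ^ 2 + (b' / κ') ^ 2) := by
      field_simp
      linear_combination hk'
    have g3 : κ = κ' := by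
      rw [← inv_inj, g1, g2, f1, f2, f3]
    rw [g3, div_left_inj' hκ1'] at f1 f2 f3
    exact ⟨f2, f3, f1⟩
  have h4 : q - p = q' - p := Complex.ext key.1 key.2.1
  rw [sub_left_injective h4, key.2.2]

end Pool.Agent.NH60.TP
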