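import Pool.Agent.NH60.TP.Stm

/-! TP-POLY: two distinct conics have at most four common abscissae. -/

set_option autoImplicit false

namespace Pool.Agent.NH60.TP

open Finset
open scoped Classical

namespace POLY

open Polynomial

/-- the quadratic polynomial `a (X - n) ^ 2 - b` is not the square of a polynomial, up to `4` -/
theorem no_square (a n b : ℝ) (ha : 0 < a) (hb : b ≠ 0) (H : ℝ[X])
    (h : H ^ 2 = 4 * (C a * (X - C n) ^ 2 - C b)) : False := by
  have hd1 : (4 * (C a * (X - C n) ^ 2 - C b) : ℝ[X]).natDegree ≤ 2 := by compute_degree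
  have hd : H.natDegree ≤ 1 := by
    have h1 := congrArg natDegree h
    rw [natDegree_pow] at h1
    omega
  obtain ⟨h1, h0, rfl⟩ := exists_eq_X_add_C_of_natDegree_le_one hd
  have hev : ∀ t : ℝ, (h1 * t + h0) ^ 2 = 4 * (a * (t - n) ^ 2 - b) := by
    intro t
    have := congrArg (eval t) h
    simpa using this
  have e1 := hev n
  have hb1 : b ≤ 0 := by nlinarith [sq_nonneg (h1 * n + h0)]
  by_cases hh : h1 = 0
  · have e2 := hev (n + 1)
    rw [hh] at e1 e2
    nlinarith
  · have e3 := hev (-h0 / h1)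
    have e4 : h1 * (-h0 / h1) + h0 = 0 := by field_simp; ring
    rw [e4] at e3
    have : 0 ≤ a * (-h0 / h1 - n) ^ 2 := by positivity
    have hb2 : 0 ≤ b := by nlinarith
    exact hb (le_antisymm hb1 hb2)

end POLY

open POLY Polynomial in
theorem poly : S_POLY := by
  rintro ⟨m1, m2, κ, α, β⟩ ⟨n1, n2, l, a, b⟩ ⟨hα, hβ⟩ ⟨ha, hb⟩ hne
  simp only at hα hβ ha hb
  set v : ℝ := κ - l with hv
  set u : ℝ := m2 - κ * m1 - n2 + l * n1 with hu
  set M : ℝ[X] := C v * X + C u with hM
  set D : ℝ[X] := C α * (X - C m1) ^ 2 - C β with hD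
  set D' : ℝ[X] := C a * (X - C n1) ^ 2 - C b with hD'
  set E : ℝ[X] := (M ^ 2 + D' - D) ^ 2 - 4 * D' * M ^ 2 with hE
  have hdeg : E.natDegree ≤ 4 := by
    rw [hE, hM, hD, hD']
    compute_degree
  have hE0 : E ≠ 0 := by
    intro h0
    have h1 : (M ^ 2 + D' - D) ^ 2 = 4 * D' * M ^ 2 := sub_eq_zero.1 h0
    by_cases hM0 : M = 0
    · rw [hM0] at h1
      have h2 : D' - D = 0 := by
        have : (D' - D) ^ 2 = 0 := by
          simpa using h1
        exact pow_eq_zero_iff (two_ne_zero) |>.1 this
      have hev : ∀ t : ℝ, a * (t - n1) ^ 2 - b = α * (t - m1) ^ 2 - β := by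
        intro t
        have := congrArg (eval t) (sub_eq_zero.1 h2)
        simpa [hD, hD'] using this
      have hevM : ∀ t : ℝ, v * t + u = 0 := by
        intro t
        have := congrArg (eval t) hM0
        simpa [hM] using this
      have hu0 : u = 0 := by simpa using hevM 0
      have hv0 : v = 0 := by
        have := hevM 1
        rw [hu0] at this
        simpa using this
      have e0 := hev 0
      have e1 := hev 1
      have e2 := hev (-1)
      have haα : a = α := by linarith
      have hmn : n1 = m1 := by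
        have : a * (n1 - m1) = 0 := by
          rw [haα] at e1 e2 ⊢
          nlinarith
        rcases mul_eq_zero.1 this with h | h
        · exact absurd h ha.ne'
        · linarith
      have hbβ : b = β := by
        rw [haα, hmn] at e0
        linarith
      have hκ : κ = l := by linarith
      have hm2 : m2 = n2 := by
        rw [hu, hκ, hmn] at hu0
        linarith
      apply hne
      rw [haα, hmn, hbβ, hκ, hm2]
    · have h2 : M ^ 2 ∣ (M ^ 2 + D' - D) ^ 2 := ⟨4 * D', by rw [h1]; ring⟩
      have h3 : M ∣ M ^ 2 + D' - D := (IsIntegrallyClosed.pow_dvd_pow_iff two_ne_zero).1 h2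
      obtain ⟨H, hH⟩ := h3
      rw [hH] at h1
      have h4 : M ^ 2 * H ^ 2 = M ^ 2 * (4 * D') := by
        rw [← mul_pow, h1]; ring
      have h5 : H ^ 2 = 4 * D' := mul_left_cancel₀ (pow_ne_zero 2 hM0) h4
      exact no_square a n1 b ha hb H h5
  have hsub : {X : ℝ | ∃ Y, OnC (m1, m2, κ, α, β) X Y ∧ OnC (n1, n2, l, a, b) X Y} ⊆
      (E.roots.toFinset : Set ℝ) := by
    rintro t ⟨Y, h1, h2⟩
    unfold OnC at h1 h2
    simp only at h1 h2
    simp only [Finset.mem_coe, Multiset.mem_toFinset]
    rw [mem_roots hE0, IsRoot]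
    have hM' : M.eval t = v * t + u := by simp [hM]
    have hDe : D.eval t = α * (t - m1) ^ 2 - β := by simp [hD]
    have hDe' : D'.eval t = a * (t - n1) ^ 2 - b := by simp [hD']
    have hEe : E.eval t = ((M.eval t) ^ 2 + D'.eval t - D.eval t) ^ 2 -
        4 * D'.eval t * (M.eval t) ^ 2 := by
      simp [hE]
    rw [hEe, hM', hDe, hDe', ← h1, ← h2, hv, hu]
    ring
  refine ⟨(Finset.finite_toSet _).subset hsub, ?_⟩
  calc _ ≤ (E.roots.toFinset : Set ℝ).ncard := Set.ncard_le_ncard hsub (Finset.finite_toSet _)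
    _ = E.roots.toFinset.card := Set.ncard_coe_finset _
    _ ≤ Multiset.card E.roots := Multiset.toFinset_card_le _
    _ ≤ E.natDegree := card_roots' E
    _ ≤ 4 := hdeg

end Pool.Agent.NH60.TP

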