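import Pool.Agent.NH60.TP.Stm

/-!
Project TP: rich hyperbolas in general position, five degrees of freedom.
-/

set_option autoImplicit false

namespace Pool.Agent.NH60.TP

open Finset
open scoped Classical

namespace R5G

/-- the choice of an arc -/
def Cnd (c : Cd) (o : Bool × Bool) (X Y : ℝ) : Prop :=
  (if o.1 then 0 ≤ Y - c.2.1 - c.2.2.1 * (X - c.1) else Y - c.2.1 - c.2.2.1 * (X - c.1) ≤ 0) ∧
    (if o.2 then c.1 ≤ X else X ≤ c.1)

theorem cnd_ex (c : Cd) (X Y : ℝ) : ∃ o, Cnd c o X Y := by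
  unfold Cnd
  rcases le_total 0 (Y - c.2.1 - c.2.2.1 * (X - c.1)) with h1 | h1 <;>
    rcases le_total c.1 X with h2 | h2
  · exact ⟨(true, true), h1, h2⟩
  · exact ⟨(true, false), h1, h2⟩
  · exact ⟨(false, true), h1, h2⟩
  · exact ⟨(false, false), h1, h2⟩

/-- pigeonhole -/
theorem pig (S : Finset ℂ) (c : Cd) {k : ℕ} (hk : k ≤ S.card) :
    ∃ o : Bool × Bool, (k + 3) / 4 ≤ (S.filter fun q => Cnd c o q.re q.im).card := by
  by_contra hcon
  push Not at hcon
  have h1 : S ⊆ (univ : Finset (Bool × Bool)).biUnion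
      fun o => S.filter fun q => Cnd c o q.re q.im := by
    intro q hq
    obtain ⟨o, ho⟩ := cnd_ex c q.re q.im
    rw [mem_biUnion]
    exact ⟨o, mem_univ o, mem_filter.2 ⟨hq, ho⟩⟩
  have h2 := (card_le_card h1).trans card_biUnion_le
  have h3 : ∑ o : Bool × Bool, (S.filter fun q => Cnd c o q.re q.im).card ≤
      ∑ _o : Bool × Bool, ((k + 3) / 4 - 1) :=
    Finset.sum_le_sum fun o _ => by
      have := hcon o
      omega
  have h4 : ∑ _o : Bool × Bool, ((k + 3) / 4 - 1) = 4 * ((k + 3) / 4 - 1) := by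
    rw [Finset.sum_const, smul_eq_mul]
    rfl
  have h5 := hcon (true, true)
  omega

theorem emb_inj : Function.Injective (fun q : ℂ => (q.re, q.im)) := by
  intro q q' h
  simp only [Prod.mk.injEq] at h
  exact Complex.ext h.1 h.2

end R5G

open R5G in
theorem r5g (h1 : S_RICH) (h2 : S_POLY) (h3 : S_ARC) (h4 : S_CON) : S_R5G := by
  obtain ⟨C0, hC0, hR⟩ := h1 5 1 9 (by norm_num)
  obtain ⟨c1, c2, c3⟩ := h4
  refine ⟨4 ^ 10 * C0, by positivity, fun P H k hH hlog => ?_⟩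
  set F := H.image cdat with hF
  have hgood : ∀ c ∈ F, GoodC c := by
    intro c hc
    rw [hF, mem_image] at hc
    obtain ⟨τ, hτ, rfl⟩ := hc
    exact c1 τ (hH τ hτ).1
  have key : ∀ c ∈ F, ∃ (τ : ℂ × ℂ × ℝ) (o : Bool × Bool), τ ∈ H ∧ cdat τ = c ∧
      (k + 3) / 4 ≤ ((hh P τ.1 τ.2.1 τ.2.2).filter fun q => Cnd c o q.re q.im).card := by
    intro c hc
    have hc' := hc
    rw [hF, mem_image] at hc'
    obtain ⟨τ, hτ, hτc⟩ := hc'
    obtain ⟨o, ho⟩ := pig (hh P τ.1 τ.2.1 τ.2.2) c (hH τ hτ).2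
    exact ⟨τ, o, hτ, hτc, ho⟩
  choose! τ o hτ using key
  obtain ⟨g, hg, hgv⟩ := h3 F hgood o
  set V : Finset (ℝ × ℝ) := P.image fun q : ℂ => (q.re, q.im) with hV
  set I : {c // c ∈ F} → Finset (ℝ × ℝ) := fun c =>
    ((hh P (τ c).1 (τ c).2.1 (τ c).2.2).filter fun q => Cnd c (o c) q.re q.im).image
      (fun q : ℂ => (q.re, q.im)) with hI
  have hVc : V.card = P.card := card_image_of_injective _ emb_inj
  -- the points are on the conics
  have hon : ∀ (i : {c // c ∈ F}), ∀ v ∈ I i, v ∈ V ∧ OnC i.1 v.1 v.2 ∧ Cnd i.1 (o i.1) v.1 v.2 := by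
    intro i v hv
    rw [hI] at hv
    simp only [mem_image, mem_filter] at hv
    obtain ⟨q, ⟨hq, hc⟩, rfl⟩ := hv
    unfold hh at hq
    rw [mem_filter] at hq
    obtain ⟨t1, t2, -⟩ := hτ i.1 i.2
    refine ⟨mem_image_of_mem _ hq.1, ?_, hc⟩
    have := c2 (τ i.1) (hH _ t1).1 q hq.2
    rw [t2] at this
    exact this
  have hval : ∀ (i : {c // c ∈ F}), ∀ v ∈ I i, g i v.1 = v.2 := by
    intro i v hv
    obtain ⟨-, a2, a3⟩ := hon i v hv
    exact hgv i v.1 v.2 a2 a3.1 a3.2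
  have hT : ∀ T : Finset (ℝ × ℝ), T.card = 5 →
      (univ.filter (fun i : {c // c ∈ F} => T ⊆ I i)).card ≤ 1 := by
    intro T hT5
    rw [card_le_one]
    intro a ha b hb
    rw [mem_filter] at ha hb
    by_contra hab
    have hne : (a : Cd) ≠ b := fun h => hab (Subtype.ext h)
    obtain ⟨f1, f2⟩ := h2 a b (hgood _ a.2) (hgood _ b.2) hne
    have hcard : (T.image Prod.fst).card = 5 := by
      rw [card_image_of_injOn, hT5]
      intro v hv w hw hvw
      have e1 := hval a v (ha.2 hv)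
      have e2 := hval a w (ha.2 hw)
      have hvw' : v.1 = w.1 := hvw
      rw [hvw'] at e1
      exact Prod.ext hvw' (e1.symm.trans e2)
    have hsub : ((T.image Prod.fst : Finset ℝ) : Set ℝ) ⊆
        {X | ∃ Y, OnC (a : Cd) X Y ∧ OnC (b : Cd) X Y} := by
      intro X hX
      rw [mem_coe, mem_image] at hX
      obtain ⟨v, hv, rfl⟩ := hX
      exact ⟨v.2, (hon a v (ha.2 hv)).2.1, (hon b v (hb.2 hv)).2.1⟩
    have h5 := Set.ncard_le_ncard hsub f1
    rw [Set.ncard_coe_finset, hcard] at h5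
    omega
  have hFH : F.card ≤ H.card := card_image_le
  have hH4 : H.card ≤ 4 * F.card := c3 H fun t ht => (hH t ht).1
  have hk4 : k ≤ 4 * ((k + 3) / 4) := by omega
  have hk1 : (k + 3) / 4 ≤ k := by omega
  set k' := (k + 3) / 4 with hk'
  have r1 : (F.card : ℝ) ≤ H.card := by exact_mod_cast hFH
  have r2 : (H.card : ℝ) ≤ 4 * F.card := by exact_mod_cast hH4
  have r3 : (k : ℝ) ≤ 4 * k' := by exact_mod_cast hk4
  have r4 : (k' : ℝ) ≤ k := by exact_mod_cast hk1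
  have l0 : 0 ≤ Real.log ((F.card : ℝ) + 2) := Real.log_nonneg (by
    have : (0 : ℝ) ≤ F.card := Nat.cast_nonneg _
    linarith)
  have l1 : Real.log ((F.card : ℝ) + 2) ≤ Real.log ((H.card : ℝ) + 2) :=
    Real.log_le_log (by positivity) (by linarith)
  have hmain := hR {c // c ∈ F} g hg V I (fun i v hv => (hon i v hv).1) hval hT k'
    (fun i => by
      rw [hI]
      rw [card_image_of_injective _ emb_inj]
      exact (hτ i.1 i.2).2.2) (by
      rw [Fintype.card_coe]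
      have e1 : C0 * Real.log ((F.card : ℝ) + 2) ≤ C0 * Real.log ((H.card : ℝ) + 2) :=
        mul_le_mul_of_nonneg_left l1 hC0.le
      have e2 : 0 ≤ C0 * Real.log ((H.card : ℝ) + 2) := mul_nonneg hC0.le (l0.trans l1)
      nlinarith [hlog, r3, e1, e2])
  rw [Fintype.card_coe, hVc] at hmain
  norm_num at hmain
  have e3 : Real.log ((F.card : ℝ) + 2) ^ 8 ≤ Real.log ((H.card : ℝ) + 2) ^ 8 :=
    pow_le_pow_left₀ l0 l1 8
  have e4 : (k' : ℝ) ^ 8 ≤ (k : ℝ) ^ 8 := pow_le_pow_left₀ (Nat.cast_nonneg _) r4 8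
  have e5 : (k : ℝ) ^ 9 ≤ (4 * k') ^ 9 := pow_le_pow_left₀ (Nat.cast_nonneg _) r3 9
  have n0 : (0 : ℝ) ≤ P.card := Nat.cast_nonneg _
  calc (H.card : ℝ) * (k : ℝ) ^ 9 ≤ (4 * F.card) * (4 * k') ^ 9 :=
        mul_le_mul r2 e5 (by positivity) (by positivity)
    _ = 4 ^ 10 * (F.card * (k' : ℝ) ^ 9) := by ring
    _ ≤ 4 ^ 10 * (C0 * Real.log ((F.card : ℝ) + 2) ^ 8 *
        ((P.card : ℝ) ^ 5 + P.card * (k' : ℝ) ^ 8)) := by
        apply mul_le_mul_of_nonneg_left _ (by norm_num)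
        exact hmain
    _ ≤ 4 ^ 10 * (C0 * Real.log ((H.card : ℝ) + 2) ^ 8 *
        ((P.card : ℝ) ^ 5 + P.card * (k : ℝ) ^ 8)) := by
        apply mul_le_mul_of_nonneg_left _ (by norm_num)
        apply mul_le_mul
        · exact mul_le_mul_of_nonneg_left e3 hC0.le
        · have := mul_le_mul_of_nonneg_left e4 n0
          linarith
        · positivity
        · exact mul_nonneg hC0.le (pow_nonneg (l0.trans l1) 8)
    _ = 4 ^ 10 * C0 * Real.log ((H.card : ℝ) + 2) ^ 8 *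
        ((P.card : ℝ) ^ 5 + P.card * (k : ℝ) ^ 8) := by ring

end Pool.Agent.NH60.TP
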