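import Pool.Agent.NH60.TP.Stm

/-!
Project TP, part RICH: the number of rich curves of a family with `s` degrees of freedom.
-/

set_option autoImplicit false

namespace Pool.Agent.NH60.TP

open Finset
open scoped Classical

namespace RICH

/-- splitting of the incidences -/
lemma split {ι κ : Type} [Fintype ι] (f : ι → ℝ → ℝ) (V : Finset (ℝ × ℝ))
    (I : ι → Finset (ℝ × ℝ)) (hI : ∀ i, I i ⊆ V) (hf : ∀ i, ∀ v ∈ I i, f i v.1 = v.2)
    (cl : ℝ × ℝ → κ) (K : κ → Finset ι) :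
    ∑ i, (I i).card ≤
      ∑ c ∈ V.image cl, ∑ i ∈ K c, ((I i).filter (fun v => cl v = c)).card +
      ∑ v ∈ V, (univ.filter (fun i => f i v.1 = v.2 ∧ i ∉ K (cl v))).card := by
  have h1 : ∀ i, (I i).card = ((I i).filter (fun v => i ∈ K (cl v))).card +
      ((I i).filter (fun v => i ∉ K (cl v))).card := by
    intro i
    exact (Finset.card_filter_add_card_filter_not _).symm
  rw [Finset.sum_congr rfl (fun i _ => h1 i), Finset.sum_add_distrib]
  refine Nat.add_le_add (le_of_eq ?_) ?_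
  · have h2 : ∀ i, ((I i).filter (fun v => i ∈ K (cl v))).card =
        ∑ c ∈ V.image cl, if i ∈ K c then ((I i).filter (fun v => cl v = c)).card else 0 := by
      intro i
      rw [Finset.card_eq_sum_card_fiberwise (f := cl) (t := V.image cl)]
      · apply Finset.sum_congr rfl
        intro c _
        rw [Finset.filter_filter]
        by_cases hc : i ∈ K c
        · rw [if_pos hc]
          congr 1
          apply Finset.filter_congr
          intro v _
          constructor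
          · exact fun h => h.2
          · intro h
            exact ⟨by rw [h]; exact hc, h⟩
        · rw [if_neg hc]
          rw [Finset.card_eq_zero, Finset.filter_eq_empty_iff]
          rintro v _ ⟨h, rfl⟩
          exact hc h
      · intro v hv
        have hv' := Finset.mem_filter.1 (Finset.mem_coe.1 hv)
        exact Finset.mem_coe.2 (Finset.mem_image_of_mem _ (hI i hv'.1))
    rw [Finset.sum_congr rfl (fun i _ => h2 i), Finset.sum_comm]
    apply Finset.sum_congr rfl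
    intro c _
    rw [← Finset.sum_filter]
    apply Finset.sum_congr
    · ext i
      simp
    · intros; rfl
  · have h3 : ∑ v ∈ V, (univ.filter (fun i => f i v.1 = v.2 ∧ i ∉ K (cl v))).card =
        ∑ i, (V.filter (fun v => f i v.1 = v.2 ∧ i ∉ K (cl v))).card := by
      simp only [Finset.card_filter]
      rw [Finset.sum_comm]
    rw [h3]
    apply Finset.sum_le_sum
    intro i _
    apply Finset.card_le_card
    intro v hv
    rw [Finset.mem_filter] at hv ⊢
    exact ⟨hI i hv.1, hf i v hv.1, hv.2⟩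

/-- one class -/
lemma cls (h2 : S_KST) {m A : ℕ} {ι : Type} [Fintype ι]
    (V : Finset (ℝ × ℝ)) (I : ι → Finset (ℝ × ℝ)) (hI : ∀ i, I i ⊆ V)
    (hA : ∀ T : Finset (ℝ × ℝ), T.card = m + 1 → (univ.filter (fun i => T ⊆ I i)).card ≤ A)
    (κ : Type) (cl : ℝ × ℝ → κ) (c : κ) (K : Finset ι) (Q θ : ℝ) (hQ : (K.card : ℝ) ≤ Q)
    (hθ : 0 ≤ θ) (hθ2 : θ ^ (m + 1) = Q ^ m * A) :
    ((∑ i ∈ K, ((I i).filter (fun v => cl v = c)).card : ℕ) : ℝ) ≤
      m * Q + θ * (V.filter (fun v => cl v = c)).card := by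
  have h := h2 (m + 1) A (by omega) ι K (V.filter (fun v => cl v = c))
    (fun i => (I i).filter (fun v => cl v = c))
    (fun i _ => Finset.filter_subset_filter _ (hI i))
    (fun T hT => by
      refine le_trans (Finset.card_le_card ?_) (hA T hT)
      intro i hi
      rw [Finset.mem_filter] at hi ⊢
      exact ⟨Finset.mem_univ _, hi.2.trans (Finset.filter_subset _ _)⟩)
  simp only [Nat.add_sub_cancel] at h
  set S : ℕ := ∑ i ∈ K, (((I i).filter (fun v => cl v = c)).card - m) with hS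
  have hS1 : ∑ i ∈ K, ((I i).filter (fun v => cl v = c)).card ≤ m * K.card + S := by
    rw [hS, mul_comm, ← smul_eq_mul, ← Finset.sum_const, ← Finset.sum_add_distrib]
    apply Finset.sum_le_sum
    intro i _
    omega
  have hS2 : (S : ℝ) ≤ θ * (V.filter (fun v => cl v = c)).card := by
    have h0 : (S : ℝ) ^ (m + 1) ≤ (θ * (V.filter (fun v => cl v = c)).card) ^ (m + 1) := by
      calc (S : ℝ) ^ (m + 1) ≤ (K.card : ℝ) ^ m *
            (A * ((V.filter (fun v => cl v = c)).card : ℝ) ^ (m + 1)) := by exact_mod_cast h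
        _ ≤ Q ^ m * (A * ((V.filter (fun v => cl v = c)).card : ℝ) ^ (m + 1)) := by
            gcongr
        _ = (θ * (V.filter (fun v => cl v = c)).card) ^ (m + 1) := by
            rw [mul_pow, hθ2]; ring
    exact le_of_pow_le_pow_left₀ (by omega) (by positivity) h0
  have hS3 : ((∑ i ∈ K, ((I i).filter (fun v => cl v = c)).card : ℕ) : ℝ) ≤
      ((m * K.card + S : ℕ) : ℝ) := by exact_mod_cast hS1
  push_cast at hS3 ⊢
  have h4 : (m : ℝ) * K.card ≤ m * Q := by gcongr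
  linarith

/-- the final inequality, real variables -/
lemma fin1 {m A : ℕ} {N n k L c0 c2 C r lm : ℝ} (hN : 0 < N) (hn : 0 ≤ n)
    (hL : 1 / 2 ≤ L) (hc0 : 0 < c0) (hc2 : 0 < c2) (hk : 0 < k) (hr : 0 < r)
    (hr2 : k ≤ r * (4 * (c2 * L)))
    (hlm : 0 < lm) (hlm2 : lm ≤ c0 * L)
    (hC1 : 8 * 4 ^ m ≤ C) (hC2 : 4 ^ (m + 1) * A * (4 * c0 * c2) ^ m ≤ C)
    (θ : ℝ) (hθ : 0 ≤ θ) (hθ2 : θ ^ (m + 1) = (lm * N / r) ^ m * A)
    (hmain : k * N / 2 ≤ θ * n + 2 * n) :
    N * k ^ (2 * m + 1) ≤ C * L ^ (2 * m) * (n ^ (m + 1) + n * k ^ (2 * m)) := by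
  have hL0 : 0 < L := by linarith
  have hC0 : 0 < C := lt_of_lt_of_le (by positivity) hC1
  rcases le_total (k * N / 4) (2 * n) with h | h
  · have h1 : N * k ≤ 8 * n := by linarith
    have h2 : N * k ^ (2 * m + 1) ≤ 8 * n * k ^ (2 * m) := by
      calc N * k ^ (2 * m + 1) = (N * k) * k ^ (2 * m) := by ring
        _ ≤ 8 * n * k ^ (2 * m) := by gcongr
    have h3 : 8 ≤ C * L ^ (2 * m) := by
      have : (1 / 2 : ℝ) ^ (2 * m) ≤ L ^ (2 * m) := by gcongr
      calc (8 : ℝ) = 8 * 4 ^ m * (1 / 2 : ℝ) ^ (2 * m) := by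
            rw [pow_mul, mul_assoc, ← mul_pow]; norm_num
        _ ≤ C * L ^ (2 * m) := by gcongr
    calc N * k ^ (2 * m + 1) ≤ 8 * (n * k ^ (2 * m)) := by linarith
      _ ≤ (C * L ^ (2 * m)) * (n * k ^ (2 * m)) := by gcongr
      _ ≤ (C * L ^ (2 * m)) * (n ^ (m + 1) + n * k ^ (2 * m)) := by
          gcongr
          have : 0 ≤ n ^ (m + 1) := by positivity
          linarith
  · have h1 : k * N / 4 ≤ θ * n := by linarith
    have h2 : (k * N / 4) ^ (m + 1) ≤ (lm * N / r) ^ m * A * n ^ (m + 1) := by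
      calc (k * N / 4) ^ (m + 1) ≤ (θ * n) ^ (m + 1) := by gcongr
        _ = _ := by rw [mul_pow, hθ2]
    have h3 : N * k ^ (m + 1) * r ^ m ≤ 4 ^ (m + 1) * A * lm ^ m * n ^ (m + 1) := by
      have h4 : (k * N / 4) ^ (m + 1) * (4 ^ (m + 1) * r ^ m) ≤
          (lm * N / r) ^ m * A * n ^ (m + 1) * (4 ^ (m + 1) * r ^ m) := by gcongr
      have h5 : (k * N / 4) ^ (m + 1) * (4 ^ (m + 1) * r ^ m) =
          (N * k ^ (m + 1) * r ^ m) * N ^ m := by
        rw [div_pow, mul_pow]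
        field_simp
        ring
      have h6 : (lm * N / r) ^ m * A * n ^ (m + 1) * (4 ^ (m + 1) * r ^ m) =
          (4 ^ (m + 1) * A * lm ^ m * n ^ (m + 1)) * N ^ m := by
        rw [div_pow, mul_pow]
        field_simp
      rw [h5, h6] at h4
      exact le_of_mul_le_mul_right h4 (by positivity)
    have h7 : k ^ m ≤ r ^ m * (4 * (c2 * L)) ^ m := by
      rw [← mul_pow]; gcongr
    calc N * k ^ (2 * m + 1) = N * k ^ (m + 1) * k ^ m := by ring
      _ ≤ N * k ^ (m + 1) * (r ^ m * (4 * (c2 * L)) ^ m) := by gcongr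
      _ = (N * k ^ (m + 1) * r ^ m) * (4 * (c2 * L)) ^ m := by ring
      _ ≤ (4 ^ (m + 1) * A * lm ^ m * n ^ (m + 1)) * (4 * (c2 * L)) ^ m := by gcongr
      _ ≤ (4 ^ (m + 1) * A * (c0 * L) ^ m * n ^ (m + 1)) * (4 * (c2 * L)) ^ m := by gcongr
      _ = (4 ^ (m + 1) * A * (4 * c0 * c2) ^ m) * L ^ (2 * m) * n ^ (m + 1) := by
          simp only [mul_pow, pow_mul, pow_two]; ring
      _ ≤ C * L ^ (2 * m) * n ^ (m + 1) := by gcongr
      _ ≤ C * L ^ (2 * m) * (n ^ (m + 1) + n * k ^ (2 * m)) := by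
          gcongr
          have : 0 ≤ n * k ^ (2 * m) := by positivity
          linarith

end RICH

open RICH in
/-- RICH -/
theorem rich (h1 : S_CUT) (h2 : S_KST) : S_RICH := by
  intro s A B hs
  obtain ⟨m, rfl⟩ : ∃ m, s = m + 1 := ⟨s - 1, by omega⟩
  have e1 : 2 * (m + 1) - 1 = 2 * m + 1 := by omega
  have e2 : 2 * (m + 1) - 2 = 2 * m := by omega
  rw [e1, e2]
  set c0 : ℝ := 6 + 2 * (2 * Real.log (B + 1) + 1) with hc0
  have hB : 0 ≤ Real.log ((B : ℝ) + 1) := Real.log_nonneg (by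
    have : (0 : ℝ) ≤ B := Nat.cast_nonneg B
    linarith)
  have hc0p : 0 < c0 := by rw [hc0]; linarith
  set c2 : ℝ := m * (2 * B + 2) * c0 + 2 * B + 1 with hc2
  have hc2p : 0 < c2 := by rw [hc2]; positivity
  refine ⟨4 * c2 + 8 * 4 ^ m + 4 ^ (m + 1) * A * (4 * c0 * c2) ^ m, by positivity, ?_⟩
  intro ι _ f hF V I hI hf hA k hk hkL
  set C : ℝ := 4 * c2 + 8 * 4 ^ m + 4 ^ (m + 1) * A * (4 * c0 * c2) ^ m with hC
  have hCp : 0 < C := by rw [hC]; positivity
  set N : ℕ := Fintype.card ι with hN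
  have hLpos : 1 / 2 ≤ Real.log ((N : ℝ) + 2) := by
    have h3 : Real.log 2 ≤ Real.log ((N : ℝ) + 2) := by
      apply Real.log_le_log (by norm_num)
      have : (0 : ℝ) ≤ N := Nat.cast_nonneg N
      linarith
    have := Real.log_two_gt_d9
    linarith
  set L : ℝ := Real.log ((N : ℝ) + 2) with hL
  have hL0 : 0 < L := by linarith
  rcases Nat.eq_zero_or_pos N with h0 | h0
  · rw [h0]
    have : (0 : ℝ) ≤ C * L ^ (2 * m) *
        ((V.card : ℝ) ^ (m + 1) + V.card * (k : ℝ) ^ (2 * m)) := by positivity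
    simpa using this
  have : Nonempty ι := Fintype.card_pos_iff.1 h0
  have hNr : (0 : ℝ) < N := by exact_mod_cast h0
  -- the parameter `r`
  have hM : 0 < c2 * L := by positivity
  have hkr : 2 ≤ (k : ℝ) / (2 * (c2 * L)) := by
    rw [le_div_iff₀ (by positivity)]
    have : 4 * c2 ≤ C := by
      rw [hC]
      have : 0 ≤ 8 * (4 : ℝ) ^ m + 4 ^ (m + 1) * A * (4 * c0 * c2) ^ m := by positivity
      linarith
    calc 2 * (2 * (c2 * L)) = 4 * c2 * L := by ring
      _ ≤ C * L := by gcongr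
      _ ≤ k := hkL
  obtain ⟨r, hr⟩ : ∃ r, r = ⌊(k : ℝ) / (2 * (c2 * L))⌋₊ := ⟨_, rfl⟩
  have hrle : (r : ℝ) ≤ (k : ℝ) / (2 * (c2 * L)) := by
    rw [hr]; exact Nat.floor_le (by positivity)
  have hrgt : (k : ℝ) / (2 * (c2 * L)) < r + 1 := by
    rw [hr]; exact Nat.lt_floor_add_one _
  have hr1 : (1 : ℝ) < r := by linarith
  have hr1' : 1 ≤ r := by
    have : (1 : ℝ) ≤ r := hr1.le
    exact_mod_cast this
  have hrM : (r : ℝ) * (2 * (c2 * L)) ≤ k := by
    rwa [le_div_iff₀ (by positivity)] at hrle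
  have hrM2 : (k : ℝ) ≤ r * (4 * (c2 * L)) := by
    have h3 : (k : ℝ) / (2 * (c2 * L)) ≤ 2 * r := by linarith
    rw [div_le_iff₀ (by positivity)] at h3
    linarith
  have hk0 : (0 : ℝ) < k := lt_of_lt_of_le (by positivity) hkL
  -- the cutting
  obtain ⟨κ, cl, K, hcl, hK, hout⟩ := h1 ι f B hF V r hr1'
  rw [← hN] at hK hout
  have hlm : lam B N ≤ c0 * L := by
    have h3 : Real.log ((N : ℝ) + 1) ≤ L := by
      rw [hL]; apply Real.log_le_log (by positivity); linarith
    unfold lam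
    rw [hc0]
    have h4 : 2 * Real.log ((B : ℝ) + 1) + 1 ≤ 2 * (2 * Real.log ((B : ℝ) + 1) + 1) * L := by
      nlinarith
    linarith
  have hlm0 : 0 < lam B N := by
    unfold lam
    have h3 : 0 ≤ Real.log ((N : ℝ) + 1) := Real.log_nonneg (by linarith)
    linarith
  have hr0 : (0 : ℝ) < r := by linarith
  set Q : ℝ := lam B N * N / r with hQ
  have hKQ : ∀ c, ((K c).card : ℝ) ≤ Q := fun c => by
    rw [hQ, le_div_iff₀ hr0]; exact hK c
  have hQ0 : 0 ≤ Q := by positivity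
  obtain ⟨θ, hθ0, hθ⟩ : ∃ θ : ℝ, 0 ≤ θ ∧ θ ^ (m + 1) = Q ^ m * A :=
    ⟨(Q ^ m * A) ^ (((m + 1 : ℕ) : ℝ)⁻¹), by positivity,
      Real.rpow_inv_natCast_pow (by positivity) (by omega)⟩
  -- the counting
  have hs1 := split f V I hI hf cl K
  have hs2 : ((∑ c ∈ V.image cl, ∑ i ∈ K c, ((I i).filter (fun v => cl v = c)).card : ℕ) : ℝ) ≤
      (2 * B + 2) * r ^ 2 * (m * Q) + θ * V.card := by
    push_cast
    calc ∑ c ∈ V.image cl, ∑ i ∈ K c, (((I i).filter (fun v => cl v = c)).card : ℝ)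
        ≤ ∑ c ∈ V.image cl, (m * Q + θ * (V.filter (fun v => cl v = c)).card) := by
          apply Finset.sum_le_sum
          intro c _
          have := cls h2 V I hI hA κ cl c (K c) Q θ (hKQ c) hθ0 hθ
          push_cast at this
          exact this
      _ = (V.image cl).card * (m * Q) + θ * V.card := by
          rw [Finset.sum_add_distrib, Finset.sum_const, nsmul_eq_mul, ← Finset.mul_sum]
          congr 2
          rw [← Nat.cast_sum]
          congr 1
          exact (Finset.card_eq_sum_card_fiberwise (f := cl) (t := V.image cl)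
            (fun v hv => Finset.mem_coe.2 (Finset.mem_image_of_mem _ hv))).symm
      _ ≤ (2 * B + 2) * r ^ 2 * (m * Q) + θ * V.card := by
          have h3 : ((V.image cl).card : ℝ) ≤ (2 * B + 2) * r ^ 2 := by exact_mod_cast hcl
          gcongr
  have hs3 : (k : ℝ) * N ≤ ((∑ i, (I i).card : ℕ) : ℝ) := by
    have : N * k ≤ ∑ i, (I i).card := by
      rw [hN, ← smul_eq_mul, ← Finset.card_univ, ← Finset.sum_const]
      exact Finset.sum_le_sum (fun i _ => hk i)
    rw [mul_comm]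
    exact_mod_cast this
  have hs4 : ((∑ i, (I i).card : ℕ) : ℝ) ≤
      (2 * B + 2) * r ^ 2 * (m * Q) + θ * V.card + (B * r * N + 2 * V.card) := by
    have h3 : ((∑ i, (I i).card : ℕ) : ℝ) ≤
        ((∑ c ∈ V.image cl, ∑ i ∈ K c, ((I i).filter (fun v => cl v = c)).card : ℕ) : ℝ) +
        ((∑ v ∈ V, (univ.filter (fun i => f i v.1 = v.2 ∧ i ∉ K (cl v))).card : ℕ) : ℝ) := by
      exact_mod_cast hs1
    have h4 : ((∑ v ∈ V, (univ.filter (fun i => f i v.1 = v.2 ∧ i ∉ K (cl v))).card : ℕ) : ℝ) ≤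
        B * r * N + 2 * V.card := by exact_mod_cast hout
    linarith
  have hs5 : (2 * B + 2) * (r : ℝ) ^ 2 * (m * Q) + B * r * N ≤ k * N / 2 := by
    have h3 : (2 * B + 2) * (r : ℝ) ^ 2 * (m * Q) = (r * N) * (m * (2 * B + 2) * lam B N) := by
      rw [hQ]; field_simp
    have h4 : (m : ℝ) * (2 * B + 2) * lam B N + B ≤ c2 * L := by
      rw [hc2]
      have h5 : (m : ℝ) * (2 * B + 2) * lam B N ≤ m * (2 * B + 2) * (c0 * L) := by gcongr
      have h6 : (B : ℝ) ≤ 2 * B * L := by nlinarith [(Nat.cast_nonneg B : (0 : ℝ) ≤ B)]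
      nlinarith
    calc (2 * B + 2) * (r : ℝ) ^ 2 * (m * Q) + B * r * N
        = (r * N) * (m * (2 * B + 2) * lam B N + B) := by rw [h3]; ring
      _ ≤ (r * N) * (c2 * L) := by gcongr
      _ = (r * (2 * (c2 * L))) * N / 2 := by ring
      _ ≤ k * N / 2 := by gcongr
  have hmain : (k : ℝ) * N / 2 ≤ θ * V.card + 2 * V.card := by linarith
  refine fin1 (A := A) hNr (Nat.cast_nonneg _) hLpos hc0p hc2p hk0 hr0 hrM2 hlm0 hlm ?_ ?_ θ hθ0 hθ
    hmain
  · rw [hC]
    have : 0 ≤ 4 * c2 + 4 ^ (m + 1) * A * (4 * c0 * c2) ^ m := by positivity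
    linarith
  · rw [hC]
    have : 0 ≤ 4 * c2 + 8 * (4 : ℝ) ^ m := by positivity
    linarith

end Pool.Agent.NH60.TP
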