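import Pool.Agent.NH60.TP.Stm

/-!
Project TP: a rotation to general position, and the reduction of R5 to R5G.
-/

set_option autoImplicit false

namespace Pool.Agent.NH60.TP

open Finset
open scoped Classical

namespace ROTR5

open Polynomial in
/-- the polynomial whose roots are the bad parameters -/
noncomputable def bad (w1 w2 a : ℝ) : ℝ[X] :=
  ((1 - X ^ 2) * C w2 + C 2 * X * C w1) ^ 2 - C (a ^ 2) * (1 + X ^ 2) ^ 2

lemma bad_eval (w1 w2 a t : ℝ) : (bad w1 w2 a).eval t =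
    ((1 - t ^ 2) * w2 + 2 * t * w1) ^ 2 - a ^ 2 * (1 + t ^ 2) ^ 2 := by
  simp [bad]

lemma bad_ne {w1 w2 a : ℝ} (ha : a ≠ 0) : bad w1 w2 a ≠ 0 := by
  intro h
  have e : ∀ t : ℝ, ((1 - t ^ 2) * w2 + 2 * t * w1) ^ 2 - a ^ 2 * (1 + t ^ 2) ^ 2 = 0 := by
    intro t
    rw [← bad_eval, h, Polynomial.eval_zero]
  have e0 := e 0
  have e1 := e 1
  have e2 := e (1 / 2)
  have e3 := e (-1 / 2)
  have h1 : w1 * w2 = 0 := by linarith
  have h2 : w2 ^ 2 = a ^ 2 := by linarith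
  have h3 : w1 ^ 2 = a ^ 2 := by linarith
  have h4 : (w1 * w2) ^ 2 = a ^ 2 * a ^ 2 := by rw [mul_pow, h2, h3]
  rw [h1] at h4
  have : 0 < a ^ 2 := by positivity
  nlinarith

/-- the rotation -/
noncomputable def uu (t : ℝ) : ℂ := ⟨(1 - t ^ 2) / (1 + t ^ 2), 2 * t / (1 + t ^ 2)⟩

lemma norm_uu (t : ℝ) : ‖uu t‖ = 1 := by
  have h0 : (1 + t ^ 2 : ℝ) ≠ 0 := by positivity
  have h : ‖uu t‖ ^ 2 = 1 := by
    rw [Complex.sq_norm, Complex.normSq_apply]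
    unfold uu
    field_simp
    ring
  exact (pow_eq_one_iff_of_nonneg (norm_nonneg _) two_ne_zero).1 h

lemma dist_mul {u : ℂ} (hu : ‖u‖ = 1) (x y : ℂ) : dist (u * x) (u * y) = dist x y := by
  rw [Complex.dist_eq, Complex.dist_eq, ← mul_sub, norm_mul, hu, one_mul]

lemma good_of {τ : ℂ × ℂ × ℝ} (h : τ.2.2 ≠ 0 ∧ |τ.2.2| < dist τ.1 τ.2.1) {t : ℝ}
    (ht : (bad (τ.2.1 - τ.1).re (τ.2.1 - τ.1).im τ.2.2).eval t ≠ 0) :
    GoodT (uu t * τ.1, uu t * τ.2.1, τ.2.2) := by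
  refine ⟨h.1, ?_, ?_⟩
  · change |τ.2.2| < dist (uu t * τ.1) (uu t * τ.2.1)
    rw [dist_mul (norm_uu t)]
    exact h.2
  · change τ.2.2 ^ 2 ≠ (uu t * τ.2.1 - uu t * τ.1).im ^ 2
    intro h1
    apply ht
    have h0 : (1 + t ^ 2 : ℝ) ≠ 0 := by positivity
    have h2 : (uu t * τ.2.1 - uu t * τ.1).im * (1 + t ^ 2) =
        (1 - t ^ 2) * (τ.2.1 - τ.1).im + 2 * t * (τ.2.1 - τ.1).re := by
      rw [← mul_sub, Complex.mul_im]
      unfold uu
      field_simp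
    rw [bad_eval, ← h2, h1]
    ring

end ROTR5

open ROTR5

theorem rot : S_ROT := by
  intro H hH
  have h1 : ∏ τ ∈ H, bad (τ.2.1 - τ.1).re (τ.2.1 - τ.1).im τ.2.2 ≠ 0 :=
    Finset.prod_ne_zero_iff.2 fun τ hτ => bad_ne (hH τ hτ).1
  obtain ⟨t, ht⟩ : ∃ t : ℝ, (∏ τ ∈ H, bad (τ.2.1 - τ.1).re (τ.2.1 - τ.1).im τ.2.2).eval t ≠ 0 := by
    by_contra hc
    push Not at hc
    exact h1 (Polynomial.funext fun t => by rw [hc t, Polynomial.eval_zero])
  rw [Polynomial.eval_prod, Finset.prod_ne_zero_iff] at ht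
  exact ⟨uu t, norm_uu t, fun τ hτ => good_of (hH τ hτ) (ht τ hτ)⟩

namespace ROTR5

lemma mem_TT {P : Finset ℂ} {τ : ℂ × ℂ × ℝ} (h : τ ∈ TT P) : |τ.2.2| < dist τ.1 τ.2.1 := by
  unfold TT at h
  rw [mem_image] at h
  obtain ⟨e, he, rfl⟩ := h
  rw [mem_filter] at he
  exact he.2.2

lemma card_TT (P : Finset ℂ) : (TT P).card ≤ P.card ^ 3 := by
  unfold TT
  refine card_image_le.trans ((card_filter_le _ _).trans ?_)
  rw [card_product, card_product]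
  apply le_of_eq
  ring

lemma hh_rot {u : ℂ} (hu : ‖u‖ = 1) (P : Finset ℂ) (x y : ℂ) (a : ℝ) :
    (hh (P.image (fun q => u * q)) (u * x) (u * y) a).card = (hh P x y a).card := by
  have hu0 : u ≠ 0 := by
    rintro rfl
    rw [norm_zero] at hu
    exact zero_ne_one hu
  have e : hh (P.image (fun q => u * q)) (u * x) (u * y) a = (hh P x y a).image (fun q => u * q) := by
    unfold hh
    ext z
    simp only [mem_filter, mem_image]
    constructor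
    · rintro ⟨⟨q, hq, rfl⟩, h⟩
      rw [dist_mul hu, dist_mul hu] at h
      exact ⟨q, ⟨hq, h⟩, rfl⟩
    · rintro ⟨q, ⟨hq, h⟩, rfl⟩
      refine ⟨⟨q, hq, rfl⟩, ?_⟩
      rw [dist_mul hu, dist_mul hu]
      exact h
  rw [e, card_image_of_injective _ (mul_right_injective₀ hu0)]

end ROTR5

theorem r5 (h1 : S_R5G) (h2 : S_ROT) : S_R5 := by
  obtain ⟨C0, hC0, hG⟩ := h1
  refine ⟨3 ^ 8 * C0 + 3 * C0, by positivity, ?_⟩
  intro P k hk
  set H0 := (TT P).filter (fun τ => τ.2.2 ≠ 0 ∧ k ≤ (hh P τ.1 τ.2.1 τ.2.2).card) with hH0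
  obtain ⟨u, hu, hgood⟩ := h2 H0 (fun τ hτ => by
    rw [hH0, mem_filter] at hτ
    exact ⟨hτ.2.1, mem_TT hτ.1⟩)
  have hu0 : u ≠ 0 := by
    rintro rfl
    rw [norm_zero] at hu
    exact zero_ne_one hu
  have hinj : Function.Injective (fun τ : ℂ × ℂ × ℝ => (u * τ.1, u * τ.2.1, τ.2.2)) := by
    rintro ⟨x, y, a⟩ ⟨x', y', a'⟩ h
    simp only [Prod.mk.injEq] at h
    obtain ⟨e1, e2, e3⟩ := h
    rw [mul_right_injective₀ hu0 e1, mul_right_injective₀ hu0 e2, e3]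
  set H := H0.image (fun τ : ℂ × ℂ × ℝ => (u * τ.1, u * τ.2.1, τ.2.2)) with hH
  have hcard : H.card = H0.card := card_image_of_injective _ hinj
  have hP : (P.image (fun q => u * q)).card = P.card :=
    card_image_of_injective _ (mul_right_injective₀ hu0)
  have hle : H.card ≤ P.card ^ 3 := by
    rw [hcard]
    exact (card_filter_le _ _).trans (card_TT P)
  have hn : (0 : ℝ) ≤ P.card := Nat.cast_nonneg _
  have hL : 0 ≤ Real.log (P.card + 2) := Real.log_nonneg (by linarith)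
  have hlog : Real.log (H.card + 2) ≤ 3 * Real.log (P.card + 2) := by
    have e : 3 * Real.log (P.card + 2) = Real.log (((P.card : ℝ) + 2) ^ 3) := by
      rw [Real.log_pow]
      norm_num
    rw [e]
    apply Real.log_le_log (by positivity)
    have h3 : (H.card : ℝ) ≤ (P.card : ℝ) ^ 3 := by exact_mod_cast hle
    nlinarith [sq_nonneg (P.card : ℝ)]
  have hlog0 : 0 ≤ Real.log (H.card + 2) := Real.log_nonneg (by
    have : (0 : ℝ) ≤ H.card := Nat.cast_nonneg _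
    linarith)
  have key := hG (P.image (fun q => u * q)) H k (fun τ hτ => by
    rw [hH, mem_image] at hτ
    obtain ⟨σ, hσ, rfl⟩ := hτ
    refine ⟨hgood σ hσ, ?_⟩
    rw [hH0, mem_filter] at hσ
    change k ≤ (hh (P.image (fun q => u * q)) (u * σ.1) (u * σ.2.1) σ.2.2).card
    rw [hh_rot hu]
    exact hσ.2.2) (by
      calc C0 * Real.log (H.card + 2) ≤ C0 * (3 * Real.log (P.card + 2)) := by gcongr
        _ ≤ (3 ^ 8 * C0 + 3 * C0) * Real.log (P.card + 2) := by nlinarith [mul_nonneg hC0.le hL]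
        _ ≤ k := hk)
  rw [hcard, hP] at key
  rw [hcard] at hlog hlog0
  calc (H0.card : ℝ) * k ^ 9 ≤ C0 * Real.log (H0.card + 2) ^ 8 *
        ((P.card : ℝ) ^ 5 + (P.card : ℝ) * (k : ℝ) ^ 8) := key
    _ ≤ C0 * (3 * Real.log (P.card + 2)) ^ 8 *
        ((P.card : ℝ) ^ 5 + (P.card : ℝ) * (k : ℝ) ^ 8) := by gcongr
    _ = 3 ^ 8 * C0 * Real.log (P.card + 2) ^ 8 *
        ((P.card : ℝ) ^ 5 + (P.card : ℝ) * (k : ℝ) ^ 8) := by ring
    _ ≤ (3 ^ 8 * C0 + 3 * C0) * Real.log (P.card + 2) ^ 8 *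
        ((P.card : ℝ) ^ 5 + (P.card : ℝ) * (k : ℝ) ^ 8) := by
      gcongr
      linarith

end Pool.Agent.NH60.TP
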