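import Pool.Agent.NH60.TP.Stm

/-!
Project TP: dyadic summation.
-/

set_option autoImplicit false

namespace Pool.Agent.NH60.TP

open Finset
open scoped Classical

namespace SUM

/-- the number of points on a branch -/
noncomputable def h (P : Finset ℂ) (τ : ℂ × ℂ × ℝ) : ℕ := (hh P τ.1 τ.2.1 τ.2.2).card

/-- the sum of the squares -/
noncomputable def Sm (P : Finset ℂ) (k : ℕ) : ℕ := ∑ τ ∈ (TT P).filter (fun τ => k ≤ h P τ), h P τ ^ 2

/-- the number of rich branches -/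
noncomputable def Nm (P : Finset ℂ) (k : ℕ) : ℕ := ((TT P).filter (fun τ => k ≤ h P τ)).card

theorem step (P : Finset ℂ) (k : ℕ) : Sm P k ≤ 4 * k ^ 2 * Nm P k + Sm P (2 * k) := by
  unfold Sm Nm
  rw [card_filter, mul_sum, sum_filter, sum_filter, ← sum_add_distrib]
  refine sum_le_sum fun τ _ => ?_
  by_cases h1 : k ≤ h P τ
  · rw [if_pos h1, if_pos h1]
    by_cases h2 : 2 * k ≤ h P τ
    · rw [if_pos h2]
      omega
    · rw [if_neg h2]
      push Not at h2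
      have h3 : h P τ ^ 2 ≤ (2 * k) ^ 2 := Nat.pow_le_pow_left h2.le 2
      have h4 : (2 * k) ^ 2 = 4 * k ^ 2 := by ring
      omega
  · rw [if_neg h1]
    omega

theorem zero {P : Finset ℂ} {f k : ℕ} (hf : ∀ τ ∈ TT P, h P τ ≤ 2 * f) (hk : 2 * f < k) :
    Sm P k = 0 := by
  unfold Sm
  rw [filter_eq_empty_iff.2, sum_empty]
  intro τ hτ h1
  have := hf τ hτ
  omega

theorem split (P : Finset ℂ) (k : ℕ) : Nm P k =
    ((TT P).filter (fun τ => τ.2.2 = 0 ∧ k ≤ h P τ)).card +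
      ((TT P).filter (fun τ => τ.2.2 ≠ 0 ∧ k ≤ h P τ)).card := by
  unfold Nm
  rw [card_filter, card_filter, card_filter, ← sum_add_distrib]
  refine sum_congr rfl fun τ _ => ?_
  by_cases h1 : k ≤ h P τ <;> by_cases h2 : τ.2.2 = 0 <;> simp [h1, h2]

/-- the bound at one scale -/
theorem one {n N0 N5 K L C : ℝ} (hn : 0 ≤ n) (hn1 : n ≤ n ^ 2) (hK : 0 < K) (hL : 69 / 100 ≤ L)
    (hC : 0 ≤ C) (h0 : N0 * K ^ 3 ≤ C * L ^ 2 * (n ^ 3 + n ^ 2 * K ^ 2))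
    (h5 : N5 * K ^ 9 ≤ C * L ^ 8 * (n ^ 5 + n * K ^ 8)) :
    4 * K ^ 2 * (N0 + N5) ≤ 40 * C * L ^ 8 * (n ^ 5 / K ^ 7 + n ^ 3 / K + 2 * n ^ 2 * K) := by
  have hL0 : 0 ≤ L := by linarith
  have e0 : K ^ 2 * N0 = N0 * K ^ 3 / K := by
    field_simp
  have e5 : K ^ 2 * N5 = N5 * K ^ 9 / K ^ 7 := by
    field_simp
  have a0 : K ^ 2 * N0 ≤ C * L ^ 2 * (n ^ 3 / K + n ^ 2 * K) := by
    rw [e0, div_le_iff₀ hK]
    refine h0.trans (le_of_eq ?_)
    field_simp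
  have a5 : K ^ 2 * N5 ≤ C * L ^ 8 * (n ^ 5 / K ^ 7 + n * K) := by
    rw [e5, div_le_iff₀ (by positivity)]
    refine h5.trans (le_of_eq ?_)
    field_simp
  have hL6 : (1 / 10 : ℝ) ≤ L ^ 6 := by
    have : (69 / 100 : ℝ) ^ 6 ≤ L ^ 6 := pow_le_pow_left₀ (by norm_num) hL 6
    refine le_trans ?_ this
    norm_num
  have hL2 : L ^ 2 ≤ 10 * L ^ 8 := by
    have e : 10 * L ^ 8 = L ^ 2 * (10 * L ^ 6) := by ring
    rw [e]
    have : 0 ≤ L ^ 2 := by positivity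
    nlinarith
  have b0 : C * L ^ 2 * (n ^ 3 / K + n ^ 2 * K) ≤ C * (10 * L ^ 8) * (n ^ 3 / K + n ^ 2 * K) := by
    refine mul_le_mul_of_nonneg_right (mul_le_mul_of_nonneg_left hL2 hC) ?_
    positivity
  have b5 : C * L ^ 8 * (n ^ 5 / K ^ 7 + n * K) ≤
      C * (10 * L ^ 8) * (n ^ 5 / K ^ 7 + n ^ 2 * K) := by
    have c1 : 0 ≤ n ^ 5 / K ^ 7 := by positivity
    have c2 : n * K ≤ n ^ 2 * K := mul_le_mul_of_nonneg_right hn1 hK.le
    have c3 : 0 ≤ n * K := by positivity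
    have c4 : C * L ^ 8 ≤ C * (10 * L ^ 8) := by
      refine mul_le_mul_of_nonneg_left ?_ hC
      have : 0 ≤ L ^ 8 := by positivity
      linarith
    exact mul_le_mul c4 (by linarith) (by linarith) (by positivity)
  have e : 40 * C * L ^ 8 * (n ^ 5 / K ^ 7 + n ^ 3 / K + 2 * n ^ 2 * K) =
      4 * (C * (10 * L ^ 8) * (n ^ 3 / K + n ^ 2 * K)) +
      4 * (C * (10 * L ^ 8) * (n ^ 5 / K ^ 7 + n ^ 2 * K)) := by ring
  rw [e]
  nlinarith

/-- the induction -/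
theorem ind {P : Finset ℂ} {f : ℕ} {M n : ℝ} {k₀ : ℕ} (hM : 0 ≤ M) (hn : 0 ≤ n) (hk₀ : 1 ≤ k₀)
    (hf : ∀ τ ∈ TT P, h P τ ≤ 2 * f)
    (hone : ∀ k : ℕ, k₀ ≤ k → 4 * (k : ℝ) ^ 2 * Nm P k ≤
      M * (n ^ 5 / (k : ℝ) ^ 7 + n ^ 3 / k + 2 * n ^ 2 * k)) (t : ℕ) :
    ∀ k : ℕ, k₀ ≤ k → k ≤ 2 * f → 2 * f - k ≤ t →
      (Sm P k : ℝ) ≤ M * (2 * (n ^ 5 / (k : ℝ) ^ 7) + 2 * (n ^ 3 / k) + n ^ 2 * (8 * f - 2 * k)) := by
  induction t with
  | zero =>
    intro k hk hkf ht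
    have hk0 : (0 : ℝ) < k := by exact_mod_cast (by omega : 0 < k)
    have h1 : (Sm P k : ℝ) ≤ 4 * (k : ℝ) ^ 2 * Nm P k + Sm P (2 * k) := by exact_mod_cast step P k
    rw [zero hf (by omega : 2 * f < 2 * k)] at h1
    have h2 := hone k hk
    have h3 : (k : ℝ) = 2 * f := by exact_mod_cast (by omega : k = 2 * f)
    have h4 : 0 ≤ n ^ 5 / (k : ℝ) ^ 7 := by positivity
    have h5 : 0 ≤ n ^ 3 / (k : ℝ) := by positivity
    refine h1.trans ?_
    rw [Nat.cast_zero, add_zero]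
    refine h2.trans (mul_le_mul_of_nonneg_left ?_ hM)
    have h6 : 0 ≤ n ^ 2 := by positivity
    nlinarith
  | succ t ih =>
    intro k hk hkf ht
    have hk0 : (0 : ℝ) < k := by exact_mod_cast (by omega : 0 < k)
    have h1 : (Sm P k : ℝ) ≤ 4 * (k : ℝ) ^ 2 * Nm P k + Sm P (2 * k) := by exact_mod_cast step P k
    have h2 := hone k hk
    have h4 : 0 ≤ n ^ 5 / (k : ℝ) ^ 7 := by positivity
    have h5 : 0 ≤ n ^ 3 / (k : ℝ) := by positivity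
    have h6 : 0 ≤ n ^ 2 := by positivity
    have hkf' : (k : ℝ) ≤ 2 * f := by exact_mod_cast hkf
    by_cases h7 : 2 * k ≤ 2 * f
    · have h8 := ih (2 * k) (by omega) h7 (by omega)
      push_cast at h8
      have e7 : n ^ 5 / (2 * (k : ℝ)) ^ 7 = n ^ 5 / (k : ℝ) ^ 7 / 128 := by
        rw [mul_pow]
        field_simp
        norm_num
      have e1 : n ^ 3 / (2 * (k : ℝ)) = n ^ 3 / k / 2 := by
        field_simp
      rw [e7, e1] at h8
      have e : M * (2 * (n ^ 5 / (k : ℝ) ^ 7) + 2 * (n ^ 3 / k) + n ^ 2 * (8 * f - 2 * k)) =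
        M * (n ^ 5 / (k : ℝ) ^ 7 + n ^ 3 / k + 2 * n ^ 2 * k) +
        M * (2 * (n ^ 5 / (k : ℝ) ^ 7 / 128) + 2 * (n ^ 3 / k / 2) +
          n ^ 2 * (8 * f - 2 * (2 * k))) + M * (n ^ 5 / (k : ℝ) ^ 7) * (63 / 64) := by ring
      rw [e]
      have h9 : 0 ≤ M * (n ^ 5 / (k : ℝ) ^ 7) * (63 / 64) := by positivity
      linarith
    · rw [zero hf (by omega : 2 * f < 2 * k)] at h1
      refine h1.trans ?_
      rw [Nat.cast_zero, add_zero]
      refine h2.trans (mul_le_mul_of_nonneg_left ?_ hM)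
      nlinarith

end SUM

open SUM

theorem sum (h1 : S_R0) (h2 : S_R5) (h3 : S_H2F) : S_SUM := by
  obtain ⟨C0, hC0, H0⟩ := h1
  obtain ⟨C5, hC5, H5⟩ := h2
  set C1 : ℝ := max C0 C5 with hC1
  have hC1p : 0 < C1 := lt_max_of_lt_left hC0
  refine ⟨320 * C1 + 2, by positivity, ?_⟩
  intro P D hPD k hk
  have hf : ∀ τ ∈ TT P, h P τ ≤ 2 * D.card := h3 P D hPD
  set n : ℝ := (P.card : ℝ) with hn
  have hn0 : 0 ≤ n := Nat.cast_nonneg _
  set L : ℝ := Real.log (n + 2) with hL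
  have hL69 : 69 / 100 ≤ L := by
    have h4 := Real.log_two_gt_d9
    have h5 : Real.log 2 ≤ L := Real.log_le_log (by norm_num) (by linarith)
    linarith
  have hL0 : 0 < L := by linarith
  have hn1 : n ≤ n ^ 2 := by
    rw [hn]
    exact_mod_cast Nat.le_self_pow two_ne_zero _
  have hk1 : (1 : ℝ) < k := by nlinarith [mul_pos hC1p hL0]
  have hk1' : 1 ≤ k := by
    have : 1 < k := by exact_mod_cast hk1
    omega
  have hC0L : C0 * L ≤ k := by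
    have : C0 ≤ C1 := le_max_left _ _
    nlinarith [mul_pos hC1p hL0]
  have hC5L : C5 * L ≤ k := by
    have : C5 ≤ C1 := le_max_right _ _
    nlinarith [mul_pos hC1p hL0]
  have hone : ∀ k' : ℕ, k ≤ k' → 4 * (k' : ℝ) ^ 2 * Nm P k' ≤
      40 * C1 * L ^ 8 * (n ^ 5 / (k' : ℝ) ^ 7 + n ^ 3 / k' + 2 * n ^ 2 * k') := by
    intro k' hk'
    have hkk : (k : ℝ) ≤ k' := by exact_mod_cast hk'
    have g0 := H0 P k' (hC0L.trans hkk)
    have g5 := H5 P k' (hC5L.trans hkk)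
    rw [split]
    push_cast
    refine one hn0 hn1 (by linarith) hL69 hC1p.le (g0.trans ?_) (g5.trans ?_)
    · refine mul_le_mul_of_nonneg_right (mul_le_mul_of_nonneg_right (le_max_left _ _) ?_) ?_ <;>
        positivity
    · refine mul_le_mul_of_nonneg_right (mul_le_mul_of_nonneg_right (le_max_right _ _) ?_) ?_ <;>
        positivity
  have hfin : (Sm P k : ℝ) ≤ 40 * C1 * L ^ 8 * (2 * (n ^ 5 / (k : ℝ) ^ 7) + 2 * (n ^ 3 / k) +
      8 * (n ^ 2 * D.card)) := by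
    by_cases hkf : k ≤ 2 * D.card
    · have g := ind (by positivity) hn0 hk1' hf hone _ k le_rfl hkf le_rfl
      refine g.trans (mul_le_mul_of_nonneg_left ?_ (by positivity))
      have : 0 ≤ n ^ 2 * (k : ℝ) := by positivity
      nlinarith
    · rw [zero hf (by omega)]
      rw [Nat.cast_zero]
      positivity
  refine hfin.trans ?_
  have p7 : 0 ≤ n ^ 5 / (k : ℝ) ^ 7 := by positivity
  have p1 : 0 ≤ n ^ 3 / (k : ℝ) := by positivity
  have p0 : 0 ≤ n ^ 2 * (D.card : ℝ) := by positivity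
  have pC : 0 ≤ C1 * L ^ 8 := by positivity
  have pL : 0 ≤ L ^ 8 := by positivity
  have s1 : 40 * C1 * L ^ 8 * (2 * (n ^ 5 / (k : ℝ) ^ 7) + 2 * (n ^ 3 / k) +
      8 * (n ^ 2 * D.card)) ≤ 320 * C1 * L ^ 8 * (n ^ 5 / (k : ℝ) ^ 7 + n ^ 3 / k +
      n ^ 2 * D.card) := by
    have e : 320 * C1 * L ^ 8 * (n ^ 5 / (k : ℝ) ^ 7 + n ^ 3 / k + n ^ 2 * D.card) -
        40 * C1 * L ^ 8 * (2 * (n ^ 5 / (k : ℝ) ^ 7) + 2 * (n ^ 3 / k) +
          8 * (n ^ 2 * D.card)) = 240 * (C1 * L ^ 8) * (n ^ 5 / (k : ℝ) ^ 7 + n ^ 3 / k) := by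
      ring
    have : 0 ≤ 240 * (C1 * L ^ 8) * (n ^ 5 / (k : ℝ) ^ 7 + n ^ 3 / k) := by positivity
    linarith
  refine s1.trans ?_
  refine mul_le_mul_of_nonneg_right (mul_le_mul_of_nonneg_right (by linarith) pL) (by positivity)

end Pool.Agent.NH60.TP
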