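import Pool.Agent.NH60.TP.Stm

/-!
Project TP: counting the trapezoids.
-/

set_option autoImplicit false

namespace Pool.Agent.NH60.TP

open Finset
open scoped Classical

namespace TCT

variable {ι : Type} {f : ι → ℝ → ℝ} {R : Finset ι} {τ τ' : Trap ι}

/-- between the walls -/
def Btw (τ : Trap ι) (x : ℝ) : Prop := (∀ l ∈ τ.l, l < x) ∧ ∀ u ∈ τ.r, x < u

theorem F2 (hf : ∀ i, Continuous (f i)) (h : IsTrap f R τ) {i j : ι} (hi : i ∈ τ.b)
    (hj : j ∈ τ.t) {x : ℝ} (hx : Btw τ x) : f i x < f j x := by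
  obtain ⟨w, -, hw⟩ := h.ne
  have hw1 : f i w.1 < f j w.1 := (hw.1 i hi).trans (hw.2.1 j hj)
  have hij : j ≠ i := by
    rintro rfl
    exact lt_irrefl _ hw1
  by_contra hle
  push Not at hle
  have hcont : Continuous fun z => f j z - f i z := (hf j).sub (hf i)
  have hno : ∀ z, Btw τ z → f j z ≠ f i z := by
    intro z hz he
    exact (h.noev z hz.1 hz.2).1 ⟨i, hi, j, h.tR j hj, hij, he⟩
  rcases le_total x w.1 with hxw | hxw
  · have h1 := intermediate_value_Icc hxw hcont.continuousOn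
    obtain ⟨z, hz, hz0⟩ := h1 (show (0 : ℝ) ∈ Set.Icc (f j x - f i x) (f j w.1 - f i w.1) from
      ⟨by linarith, by linarith⟩)
    exact hno z ⟨fun l hl => lt_of_lt_of_le (hx.1 l hl) hz.1,
      fun u hu => lt_of_le_of_lt hz.2 (hw.2.2.2 u hu)⟩ (sub_eq_zero.1 hz0)
  · have h1 := intermediate_value_Icc' hxw hcont.continuousOn
    obtain ⟨z, hz, hz0⟩ := h1 (show (0 : ℝ) ∈ Set.Icc (f j x - f i x) (f j w.1 - f i w.1) from
      ⟨by linarith, by linarith⟩)
    exact hno z ⟨fun l hl => lt_of_lt_of_le (hw.2.2.1 l hl) hz.1,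
      fun u hu => lt_of_le_of_lt hz.2 (hx.2 u hu)⟩ (sub_eq_zero.1 hz0)

/-- one half of the comparison of the tops -/
theorem top_le (hf : ∀ i, Continuous (f i)) (h : IsTrap f R τ) (h' : IsTrap f R τ')
    (hb : τ.b = τ'.b) {x : ℝ} (hx : Btw τ x) (hx' : Btw τ' x) {j : ι} (hj : j ∈ τ.t) :
    ∃ j' ∈ τ'.t, f j' x ≤ f j x := by
  by_contra hcon
  push Not at hcon
  refine h'.nocr j (h.tR j hj) ⟨x, fun i hi => ?_, fun i hi => hcon i hi, hx'.1, hx'.2⟩
  exact F2 hf h (hb ▸ hi) hj hx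

theorem top_eq (hf : ∀ i, Continuous (f i)) (h : IsTrap f R τ) (h' : IsTrap f R τ')
    (hb : τ.b = τ'.b) {x : ℝ} (hx : Btw τ x) (hx' : Btw τ' x) : τ.t = τ'.t := by
  rcases ht : τ.t with _ | j
  · rcases ht' : τ'.t with _ | j'
    · rfl
    · obtain ⟨j, hj, -⟩ := top_le hf h' h hb.symm hx' hx (j := j') (by rw [ht']; rfl)
      rw [ht] at hj
      exact absurd hj (by simp)
  · obtain ⟨j', hj', hle⟩ := top_le hf h h' hb hx hx' (j := j) (by rw [ht]; rfl)
    obtain ⟨j2, hj2, hle2⟩ := top_le hf h' h hb.symm hx' hx (j := j') hj'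
    rw [ht] at hj2
    have hjj : j = j2 := by
      rw [Option.mem_def] at hj2
      exact Option.some_injective _ hj2
    subst hjj
    have hee : f j' x = f j x := le_antisymm hle hle2
    by_cases hjj' : j' = j
    · subst hjj'
      rw [Option.mem_def] at hj'
      exact hj'.symm
    · exact absurd ⟨j, by rw [ht]; rfl, j', h'.tR j' hj', hjj', hee⟩ (h.noev x hx.1 hx.2).2

theorem bot_ge (hf : ∀ i, Continuous (f i)) (h : IsTrap f R τ) (h' : IsTrap f R τ')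
    (hb : τ.t = τ'.t) {x : ℝ} (hx : Btw τ x) (hx' : Btw τ' x) {j : ι} (hj : j ∈ τ.b) :
    ∃ j' ∈ τ'.b, f j x ≤ f j' x := by
  by_contra hcon
  push Not at hcon
  refine h'.nocr j (h.bR j hj) ⟨x, fun i hi => hcon i hi, fun i hi => ?_, hx'.1, hx'.2⟩
  exact F2 hf h hj (hb ▸ hi) hx

theorem bot_eq (hf : ∀ i, Continuous (f i)) (h : IsTrap f R τ) (h' : IsTrap f R τ')
    (hb : τ.t = τ'.t) {x : ℝ} (hx : Btw τ x) (hx' : Btw τ' x) : τ.b = τ'.b := by
  rcases ht : τ.b with _ | j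
  · rcases ht' : τ'.b with _ | j'
    · rfl
    · obtain ⟨j, hj, -⟩ := bot_ge hf h' h hb.symm hx' hx (j := j') (by rw [ht']; rfl)
      rw [ht] at hj
      exact absurd hj (by simp)
  · obtain ⟨j', hj', hle⟩ := bot_ge hf h h' hb hx hx' (j := j) (by rw [ht]; rfl)
    obtain ⟨j2, hj2, hle2⟩ := bot_ge hf h' h hb.symm hx' hx (j := j') hj'
    rw [ht] at hj2
    have hjj : j = j2 := by
      rw [Option.mem_def] at hj2
      exact Option.some_injective _ hj2
    subst hjj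
    have hee : f j' x = f j x := le_antisymm hle2 hle
    by_cases hjj' : j' = j
    · subst hjj'
      rw [Option.mem_def] at hj'
      exact hj'.symm
    · exact absurd ⟨j, by rw [ht]; rfl, j', h'.bR j' hj', hjj', hee⟩ (h.noev x hx.1 hx.2).1

theorem common (h : IsTrap f R τ) (h' : IsTrap f R τ') (hl : τ.l = τ'.l) :
    ∃ x, Btw τ x ∧ Btw τ' x := by
  obtain ⟨w, -, hw⟩ := h.ne
  obtain ⟨w', -, hw'⟩ := h'.ne
  refine ⟨min w.1 w'.1, ⟨fun l hl1 => lt_min (hw.2.2.1 l hl1) (hw'.2.2.1 l (hl ▸ hl1)),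
    fun u hu => (min_le_left _ _).trans_lt (hw.2.2.2 u hu)⟩,
    ⟨fun l hl1 => lt_min (hw.2.2.1 l (hl ▸ hl1)) (hw'.2.2.1 l hl1),
    fun u hu => (min_le_right _ _).trans_lt (hw'.2.2.2 u hu)⟩⟩

theorem right_le (h : IsTrap f R τ) (h' : IsTrap f R τ') (hl : τ.l = τ'.l) (hb : τ.b = τ'.b)
    (ht : τ.t = τ'.t) {u : ℝ} (hu : u ∈ τ.r) : ∃ u' ∈ τ'.r, u' ≤ u := by
  by_contra hcon
  push Not at hcon
  obtain ⟨w, -, hw⟩ := h.ne
  have h1 := h'.noev u (fun l hl1 => (hw.2.2.1 l (hl ▸ hl1)).trans (hw.2.2.2 u hu)) hcon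
  rcases h.rev u hu with h2 | h2
  · exact h1.1 (hb ▸ h2)
  · exact h1.2 (ht ▸ h2)

theorem right_eq (h : IsTrap f R τ) (h' : IsTrap f R τ') (hl : τ.l = τ'.l) (hb : τ.b = τ'.b)
    (ht : τ.t = τ'.t) : τ.r = τ'.r := by
  rcases hr : τ.r with _ | u
  · rcases hr' : τ'.r with _ | u'
    · rfl
    · obtain ⟨u, hu, -⟩ := right_le h' h hl.symm hb.symm ht.symm (u := u') (by rw [hr']; rfl)
      rw [hr] at hu
      exact absurd hu (by simp)
  · obtain ⟨u', hu', hle⟩ := right_le h h' hl hb ht (u := u) (by rw [hr]; rfl)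
    obtain ⟨u2, hu2, hle2⟩ := right_le h' h hl.symm hb.symm ht.symm (u := u') hu'
    rw [hr] at hu2
    have hjj : u = u2 := by
      rw [Option.mem_def] at hu2
      exact Option.some_injective _ hu2
    subst hjj
    have hee : u' = u := le_antisymm hle hle2
    subst hee
    rw [Option.mem_def] at hu'
    exact hu'.symm

theorem eq_of_b (hf : ∀ i, Continuous (f i)) (h : IsTrap f R τ) (h' : IsTrap f R τ')
    (hl : τ.l = τ'.l) (hb : τ.b = τ'.b) : τ = τ' := by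
  obtain ⟨x, hx, hx'⟩ := common h h' hl
  have ht := top_eq hf h h' hb hx hx'
  have hr := right_eq h h' hl hb ht
  cases τ
  cases τ'
  simp only at hl hb ht hr
  rw [hl, hb, ht, hr]

theorem eq_of_t (hf : ∀ i, Continuous (f i)) (h : IsTrap f R τ) (h' : IsTrap f R τ')
    (hl : τ.l = τ'.l) (ht : τ.t = τ'.t) : τ = τ' := by
  obtain ⟨x, hx, hx'⟩ := common h h' hl
  exact eq_of_b hf h h' hl (bot_eq hf h h' ht hx hx')

/-- the events -/
noncomputable def evs (f : ι → ℝ → ℝ) (B : ℕ) (hf : Fam f B) (R : Finset ι) (i : ι) : Finset ℝ :=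
  R.biUnion fun g => if h : g ≠ i then (hf.2 g i h).1.toFinset else ∅

theorem evs_card {B : ℕ} (hf : Fam f B) (R : Finset ι) (i : ι) :
    (evs f B hf R i).card ≤ R.card * B := by
  unfold evs
  refine Finset.card_biUnion_le_card_mul _ _ _ fun g _ => ?_
  split_ifs with h
  · rw [← Set.ncard_eq_toFinset_card _ (hf.2 g i h).1]
    exact (hf.2 g i h).2
  · simp

theorem mem_evs {B : ℕ} (hf : Fam f B) {R : Finset ι} {i : ι} {x : ℝ}
    (h : Ev f R (some i) x) : x ∈ evs f B hf R i := by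
  obtain ⟨i', hi', g, hg, hgi, he⟩ := h
  have : i' = i := by
    rw [Option.mem_def] at hi'
    exact (Option.some_injective _ hi').symm
  subst this
  unfold evs
  rw [Finset.mem_biUnion]
  refine ⟨g, hg, ?_⟩
  rw [dif_pos hgi, Set.Finite.mem_toFinset]
  exact he

/-- the keys -/
noncomputable def keys (f : ι → ℝ → ℝ) (B : ℕ) (hf : Fam f B) (R : Finset ι) :
    Finset (Option ℝ × Option ι) :=
  R.biUnion fun i => (evs f B hf R i).image fun x => (some x, some i)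

theorem keys_card {B : ℕ} (hf : Fam f B) (R : Finset ι) :
    (keys f B hf R).card ≤ R.card * (R.card * B) := by
  unfold keys
  exact Finset.card_biUnion_le_card_mul _ _ _ fun g _ =>
    Finset.card_image_le.trans (evs_card hf R g)

theorem mem_keys {B : ℕ} (hf : Fam f B) {R : Finset ι} {o : Option ι} {l : Option ℝ} {x : ℝ}
    (hx : x ∈ l) (h : Ev f R o x) (ho : ∀ i ∈ o, i ∈ R) : (l, o) ∈ keys f B hf R := by
  obtain ⟨i, hi, h2⟩ := h
  rw [Option.mem_def] at hi hx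
  subst hi hx
  unfold keys
  rw [Finset.mem_biUnion]
  refine ⟨i, ho i rfl, ?_⟩
  rw [Finset.mem_image]
  exact ⟨x, mem_evs hf ⟨i, rfl, h2⟩, rfl⟩

end TCT

open TCT in
theorem tct : S_TCT := by
  intro ι _ f B hf R r hR hr
  have hc := hf.1
  have hr1 : 1 ≤ r := le_trans (Finset.card_pos.2 hR) hr
  -- the three classes
  have hsub : {τ : Trap ι | IsTrap f R τ} ⊆
      {τ | IsTrap f R τ ∧ (τ.l, τ.b) ∈ keys f B hf R} ∪
        ({τ | IsTrap f R τ ∧ (τ.l, τ.t) ∈ keys f B hf R} ∪ {τ | IsTrap f R τ ∧ τ.l = none}) := by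
    intro τ hτ
    rcases hl : τ.l with _ | x
    · exact Or.inr (Or.inr ⟨hτ, hl⟩)
    · rcases hτ.lev x (by rw [hl]; rfl) with h | h
      · exact Or.inl ⟨hτ, mem_keys hf (x := x) (by rw [hl]; rfl) h hτ.bR⟩
      · exact Or.inr (Or.inl ⟨hτ, mem_keys hf (x := x) (by rw [hl]; rfl) h hτ.tR⟩)
  have m0 : Set.MapsTo (fun τ : Trap ι => (τ.l, τ.b))
      {τ | IsTrap f R τ ∧ (τ.l, τ.b) ∈ keys f B hf R} (keys f B hf R : Set _) :=
    fun τ hτ => hτ.2
  have i0 : Set.InjOn (fun τ : Trap ι => (τ.l, τ.b))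
      {τ | IsTrap f R τ ∧ (τ.l, τ.b) ∈ keys f B hf R} := fun τ hτ τ' hτ' he =>
    eq_of_b hc hτ.1 hτ'.1 (congrArg Prod.fst he) (congrArg Prod.snd he)
  have m1 : Set.MapsTo (fun τ : Trap ι => (τ.l, τ.t))
      {τ | IsTrap f R τ ∧ (τ.l, τ.t) ∈ keys f B hf R} (keys f B hf R : Set _) :=
    fun τ hτ => hτ.2
  have i1 : Set.InjOn (fun τ : Trap ι => (τ.l, τ.t))
      {τ | IsTrap f R τ ∧ (τ.l, τ.t) ∈ keys f B hf R} := fun τ hτ τ' hτ' he =>
    eq_of_t hc hτ.1 hτ'.1 (congrArg Prod.fst he) (congrArg Prod.snd he)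
  have m2 : Set.MapsTo (fun τ : Trap ι => τ.b)
      {τ | IsTrap f R τ ∧ τ.l = none} (insert none (R.image some) : Finset (Option ι)) := by
    intro τ hτ
    simp only [Finset.coe_insert, Finset.coe_image, Set.mem_insert_iff, Set.mem_image,
      Finset.mem_coe]
    rcases hb : τ.b with _ | i
    · exact Or.inl rfl
    · exact Or.inr ⟨i, hτ.1.bR i (by rw [hb]; rfl), rfl⟩
  have i2 : Set.InjOn (fun τ : Trap ι => τ.b) {τ | IsTrap f R τ ∧ τ.l = none} :=
    fun τ hτ τ' hτ' he => eq_of_b hc hτ.1 hτ'.1 (hτ.2.trans hτ'.2.symm) he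
  have f0 := Set.Finite.of_injOn m0 i0 (Finset.finite_toSet _)
  have f1 := Set.Finite.of_injOn m1 i1 (Finset.finite_toSet _)
  have f2 := Set.Finite.of_injOn m2 i2 (Finset.finite_toSet _)
  have n0 := Set.ncard_le_ncard_of_injOn _ m0 i0 (Finset.finite_toSet _)
  have n1 := Set.ncard_le_ncard_of_injOn _ m1 i1 (Finset.finite_toSet _)
  have n2 := Set.ncard_le_ncard_of_injOn _ m2 i2 (Finset.finite_toSet _)
  rw [Set.ncard_coe_finset] at n0 n1 n2
  have hk := keys_card hf R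
  have hk2 : R.card * (R.card * B) ≤ B * r ^ 2 := by
    calc R.card * (R.card * B) ≤ r * (r * B) :=
          Nat.mul_le_mul hr (Nat.mul_le_mul_right _ hr)
      _ = B * r ^ 2 := by ring
  have hk3 : (insert none (R.image some) : Finset (Option ι)).card ≤ 2 * r ^ 2 := by
    calc (insert none (R.image some) : Finset (Option ι)).card ≤ (R.image some).card + 1 :=
          Finset.card_insert_le _ _
      _ ≤ R.card + 1 := Nat.add_le_add_right Finset.card_image_le 1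
      _ ≤ 2 * r ^ 2 := by nlinarith
  refine ⟨(f0.union (f1.union f2)).subset hsub, ?_⟩
  calc {τ : Trap ι | IsTrap f R τ}.ncard
      ≤ ({τ | IsTrap f R τ ∧ (τ.l, τ.b) ∈ keys f B hf R} ∪
        ({τ | IsTrap f R τ ∧ (τ.l, τ.t) ∈ keys f B hf R} ∪
          {τ | IsTrap f R τ ∧ τ.l = none})).ncard :=
        Set.ncard_le_ncard hsub (f0.union (f1.union f2))
    _ ≤ {τ | IsTrap f R τ ∧ (τ.l, τ.b) ∈ keys f B hf R}.ncard +
        ({τ | IsTrap f R τ ∧ (τ.l, τ.t) ∈ keys f B hf R} ∪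
          {τ | IsTrap f R τ ∧ τ.l = none}).ncard := Set.ncard_union_le _ _
    _ ≤ {τ | IsTrap f R τ ∧ (τ.l, τ.b) ∈ keys f B hf R}.ncard +
        ({τ | IsTrap f R τ ∧ (τ.l, τ.t) ∈ keys f B hf R}.ncard +
          {τ | IsTrap f R τ ∧ τ.l = none}.ncard) :=
        Nat.add_le_add_left (Set.ncard_union_le _ _) _
    _ ≤ B * r ^ 2 + (B * r ^ 2 + 2 * r ^ 2) :=
        Nat.add_le_add (n0.trans (hk.trans hk2)) (Nat.add_le_add (n1.trans (hk.trans hk2))
          (n2.trans hk3))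
    _ = (2 * B + 2) * r ^ 2 := by ring

end Pool.Agent.NH60.TP
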