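import Pool.Agent.NH60.TP.Stm

/-!
Project TP, part TEX: every generic point is in a trapezoid of the vertical decomposition.
-/

set_option autoImplicit false

namespace Pool.Agent.NH60.TP

open Finset
open scoped Classical

namespace TEX

/-- an optional maximum -/
theorem opt {α : Type} (S : Finset α) (g : α → ℝ) :
    ∃ o : Option α, (∀ a ∈ o, a ∈ S) ∧ ∀ a ∈ S, ∃ a' ∈ o, g a ≤ g a' := by
  by_cases h : S.Nonempty
  · obtain ⟨m, hm, hmax⟩ := exists_max_image S g h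
    refine ⟨some m, ?_, fun a ha => ⟨m, Option.mem_some_self m, hmax a ha⟩⟩
    intro a ha
    rw [Option.mem_some_iff] at ha
    exact ha ▸ hm
  · refine ⟨none, ?_, fun a ha => absurd ⟨a, ha⟩ h⟩
    intro a ha
    simp at ha

/-- there are finitely many events -/
theorem evfin {ι : Type} {f : ι → ℝ → ℝ} {B : ℕ} (hF : Fam f B) (R : Finset ι) (o : Option ι) :
    {x | Ev f R o x}.Finite := by
  rcases o with _ | i
  · refine Set.Finite.subset Set.finite_empty ?_
    rintro x ⟨i, hi, -⟩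
    simp at hi
  · have h1 : (⋃ g ∈ R.filter (fun g => g ≠ i), {x | f g x = f i x}).Finite := by
      refine Set.Finite.biUnion (Finset.finite_toSet _) ?_
      intro g hg
      exact (hF.2 g i (mem_filter.1 (Finset.mem_coe.1 hg)).2).1
    refine h1.subset ?_
    rintro x ⟨j, hj, g, hg, hne, he⟩
    rw [Option.mem_some_iff] at hj
    subst hj
    rw [Set.mem_iUnion₂]
    exact ⟨g, mem_filter.2 ⟨hg, hne⟩, he⟩

/-- the walls bound the interval between two points -/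
theorem btw {l r : Option ℝ} {x x' : ℝ} (hl : ∀ a ∈ l, a < x) (hl' : ∀ a ∈ l, a < x')
    (hr : ∀ a ∈ r, x < a) (hr' : ∀ a ∈ r, x' < a) {z : ℝ} (hz : z ∈ Set.uIcc x x') :
    (∀ a ∈ l, a < z) ∧ ∀ a ∈ r, z < a := by
  rw [Set.mem_uIcc] at hz
  constructor
  · intro a ha
    have h1 := hl a ha
    have h2 := hl' a ha
    rcases hz with h | h <;> linarith [h.1, h.2]
  · intro a ha
    have h1 := hr a ha
    have h2 := hr' a ha
    rcases hz with h | h <;> linarith [h.1, h.2]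

/-- a zero of the difference -/
theorem ivt {g h : ℝ → ℝ} (hg : Continuous g) (hh : Continuous h) {x x' : ℝ} (h1 : g x ≤ h x)
    (h2 : h x' < g x') : ∃ z ∈ Set.uIcc x x', g z = h z := by
  have hc : ContinuousOn (fun z => g z - h z) (Set.uIcc x x') := (hg.sub hh).continuousOn
  have h3 : (0 : ℝ) ∈ Set.uIcc (g x - h x) (g x' - h x') := by
    rw [Set.mem_uIcc]
    left
    constructor <;> linarith
  obtain ⟨z, hz, hz0⟩ := intermediate_value_uIcc hc h3
  exact ⟨z, hz, sub_eq_zero.1 hz0⟩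

end TEX

open TEX in
theorem tex : S_TEX := by
  intro ι _ f B hF R w hG
  obtain ⟨x, y⟩ := w
  obtain ⟨b, hb1, hb2⟩ := opt (R.filter fun i => f i x < y) (fun i => f i x)
  obtain ⟨t, ht1, ht2⟩ := opt (R.filter fun i => y < f i x) (fun i => -f i x)
  have hfin : {z | Ev f R b z ∨ Ev f R t z}.Finite := (evfin hF R b).union (evfin hF R t)
  obtain ⟨l, hl1, hl2⟩ := opt (hfin.toFinset.filter fun z => z < x) (fun z => z)
  obtain ⟨r, hr1, hr2⟩ := opt (hfin.toFinset.filter fun z => x < z) (fun z => -z)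
  simp only [mem_filter, Set.Finite.mem_toFinset, Set.mem_ofPred_eq] at hb1 hb2 ht1 ht2 hl1 hl2 hr1 hr2
  have hG1 : ∀ i, f i x ≠ y := hG.1
  have hG2 : ∀ i j, i ≠ j → f i x ≠ f j x := hG.2
  have hlx : ∀ a ∈ l, a < x := fun a ha => (hl1 a ha).2
  have hrx : ∀ a ∈ r, x < a := fun a ha => (hr1 a ha).2
  have hins : Ins f ⟨b, t, l, r⟩ (x, y) :=
    ⟨fun i hi => (hb1 i hi).2, fun i hi => (ht1 i hi).2, hlx, hrx⟩
  have noev : ∀ z, (∀ a ∈ l, a < z) → (∀ a ∈ r, z < a) → ¬ (Ev f R b z ∨ Ev f R t z) := by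
    intro z hz1 hz2 hE
    rcases lt_trichotomy z x with h | h | h
    · obtain ⟨a, ha, h1⟩ := hl2 z ⟨hE, h⟩
      exact absurd (hz1 a ha) (not_lt.2 h1)
    · subst h
      rcases hE with ⟨i, -, g, -, hne, he⟩ | ⟨i, -, g, -, hne, he⟩
      · exact hG2 g i hne he
      · exact hG2 g i hne he
    · obtain ⟨a, ha, h1⟩ := hr2 z ⟨hE, h⟩
      have h2 := hz2 a ha
      linarith
  refine ⟨⟨b, t, l, r⟩, ?_, hins⟩
  refine ⟨⟨(x, y), hG, hins⟩, fun i hi => (hb1 i hi).1, fun i hi => (ht1 i hi).1,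
    fun a ha => (hl1 a ha).1, fun a ha => (hr1 a ha).1, ?_, ?_⟩
  · intro z hz1 hz2
    exact not_or.1 (noev z hz1 hz2)
  · rintro i hi ⟨x', hx'⟩
    obtain ⟨hb, ht, hl, hr⟩ := hx'
    rcases lt_or_gt_of_ne (hG1 i) with h | h
    · obtain ⟨j, hj, h1⟩ := hb2 i ⟨hi, h⟩
      have h2 : f j x' < f i x' := hb j hj
      have hne : i ≠ j := by
        rintro rfl
        exact lt_irrefl _ h2
      obtain ⟨z, hz, he⟩ := ivt (hF.1 i) (hF.1 j) h1 h2
      obtain ⟨g1, g2⟩ := btw hlx hl hrx hr hz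
      exact noev z g1 g2 (Or.inl ⟨j, hj, i, hi, hne, he⟩)
    · obtain ⟨j, hj, h1⟩ := ht2 i ⟨hi, h⟩
      have h2 : f i x' < f j x' := ht j hj
      have hne : i ≠ j := by
        rintro rfl
        exact lt_irrefl _ h2
      obtain ⟨z, hz, he⟩ := ivt (hF.1 j) (hF.1 i) (neg_le_neg_iff.1 h1) h2
      obtain ⟨g1, g2⟩ := btw hlx hl hrx hr hz
      exact noev z g1 g2 (Or.inr ⟨j, hj, i, hi, hne, he.symm⟩)

end Pool.Agent.NH60.TP
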