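import Pool.Agent.NH60.TP.Stm

/-!
Project TP: transfer of the theorem from the complex plane to the Euclidean plane.
-/

set_option autoImplicit false

namespace Pool.Agent.NH60.TP

open Finset
open scoped Classical

/-- the perimeters of the triangles (three-element subsets) of `P` -/
def perims (P : Finset (EuclideanSpace ℝ (Fin 2))) : Set ℝ :=
  {x | ∃ p ∈ P, ∃ q ∈ P, ∃ r ∈ P, p ≠ q ∧ q ≠ r ∧ p ≠ r ∧ x = dist p q + dist q r + dist r p}

theorem transfer (h : S_FIN) : ∃ c : ℝ, 0 < c ∧ ∀ P : Finset (EuclideanSpace ℝ (Fin 2)),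
    3 ≤ P.card → c * (P.card : ℝ) ^ ((6 : ℝ) / 7) / Real.log P.card ^ 2 ≤ (perims P).ncard := by
  obtain ⟨c, hc, h⟩ := h
  refine ⟨c, hc, fun P hP => ?_⟩
  set e : EuclideanSpace ℝ (Fin 2) ≃ₗᵢ[ℝ] ℂ := Complex.orthonormalBasisOneI.repr.symm with he
  have hD : (perims P).Finite := by
    have : perims P ⊆ ((P ×ˢ P ×ˢ P).image
        (fun t => dist t.1 t.2.1 + dist t.2.1 t.2.2 + dist t.2.2 t.1) : Finset ℝ) := by
      rintro x ⟨p, hp, q, hq, r, hr, -, -, -, rfl⟩
      rw [Finset.mem_coe, Finset.mem_image]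
      exact ⟨(p, q, r), by simp [hp, hq, hr], rfl⟩
    exact (Finset.finite_toSet _).subset this
  have hcard : (P.image e).card = P.card := Finset.card_image_of_injective _ e.injective
  have key := h (P.image e) hD.toFinset ?_ (by rw [hcard]; exact hP)
  · rw [hcard] at key
    have hlog : 0 < Real.log P.card := Real.log_pos (by exact_mod_cast (by omega : 1 < P.card))
    rw [div_le_iff₀ (by positivity), Set.ncard_eq_toFinset_card _ hD]
    exact key
  · intro p hp q hq r hr hpq hqr hpr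
    rw [Finset.mem_image] at hp hq hr
    obtain ⟨p', hp', rfl⟩ := hp
    obtain ⟨q', hq', rfl⟩ := hq
    obtain ⟨r', hr', rfl⟩ := hr
    rw [Set.Finite.mem_toFinset]
    refine ⟨p', hp', q', hq', r', hr', fun h => hpq (by rw [h]), fun h => hqr (by rw [h]),
      fun h => hpr (by rw [h]), ?_⟩
    simp only [e.dist_map]

end Pool.Agent.NH60.TP
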