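import Pool.Agent.NH60.TP.PERT
import Pool.Agent.NH60.TP.TEX
import Pool.Agent.NH60.TP.TCT
import Pool.Agent.NH60.TP.ALL
import Pool.Agent.NH60.TP.HIT
import Pool.Agent.NH60.TP.EXC
import Pool.Agent.NH60.TP.CUTA
import Pool.Agent.NH60.TP.KST
import Pool.Agent.NH60.TP.RICH
import Pool.Agent.NH60.TP.PAIRS
import Pool.Agent.NH60.TP.PAR
import Pool.Agent.NH60.TP.LINE
import Pool.Agent.NH60.TP.NDEG
import Pool.Agent.NH60.TP.FOC
import Pool.Agent.NH60.TP.EN
import Pool.Agent.NH60.TP.H2F
import Pool.Agent.NH60.TP.R0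
import Pool.Agent.NH60.TP.POLY
import Pool.Agent.NH60.TP.ARC
import Pool.Agent.NH60.TP.CONI
import Pool.Agent.NH60.TP.R5G
import Pool.Agent.NH60.TP.ROTR5
import Pool.Agent.NH60.TP.SUM
import Pool.Agent.NH60.TP.NUM
import Pool.Agent.NH60.TP.Tra

/-!
Project TP: assembly.
-/

set_option autoImplicit false

namespace Pool.Agent.NH60.TP

theorem cut_all : S_CUT := cut pert tex tct all_traps hit exc

theorem rich_all : S_RICH := rich cut_all kst

theorem foc_all : S_FOC := foc (pairs cut_all) pinc pinj pfam line ndeg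

theorem r5_all : S_R5 := r5 (r5g rich_all poly (arc poly) con) rot

theorem sum_all : S_SUM := sum (r0 rich_all pinc pinj pfam) r5_all h2f

theorem fin_all : S_FIN := num foc_all en sum_all

end Pool.Agent.NH60.TP
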