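import Pool.Agent.NH60.TP.Stm

/-!
Project TP: perturbation of a point.
-/

set_option autoImplicit false

namespace Pool.Agent.NH60.TP

open Finset
open scoped Classical

namespace PERT

variable {ι : Type} [Fintype ι] {f : ι → ℝ → ℝ} {B : ℕ}

/-- no agreement slightly to the right of a point -/
theorem right (hf : Fam f B) (a : ℝ) :
    ∃ d : ℝ, 0 < d ∧ ∀ i j, i ≠ j → ∀ x, a < x → x < a + d → f i x ≠ f j x := by
  have hE : (⋃ i : ι, ⋃ j : ι, {x | i ≠ j ∧ f i x = f j x}).Finite := by
    refine Set.finite_iUnion fun i => Set.finite_iUnion fun j => ?_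
    by_cases h : i = j
    · have : {x | i ≠ j ∧ f i x = f j x} = ∅ := by
        ext x
        simp [h]
      rw [this]
      exact Set.finite_empty
    · exact (hf.2 i j h).1.subset fun x hx => hx.2
  have hop : IsOpen ((⋃ i : ι, ⋃ j : ι, {x | i ≠ j ∧ f i x = f j x}) \ {a})ᶜ :=
    (hE.subset Set.diff_subset).isClosed.isOpen_compl
  obtain ⟨d, hd, hb⟩ := Metric.isOpen_iff.1 hop a (fun h => h.2 rfl)
  refine ⟨d, hd, fun i j hij x h1 h2 h3 => ?_⟩
  have h4 : x ∈ Metric.ball a d := by
    rw [Metric.mem_ball, Real.dist_eq, abs_of_pos (by linarith)]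
    linarith
  apply hb h4
  refine ⟨?_, fun h => absurd h h1.ne'⟩
  exact Set.mem_iUnion.2 ⟨i, Set.mem_iUnion.2 ⟨j, hij, h3⟩⟩

/-- strict inequalities are kept near a point -/
theorem near (hf : Fam f B) (v : ℝ × ℝ) : ∃ d : ℝ, 0 < d ∧ ∀ w : ℝ × ℝ, |w.1 - v.1| < d →
    |w.2 - v.2| < d → (∀ i, f i v.1 < v.2 → f i w.1 < w.2) ∧ ∀ i, v.2 < f i v.1 → w.2 < f i w.1 := by
  have h1 : ∀ᶠ w : ℝ × ℝ in nhds v, ∀ i, (f i v.1 < v.2 → f i w.1 < w.2) ∧
      (v.2 < f i v.1 → w.2 < f i w.1) := by
    rw [Filter.eventually_all]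
    intro i
    have hc : Continuous fun w : ℝ × ℝ => f i w.1 := (hf.1 i).comp continuous_fst
    refine Filter.Eventually.and ?_ ?_
    · by_cases h : f i v.1 < v.2
      · filter_upwards [(isOpen_lt hc continuous_snd).mem_nhds h] with w hw _
        exact hw
      · exact Filter.Eventually.of_forall fun w h' => absurd h' h
    · by_cases h : v.2 < f i v.1
      · filter_upwards [(isOpen_lt continuous_snd hc).mem_nhds h] with w hw _
        exact hw
      · exact Filter.Eventually.of_forall fun w h' => absurd h' h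
  obtain ⟨d, hd, hb⟩ := Metric.eventually_nhds_iff.1 h1
  refine ⟨d, hd, fun w hw1 hw2 => ?_⟩
  have h2 : dist w v < d := by
    rw [Prod.dist_eq, Real.dist_eq, Real.dist_eq]
    exact max_lt hw1 hw2
  exact ⟨fun i => (hb h2 i).1, fun i => (hb h2 i).2⟩

end PERT

open PERT in
theorem pert : S_PERT := by
  intro ι _ f B hf v
  obtain ⟨d, hd, h1⟩ := right hf v.1
  obtain ⟨e, he, h2⟩ := near hf v
  have hm : 0 < min d e := lt_min hd he
  set x : ℝ := v.1 + min d e / 2 with hx
  obtain ⟨y, hy, hy2⟩ := (Set.Ioo_infinite (show v.2 - e < v.2 + e by linarith)).exists_notMem_finset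
    (univ.image fun i => f i x)
  have hx1 : v.1 < x := by linarith
  have hx2 : x < v.1 + d := by
    have := min_le_left d e
    linarith
  have h3 := h2 (x, y) (by
    have := min_le_right d e
    change |x - v.1| < e
    rw [abs_of_pos (by linarith)]
    linarith) (by
    change |y - v.2| < e
    rw [abs_lt]
    constructor <;> linarith [hy.1, hy.2])
  refine ⟨(x, y), hx1, ⟨fun i h => ?_, fun i j hij => h1 i j hij x hx1 hx2⟩,
    fun i j hij z hz1 hz2 => h1 i j hij z hz1 (lt_of_le_of_lt hz2 hx2), h3.1, h3.2⟩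
  exact hy2 (mem_image.2 ⟨i, mem_univ i, h⟩)

end Pool.Agent.NH60.TP
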