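import Pool.Agent.NH60.TP.Stm

/-!
Project TP: rich perpendicular bisectors.
-/

set_option autoImplicit false

namespace Pool.Agent.NH60.TP

open Finset
open scoped Classical

namespace R0

/-- the points not on the cut -/
def Pos (x q : ℂ) : Prop := 0 < dist q x + (q - x).re

theorem nonpos {x q : ℂ} (h : ¬ Pos x q) : (q - x).re = -dist q x ∧ (q - x).im = 0 := by
  unfold Pos at h
  rw [not_lt, dist_eq_norm] at h
  have h1 := Complex.abs_re_le_norm (q - x)
  have h2 := neg_abs_le (q - x).re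
  have h3 : (q - x).re = -‖q - x‖ := by linarith
  refine ⟨by rw [dist_eq_norm]; exact h3, ?_⟩
  have h4 := Complex.sq_norm (q - x)
  rw [Complex.normSq_apply] at h4
  have h5 : (q - x).re * (q - x).re = ‖q - x‖ ^ 2 := by rw [h3]; ring
  have h6 : (q - x).im * (q - x).im = 0 := by linarith
  exact mul_self_eq_zero.1 h6

theorem uniq {x y q q' : ℂ} (hxy : x ≠ y) (h : dist q x = dist q y) (h' : dist q' x = dist q' y)
    (hq : ¬ Pos x q) (hq' : ¬ Pos x q') : q = q' := by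
  obtain ⟨a, b⟩ := nonpos hq
  obtain ⟨a', b'⟩ := nonpos hq'
  have key : ∀ z : ℂ, dist z x = dist z y → (z - x).re = -dist z x → (z - x).im = 0 →
      2 * dist z x * (x - y).re = (x - y).re ^ 2 + (x - y).im ^ 2 := by
    intro z hz hre him
    have h1 : dist z y ^ 2 = (z - y).re ^ 2 + (z - y).im ^ 2 := by
      rw [dist_eq_norm, Complex.sq_norm, Complex.normSq_apply]
      ring
    rw [← hz] at h1
    have e1 : (z - y).re = -dist z x + (x - y).re := by
      rw [← hre]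
      simp
    have e2 : (z - y).im = (x - y).im := by
      have : (z - y).im = (z - x).im + (x - y).im := by simp
      rw [this, him, zero_add]
    rw [e1, e2] at h1
    linarith
  have k1 := key q h a b
  have k2 := key q' h' a' b'
  have hne : (x - y).re ≠ 0 := by
    intro h0
    rw [h0] at k1
    have h1 : (x - y).im = 0 := by
      have : (x - y).im ^ 2 = 0 := by linarith
      exact pow_eq_zero_iff (two_ne_zero) |>.1 this
    exact hxy (sub_eq_zero.1 (Complex.ext h0 h1))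
  have h2 : dist q x = dist q' x := by
    have h3 : (dist q x - dist q' x) * (x - y).re = 0 := by linarith
    rcases mul_eq_zero.1 h3 with h4 | h4
    · linarith
    · exact absurd h4 hne
  have h3 : q - x = q' - x := by
    refine Complex.ext ?_ ?_
    · rw [a, a', h2]
    · rw [b, b']
  exact sub_left_inj.1 h3

theorem cont (p q : ℂ) (s : ℝ) : Continuous (phi p q s) := by
  unfold phi
  fun_prop

theorem nz {x y : ℂ} (h : y ≠ x) : (0 : ℝ) ^ 2 ≠ dist y x ^ 2 := by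
  have h1 : 0 < dist y x := dist_pos.2 h
  have h2 : 0 < dist y x ^ 2 := by positivity
  rw [zero_pow two_ne_zero]
  exact h2.ne

theorem fam {ι : Type} {x : ℂ} {g : ι → ℂ} (hg : Function.Injective g) (hx : ∀ i, g i ≠ x)
    (h : S_PFAM) : Fam (fun i => phi x (g i) 0) 2 := by
  refine ⟨fun i => cont _ _ _, fun i j hij => ?_⟩
  refine h x (g i) (g j) 0 0 (nz (hx i)) (nz (hx j)) ?_
  intro h1
  exact hij (hg (Prod.ext_iff.1 h1).1)

/-- the curves -/
noncomputable def I (P : Finset ℂ) (x y : ℂ) : Finset (ℝ × ℝ) :=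
  ((hh P x y 0).filter (Pos x)).image (psi x)

theorem mem_hh {P : Finset ℂ} {x y q : ℂ} : q ∈ hh P x y 0 ↔ q ∈ P ∧ dist q x = dist q y := by
  unfold hh
  rw [mem_filter, sub_eq_zero]

theorem mem_I {P : Finset ℂ} {x y : ℂ} {v : ℝ × ℝ} :
    v ∈ I P x y ↔ ∃ q ∈ P, dist q x = dist q y ∧ Pos x q ∧ psi x q = v := by
  unfold I
  rw [mem_image]
  constructor
  · rintro ⟨q, hq, rfl⟩
    rw [mem_filter, mem_hh] at hq
    exact ⟨q, hq.1.1, hq.1.2, hq.2, rfl⟩
  · rintro ⟨q, h1, h2, h3, rfl⟩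
    exact ⟨q, by rw [mem_filter, mem_hh]; exact ⟨⟨h1, h2⟩, h3⟩, rfl⟩

theorem card_I (h3 : S_PINJ) {P : Finset ℂ} {x y : ℂ} (hxy : x ≠ y) :
    (hh P x y 0).card ≤ (I P x y).card + 1 := by
  unfold I
  rw [card_image_of_injOn]
  · rw [← card_filter_add_card_filter_not (s := hh P x y 0) (Pos x)]
    refine Nat.add_le_add_left ?_ _
    rw [card_le_one]
    intro a ha b hb
    rw [mem_filter, mem_hh] at ha hb
    exact uniq hxy ha.1.2 hb.1.2 ha.2 hb.2
  · intro a ha b hb hab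
    rw [mem_coe, mem_filter] at ha hb
    exact h3 x a b ha.2 hb.2 hab

theorem two {x y y' q q' : ℂ} (hy : y ≠ x) (hy' : y' ≠ x) (hq : q ≠ q')
    (h1 : dist q x = dist q y) (h2 : dist q' x = dist q' y) (h3 : dist q x = dist q y')
    (h4 : dist q' x = dist q' y') : y = y' := by
  have h := EuclideanGeometry.eq_of_dist_eq_of_dist_eq_of_finrank_eq_two (V := ℂ) (P := ℂ)
    Complex.finrank_real_complex hq hy.symm (p := y') (r₁ := dist q x) (r₂ := dist q' x)
    (dist_comm _ _) (by rw [dist_comm, ← h1]) (by rw [dist_comm, ← h3])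
    (dist_comm _ _) (by rw [dist_comm, ← h2]) (by rw [dist_comm, ← h4])
  rcases h with h | h
  · exact absurd h hy'
  · exact h.symm

/-- the partners of `x` -/
noncomputable def Y (P : Finset ℂ) (k : ℕ) (x : ℂ) : Finset ℂ :=
  P.filter (fun y => y ≠ x ∧ k ≤ (hh P x y 0).card)

theorem one (h2 : S_PINC) (h3 : S_PINJ) (h4 : S_PFAM) {C0 : ℝ} (hC0 : 0 < C0)
    (hR : ∀ (ι : Type) [Fintype ι] (f : ι → ℝ → ℝ), Fam f 2 →
      ∀ (V : Finset (ℝ × ℝ)) (I : ι → Finset (ℝ × ℝ)), (∀ i, I i ⊆ V) →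
      (∀ i, ∀ v ∈ I i, f i v.1 = v.2) →
      (∀ T : Finset (ℝ × ℝ), T.card = 2 → (univ.filter (fun i => T ⊆ I i)).card ≤ 1) →
      ∀ k : ℕ, (∀ i, k ≤ (I i).card) → C0 * Real.log (Fintype.card ι + 2) ≤ k →
        (Fintype.card ι : ℝ) * k ^ (2 * 2 - 1) ≤
          C0 * Real.log (Fintype.card ι + 2) ^ (2 * 2 - 2) *
            ((V.card : ℝ) ^ 2 + V.card * (k : ℝ) ^ (2 * 2 - 2)))
    (P : Finset ℂ) (k : ℕ) (hk2 : 2 ≤ k) (hk : C0 * Real.log (P.card + 2) ≤ k - 1) (x : ℂ) :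
    ((Y P k x).card : ℝ) * k ^ 3 ≤
      8 * C0 * Real.log (P.card + 2) ^ 2 * ((P.card : ℝ) ^ 2 + P.card * (k : ℝ) ^ 2) := by
  set n : ℝ := (P.card : ℝ) with hn
  have hn0 : 0 ≤ n := Nat.cast_nonneg _
  set Ys := Y P k x with hYs
  have hYm : ∀ y ∈ Ys, y ∈ P ∧ y ≠ x ∧ k ≤ (hh P x y 0).card := by
    intro y hy
    rw [hYs] at hy
    unfold Y at hy
    rw [mem_filter] at hy
    exact ⟨hy.1, hy.2.1, hy.2.2⟩
  have hcard : (Ys.card : ℝ) ≤ n := by
    rw [hn, hYs]
    exact_mod_cast card_le_card (filter_subset _ _)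
  have hN0 : (0 : ℝ) ≤ Ys.card := Nat.cast_nonneg _
  have hlog : Real.log (Ys.card + 2) ≤ Real.log (n + 2) :=
    Real.log_le_log (by positivity) (by linarith)
  have hlog0 : 0 ≤ Real.log ((Ys.card : ℝ) + 2) := Real.log_nonneg (by linarith)
  have hV : (((P.filter (Pos x)).image (psi x)).card : ℝ) ≤ n := by
    rw [hn]
    exact_mod_cast card_image_le.trans (card_le_card (filter_subset _ _))
  have h := hR {y // y ∈ Ys} (fun y => phi x y 0)
    (fam (g := fun y : {y // y ∈ Ys} => (y : ℂ)) Subtype.val_injective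
      (fun y => (hYm y y.2).2.1) h4)
    ((P.filter (Pos x)).image (psi x)) (fun y => I P x y) (by
      intro y v hv
      rw [mem_I] at hv
      obtain ⟨q, a, b, c, rfl⟩ := hv
      exact mem_image_of_mem _ (by rw [mem_filter]; exact ⟨a, c⟩)) (by
      intro y v hv
      rw [mem_I] at hv
      obtain ⟨q, a, b, c, rfl⟩ := hv
      exact h2 x y q 0 c (nz (hYm y y.2).2.1) (Or.inr (by rw [sub_zero, b]))) (by
      intro T hT
      rw [card_le_one]
      intro y hy y' hy'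
      rw [mem_filter] at hy hy'
      obtain ⟨v, v', hvv, rfl⟩ := card_eq_two.1 hT
      have m1 := hy.2 (mem_insert_self v {v'})
      have m2 := hy.2 (mem_insert_of_mem (mem_singleton_self v'))
      have m3 := hy'.2 (mem_insert_self v {v'})
      have m4 := hy'.2 (mem_insert_of_mem (mem_singleton_self v'))
      rw [mem_I] at m1 m2 m3 m4
      obtain ⟨q, a1, b1, c1, e1⟩ := m1
      obtain ⟨q', a2, b2, c2, e2⟩ := m2
      obtain ⟨r, a3, b3, c3, e3⟩ := m3
      obtain ⟨r', a4, b4, c4, e4⟩ := m4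
      have hr : r = q := h3 x r q c3 c1 (by rw [e3, e1])
      have hr' : r' = q' := h3 x r' q' c4 c2 (by rw [e4, e2])
      rw [hr] at b3
      rw [hr'] at b4
      have hqq : q ≠ q' := by
        rintro rfl
        exact hvv (by rw [← e1, ← e2])
      exact Subtype.ext (two (hYm y y.2).2.1 (hYm y' y'.2).2.1 hqq b1 b2 b3 b4)) (k - 1) (by
      intro y
      have g1 := card_I h3 (P := P) (hYm y y.2).2.1.symm
      have g2 := (hYm y y.2).2.2
      omega) (by
      rw [Fintype.card_coe, Nat.cast_sub (by omega), Nat.cast_one]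
      refine le_trans ?_ hk
      exact mul_le_mul_of_nonneg_left hlog hC0.le)
  rw [Fintype.card_coe, Nat.cast_sub (by omega), Nat.cast_one] at h
  norm_num at h
  have hk2' : (2 : ℝ) ≤ k := by exact_mod_cast hk2
  have e1 : (k : ℝ) ^ 3 ≤ 8 * ((k : ℝ) - 1) ^ 3 := by
    have : (k : ℝ) ^ 3 ≤ (2 * ((k : ℝ) - 1)) ^ 3 := pow_le_pow_left₀ (by linarith) (by linarith) 3
    refine this.trans (le_of_eq (by ring))
  have e2 : ((k : ℝ) - 1) ^ 2 ≤ (k : ℝ) ^ 2 := pow_le_pow_left₀ (by linarith) (by linarith) 2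
  have e3 : Real.log ((Ys.card : ℝ) + 2) ^ 2 ≤ Real.log (n + 2) ^ 2 :=
    pow_le_pow_left₀ hlog0 hlog 2
  set W : ℝ := (((P.filter (Pos x)).image (psi x)).card : ℝ) with hW
  have hW0 : 0 ≤ W := Nat.cast_nonneg _
  have e4 : W ^ 2 + W * ((k : ℝ) - 1) ^ 2 ≤ n ^ 2 + n * (k : ℝ) ^ 2 := by
    have a : W ^ 2 ≤ n ^ 2 := pow_le_pow_left₀ hW0 hV 2
    have b : W * ((k : ℝ) - 1) ^ 2 ≤ n * (k : ℝ) ^ 2 := mul_le_mul hV e2 (by positivity) hn0
    linarith
  calc (Ys.card : ℝ) * (k : ℝ) ^ 3 ≤ Ys.card * (8 * ((k : ℝ) - 1) ^ 3) :=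
        mul_le_mul_of_nonneg_left e1 hN0
    _ = 8 * (Ys.card * ((k : ℝ) - 1) ^ 3) := by ring
    _ ≤ 8 * (C0 * Real.log ((Ys.card : ℝ) + 2) ^ 2 * (W ^ 2 + W * ((k : ℝ) - 1) ^ 2)) := by
        linarith
    _ ≤ 8 * (C0 * Real.log (n + 2) ^ 2 * (n ^ 2 + n * (k : ℝ) ^ 2)) := by
        refine mul_le_mul_of_nonneg_left ?_ (by norm_num)
        exact mul_le_mul (mul_le_mul_of_nonneg_left e3 hC0.le) e4 (by positivity) (by positivity)
    _ = _ := by ring

end R0

open R0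

theorem r0 (h1 : S_RICH) (h2 : S_PINC) (h3 : S_PINJ) (h4 : S_PFAM) : S_R0 := by
  obtain ⟨C0, hC0, hR⟩ := h1 2 1 2 le_rfl
  refine ⟨8 * C0 + 2, by positivity, ?_⟩
  intro P k hk
  set n : ℝ := (P.card : ℝ) with hn
  have hn0 : 0 ≤ n := Nat.cast_nonneg _
  set L : ℝ := Real.log (n + 2) with hL
  have hL69 : 69 / 100 ≤ L := by
    have h4 := Real.log_two_gt_d9
    have h5 : Real.log 2 ≤ L := Real.log_le_log (by norm_num) (by linarith)
    linarith
  have hL0 : 0 < L := by linarith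
  have hCL := mul_pos hC0 hL0
  have hk2 : 2 ≤ k := by
    have : (1 : ℝ) < k := by nlinarith
    have : 1 < k := by exact_mod_cast this
    omega
  have hone := fun x => one h2 h3 h4 hC0 hR P k hk2 (by rw [← hn, ← hL]; nlinarith) x
  have hcard : ((TT P).filter (fun τ => τ.2.2 = 0 ∧ k ≤ (hh P τ.1 τ.2.1 τ.2.2).card)).card ≤
      ∑ x ∈ P, (Y P k x).card := by
    rw [← card_sigma]
    refine card_le_card_of_injOn (fun τ => (⟨τ.1, τ.2.1⟩ : (_ : ℂ) × ℂ)) ?_ ?_
    · intro τ hτ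
      rw [mem_coe, mem_filter] at hτ
      obtain ⟨hT, h0, hk'⟩ := hτ
      unfold TT at hT
      rw [mem_image] at hT
      obtain ⟨e, he, rfl⟩ := hT
      rw [mem_filter, mem_product, mem_product] at he
      rw [mem_coe, mem_sigma]
      refine ⟨he.1.1, ?_⟩
      unfold Y
      rw [mem_filter]
      simp only at h0 hk' ⊢
      rw [h0] at hk'
      exact ⟨he.1.2.1, he.2.1.symm, hk'⟩
    · intro τ hτ τ' hτ' h
      rw [mem_coe, mem_filter] at hτ hτ'
      simp only [Sigma.mk.injEq, heq_eq_eq] at h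
      refine Prod.ext h.1 (Prod.ext h.2 ?_)
      rw [hτ.2.1, hτ'.2.1]
  have hcard' : (((TT P).filter (fun τ => τ.2.2 = 0 ∧
      k ≤ (hh P τ.1 τ.2.1 τ.2.2).card)).card : ℝ) ≤ ∑ x ∈ P, ((Y P k x).card : ℝ) := by
    exact_mod_cast hcard
  have hk0 : (0 : ℝ) ≤ (k : ℝ) ^ 3 := by positivity
  refine (mul_le_mul_of_nonneg_right hcard' hk0).trans ?_
  rw [sum_mul]
  refine (sum_le_sum fun x _ => hone x).trans ?_
  rw [sum_const, nsmul_eq_mul, ← hn]
  have e : n * (8 * C0 * L ^ 2 * (n ^ 2 + n * (k : ℝ) ^ 2)) =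
      8 * C0 * L ^ 2 * (n ^ 3 + n ^ 2 * (k : ℝ) ^ 2) := by ring
  rw [e]
  refine mul_le_mul_of_nonneg_right (mul_le_mul_of_nonneg_right (by linarith) (by positivity))
    (by positivity)

end Pool.Agent.NH60.TP
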