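import Pool.Agent.NH60.TP.Stm

/-!
Project TP, part R3: rich hyperbolas, three degrees of freedom.
-/

set_option autoImplicit false

namespace Pool.Agent.NH60.TP

open Finset
open scoped Classical

namespace R3

/-- the point `q` is not on the negative half axis from the focus `x` -/
def Pos (x q : ℂ) : Prop := 0 < dist q x + (q - x).re

theorem mem_TT {P : Finset ℂ} {τ : ℂ × ℂ × ℝ} (h : τ ∈ TT P) :
    τ.1 ∈ P ∧ τ.2.1 ∈ P ∧ |τ.2.2| < dist τ.1 τ.2.1 ∧
      ∃ q ∈ P, τ.2.2 = dist q τ.1 - dist q τ.2.1 := by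
  unfold TT at h
  rw [mem_image] at h
  obtain ⟨e, he, rfl⟩ := h
  rw [mem_filter, mem_product, mem_product] at he
  exact ⟨he.1.1, he.1.2.1, he.2.2, e.2.2, he.1.2.2, rfl⟩

/-- the branches with first focus `x` -/
noncomputable def Hx (P : Finset ℂ) (k : ℕ) (x : ℂ) : Finset (ℂ × ℂ × ℝ) :=
  (TT P).filter (fun τ => τ.1 = x ∧ k ≤ (hh P τ.1 τ.2.1 τ.2.2).card)

theorem card_Hx (P : Finset ℂ) (k : ℕ) (x : ℂ) : (Hx P k x).card ≤ P.card ^ 2 := by
  have hsub : Hx P k x ⊆ (P ×ˢ P).image (fun e => (x, e.1, dist e.2 x - dist e.2 e.1)) := by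
    intro τ hτ
    unfold Hx at hτ
    rw [mem_filter] at hτ
    obtain ⟨hT, hx, _⟩ := hτ
    obtain ⟨_, h2, _, q, hq, h4⟩ := mem_TT hT
    rw [mem_image]
    refine ⟨(τ.2.1, q), mem_product.2 ⟨h2, hq⟩, ?_⟩
    rw [← hx]
    ext <;> simp [h4]
  refine (card_le_card hsub).trans (card_image_le.trans ?_)
  rw [card_product, sq]

theorem card_sum (P : Finset ℂ) (k : ℕ) :
    ((TT P).filter (fun τ => k ≤ (hh P τ.1 τ.2.1 τ.2.2).card)).card =
      ∑ x ∈ P, (Hx P k x).card := by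
  rw [card_eq_sum_card_fiberwise (f := fun τ : ℂ × ℂ × ℝ => τ.1) (t := P)]
  · refine sum_congr rfl (fun x _ => ?_)
    unfold Hx
    rw [filter_filter]
    congr 1
    ext τ
    simp only [mem_filter]
    tauto
  · intro τ hτ
    exact (mem_TT (mem_filter.1 (mem_coe.1 hτ)).1).1

/-- two points of a branch on the negative half axis from the focus coincide -/
theorem neg_unique {x y q q' : ℂ} {a : ℝ} (ha : |a| < dist x y)
    (hq : dist q x - dist q y = a) (hq' : dist q' x - dist q' y = a)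
    (hn : ¬ Pos x q) (hn' : ¬ Pos x q') : q = q' := by
  have key : ∀ q : ℂ, dist q x - dist q y = a → ¬ Pos x q →
      (q - x).im = 0 ∧ (q - x).re = - dist q x ∧
        2 * dist q x * (a - (x - y).re) = a ^ 2 - dist x y ^ 2 := by
    intro q hq hn
    unfold Pos at hn
    push Not at hn
    have h1 : dist q x ^ 2 = (q - x).re ^ 2 + (q - x).im ^ 2 := by
      rw [dist_eq_norm, ← Complex.normSq_eq_norm_sq, Complex.normSq_apply]; ring
    have h0 : 0 ≤ dist q x := dist_nonneg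
    have h2 : |(q - x).re| ≤ dist q x := by
      rw [dist_eq_norm]; exact Complex.abs_re_le_norm _
    have h3 : (q - x).re = - dist q x := by
      have := (abs_le.1 h2).1
      linarith
    have h4 : (q - x).im = 0 := by
      rw [h3] at h1
      have : (q - x).im ^ 2 = 0 := by nlinarith
      exact pow_eq_zero_iff (two_ne_zero) |>.1 this
    refine ⟨h4, h3, ?_⟩
    have h5 : dist q y ^ 2 = (q - y).re ^ 2 + (q - y).im ^ 2 := by
      rw [dist_eq_norm, ← Complex.normSq_eq_norm_sq, Complex.normSq_apply]; ring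
    have h6 : dist x y ^ 2 = (x - y).re ^ 2 + (x - y).im ^ 2 := by
      rw [dist_eq_norm, ← Complex.normSq_eq_norm_sq, Complex.normSq_apply]; ring
    have h7 : (q - y).re = (x - y).re - dist q x := by
      have : (q - y).re = (q - x).re + (x - y).re := by
        simp only [Complex.sub_re]; ring
      rw [this, h3]; ring
    have h8 : (q - y).im = (x - y).im := by
      have : (q - y).im = (q - x).im + (x - y).im := by
        simp only [Complex.sub_im]; ring
      rw [this, h4]; ring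
    have h9 : dist q y = dist q x - a := by linarith
    rw [h9, h7, h8] at h5
    rw [h6]
    nlinarith
  obtain ⟨k1, k2, k3⟩ := key q hq hn
  obtain ⟨l1, l2, l3⟩ := key q' hq' hn'
  have h10 : a ^ 2 < dist x y ^ 2 := by
    rw [← sq_abs a]
    exact pow_lt_pow_left₀ ha (abs_nonneg _) two_ne_zero
  have h11 : a - (x - y).re ≠ 0 := by
    intro h
    rw [h] at k3
    nlinarith
  have h12 : dist q x = dist q' x := by
    have : (dist q x - dist q' x) * (a - (x - y).re) = 0 := by linarith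
    rcases mul_eq_zero.1 this with h | h
    · linarith
    · exact absurd h h11
  apply Complex.ext
  · have e1 : (q - x).re = (q' - x).re := by rw [k2, l2, h12]
    simp only [Complex.sub_re] at e1
    linarith
  · have e1 : (q - x).im = (q' - x).im := by rw [k1, l1]
    simp only [Complex.sub_im] at e1
    linarith

/-- the points of `P` on the branch, in parabolic coordinates -/
noncomputable def Ix (P : Finset ℂ) (x y : ℂ) (a : ℝ) : Finset (ℝ × ℝ) :=
  ((hh P x y a).filter (fun q => Pos x q)).image (psi x)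

theorem card_Ix (h3 : S_PINJ) (P : Finset ℂ) (x y : ℂ) (a : ℝ) (ha : |a| < dist x y) :
    (hh P x y a).card ≤ (Ix P x y a).card + 1 := by
  unfold Ix
  rw [card_image_of_injOn]
  · have h1 : ((hh P x y a).filter (fun q => ¬ Pos x q)).card ≤ 1 := by
      rw [card_le_one]
      intro q hq q' hq'
      rw [mem_filter] at hq hq'
      unfold hh at hq hq'
      rw [mem_filter] at hq hq'
      exact neg_unique ha hq.1.2 hq'.1.2 hq.2 hq'.2
    have h2 := card_filter_add_card_filter_not (s := hh P x y a) (fun q => Pos x q)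
    omega
  · intro q hq q' hq' h
    rw [mem_coe, mem_filter] at hq hq'
    exact h3 x q q' hq.2 hq'.2 h

theorem on_Ix (h2 : S_PINC) (P : Finset ℂ) (x y : ℂ) (a : ℝ) (ha : |a| < dist x y) :
    ∀ v ∈ Ix P x y a, phi x y a v.1 = v.2 := by
  intro v hv
  unfold Ix at hv
  rw [mem_image] at hv
  obtain ⟨q, hq, rfl⟩ := hv
  rw [mem_filter] at hq
  unfold hh at hq
  rw [mem_filter] at hq
  refine h2 x y q a hq.2 ?_ (Or.inr (by linarith [hq.1.2]))
  intro h
  have h10 : a ^ 2 < dist x y ^ 2 := by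
    rw [← sq_abs a]
    exact pow_lt_pow_left₀ ha (abs_nonneg _) two_ne_zero
  rw [dist_comm y x] at h
  linarith

theorem cont_phi (x y : ℂ) (a : ℝ) : Continuous (phi x y a) := by
  unfold phi
  fun_prop

/-- the conclusion of the theorem for one focus -/
theorem perx (C0 : ℝ) (hC0 : 0 < C0) (hR : ∀ (ι : Type) [Fintype ι] (f : ι → ℝ → ℝ), Fam f 2 →
      ∀ (V : Finset (ℝ × ℝ)) (I : ι → Finset (ℝ × ℝ)), (∀ i, I i ⊆ V) →
      (∀ i, ∀ v ∈ I i, f i v.1 = v.2) →
      (∀ T : Finset (ℝ × ℝ), T.card = 3 → (univ.filter (fun i => T ⊆ I i)).card ≤ 1) →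
      ∀ k : ℕ, (∀ i, k ≤ (I i).card) → C0 * Real.log (Fintype.card ι + 2) ≤ k →
        (Fintype.card ι : ℝ) * k ^ (2 * 3 - 1) ≤
          C0 * Real.log (Fintype.card ι + 2) ^ (2 * 3 - 2) *
            ((V.card : ℝ) ^ 3 + V.card * (k : ℝ) ^ (2 * 3 - 2)))
    (h2 : S_PINC) (h3 : S_PINJ) (h4 : S_PFAM) (P : Finset ℂ) (k : ℕ) (x : ℂ)
    (hk : (512 * C0 + 4) * Real.log (P.card + 2) ≤ k) :
    ((Hx P k x).card : ℝ) * k ^ 5 ≤
      512 * C0 * Real.log (P.card + 2) ^ 4 * ((P.card : ℝ) ^ 3 + P.card * (k : ℝ) ^ 4) := by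
  set n := P.card with hn
  set L := Real.log ((n : ℝ) + 2) with hL
  have hn0 : (0 : ℝ) ≤ n := Nat.cast_nonneg n
  have hL1 : 0.69 ≤ L := by
    have h1 : Real.log 2 ≤ L := Real.log_le_log (by norm_num) (by linarith)
    have := Real.log_two_gt_d9
    linarith
  have hk2 : (2 : ℝ) ≤ k := by nlinarith
  have hk2' : 2 ≤ k := by exact_mod_cast hk2
  have hk1 : ((k - 1 : ℕ) : ℝ) = (k : ℝ) - 1 := by
    rw [Nat.cast_sub (by omega)]; simp
  -- membership
  have hmem : ∀ τ ∈ Hx P k x, τ.1 = x ∧ |τ.2.2| < dist x τ.2.1 ∧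
      k ≤ (hh P x τ.2.1 τ.2.2).card := by
    intro τ hτ
    unfold Hx at hτ
    rw [mem_filter] at hτ
    obtain ⟨hT, hx, hkk⟩ := hτ
    obtain ⟨_, _, h5, _⟩ := mem_TT hT
    rw [hx] at h5 hkk
    exact ⟨hx, h5, hkk⟩
  have hne : ∀ τ ∈ Hx P k x, τ.2.2 ^ 2 ≠ dist τ.2.1 x ^ 2 := by
    intro τ hτ h
    obtain ⟨_, h5, _⟩ := hmem τ hτ
    have h10 : τ.2.2 ^ 2 < dist x τ.2.1 ^ 2 := by
      rw [← sq_abs τ.2.2]
      exact pow_lt_pow_left₀ h5 (abs_nonneg _) two_ne_zero
    rw [dist_comm τ.2.1 x] at h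
    linarith
  have hfam : Fam (fun i : {τ // τ ∈ Hx P k x} => phi x i.1.2.1 i.1.2.2) 2 := by
    refine ⟨fun i => cont_phi _ _ _, fun i j hij => ?_⟩
    refine h4 x _ _ _ _ (hne i.1 i.2) (hne j.1 j.2) ?_
    intro h
    apply hij
    apply Subtype.ext
    refine Prod.ext ?_ ?_
    · rw [(hmem i.1 i.2).1, (hmem j.1 j.2).1]
    · simpa using h
  have hmain := hR {τ // τ ∈ Hx P k x} (fun i => phi x i.1.2.1 i.1.2.2) hfam
    ((P.filter (fun q => Pos x q)).image (psi x)) (fun i => Ix P x i.1.2.1 i.1.2.2)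
    (by
      intro i
      unfold Ix
      apply image_subset_image
      apply filter_subset_filter
      unfold hh
      exact filter_subset _ _)
    (fun i => on_Ix h2 P x _ _ (hmem i.1 i.2).2.1)
    (by
      intro T hT
      rw [card_le_one]
      intro i hi j hj
      rw [mem_filter] at hi hj
      by_contra hij
      obtain ⟨hfin, hc⟩ := hfam.2 i j hij
      rw [Set.ncard_eq_toFinset_card _ hfin] at hc
      have h5 : T.card ≤ hfin.toFinset.card := by
        refine card_le_card_of_injOn Prod.fst ?_ ?_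
        · intro v hv
          have e1 := on_Ix h2 P x _ _ (hmem i.1 i.2).2.1 v (hi.2 (mem_coe.1 hv))
          have e2 := on_Ix h2 P x _ _ (hmem j.1 j.2).2.1 v (hj.2 (mem_coe.1 hv))
          rw [Set.Finite.coe_toFinset]
          show phi x i.1.2.1 i.1.2.2 v.1 = phi x j.1.2.1 j.1.2.2 v.1
          rw [e1, e2]
        · intro v hv v' hv' h
          have e1 := on_Ix h2 P x _ _ (hmem i.1 i.2).2.1 v (hi.2 (mem_coe.1 hv))
          have e2 := on_Ix h2 P x _ _ (hmem i.1 i.2).2.1 v' (hi.2 (mem_coe.1 hv'))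
          refine Prod.ext h ?_
          rw [← e1, ← e2, h]
      omega)
    (k - 1)
    (by
      intro i
      have h5 := card_Ix h3 P x i.1.2.1 i.1.2.2 (hmem i.1 i.2).2.1
      have h6 := (hmem i.1 i.2).2.2
      show k - 1 ≤ (Ix P x i.1.2.1 i.1.2.2).card
      omega)
  rw [Fintype.card_coe] at hmain
  have hNn : ((Hx P k x).card : ℝ) ≤ (n : ℝ) ^ 2 := by exact_mod_cast card_Hx P k x
  have hN0 : (0 : ℝ) ≤ (Hx P k x).card := Nat.cast_nonneg _
  have hlog : Real.log (((Hx P k x).card : ℝ) + 2) ≤ 2 * L := by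
    have : 2 * L = Real.log (((n : ℝ) + 2) ^ 2) := by
      rw [Real.log_pow, hL]; norm_num
    rw [this]
    apply Real.log_le_log (by linarith)
    nlinarith
  have hlog0 : 0 ≤ Real.log (((Hx P k x).card : ℝ) + 2) := Real.log_nonneg (by linarith)
  have hVc : ((((P.filter (fun q => Pos x q)).image (psi x)).card : ℕ) : ℝ) ≤ n := by
    exact_mod_cast card_image_le.trans (card_filter_le _ _)
  have hVc0 : (0 : ℝ) ≤ (((P.filter (fun q => Pos x q)).image (psi x)).card : ℕ) :=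
    Nat.cast_nonneg _
  rw [hk1] at hmain
  have hcond : C0 * Real.log (((Hx P k x).card : ℝ) + 2) ≤ (k : ℝ) - 1 := by
    have h5 : C0 * Real.log (((Hx P k x).card : ℝ) + 2) ≤ C0 * (2 * L) :=
      mul_le_mul_of_nonneg_left hlog hC0.le
    nlinarith [mul_pos hC0 (show (0 : ℝ) < L by linarith)]
  have h6 := hmain hcond
  norm_num at h6
  have h7 : ((Hx P k x).card : ℝ) * ((k : ℝ) / 2) ^ 5 ≤
      ((Hx P k x).card : ℝ) * ((k : ℝ) - 1) ^ 5 := by
    apply mul_le_mul_of_nonneg_left _ hN0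
    apply pow_le_pow_left₀ (by linarith)
    linarith
  have h8 : C0 * Real.log (((Hx P k x).card : ℝ) + 2) ^ 4 *
      (((((P.filter (fun q => Pos x q)).image (psi x)).card : ℕ) : ℝ) ^ 3 +
        ((((P.filter (fun q => Pos x q)).image (psi x)).card : ℕ) : ℝ) * ((k : ℝ) - 1) ^ 4) ≤
      C0 * (2 * L) ^ 4 * ((n : ℝ) ^ 3 + n * (k : ℝ) ^ 4) := by
    apply mul_le_mul
    · apply mul_le_mul_of_nonneg_left _ hC0.le
      exact pow_le_pow_left₀ hlog0 hlog 4
    · apply add_le_add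
      · exact pow_le_pow_left₀ hVc0 hVc 3
      · apply mul_le_mul hVc _ (pow_nonneg (by linarith) _) hn0
        apply pow_le_pow_left₀ (by linarith)
        linarith
    · apply add_nonneg (pow_nonneg hVc0 _)
      exact mul_nonneg hVc0 (pow_nonneg (by linarith) _)
    · exact mul_nonneg hC0.le (pow_nonneg (by linarith) _)
  have h9 : ((Hx P k x).card : ℝ) * ((k : ℝ) / 2) ^ 5 =
      ((Hx P k x).card : ℝ) * (k : ℝ) ^ 5 / 32 := by ring
  have h10 : C0 * (2 * L) ^ 4 * ((n : ℝ) ^ 3 + n * (k : ℝ) ^ 4) =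
      512 * C0 * L ^ 4 * ((n : ℝ) ^ 3 + n * (k : ℝ) ^ 4) / 32 := by ring
  linarith

end R3

open R3 in
/-- R3: rich hyperbolas, three degrees of freedom -/
theorem r3 (h1 : S_RICH) (h2 : S_PINC) (h3 : S_PINJ) (h4 : S_PFAM) : S_R3 := by
  obtain ⟨C0, hC0, hR⟩ := h1 3 1 2 (by norm_num)
  refine ⟨512 * C0 + 4, by positivity, fun P k hk => ?_⟩
  have hL0 : 0 ≤ Real.log ((P.card : ℝ) + 2) :=
    Real.log_nonneg (by linarith [(Nat.cast_nonneg P.card : (0 : ℝ) ≤ P.card)])
  rw [card_sum]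
  push_cast
  rw [sum_mul]
  calc ∑ x ∈ P, ((Hx P k x).card : ℝ) * (k : ℝ) ^ 5
      ≤ ∑ x ∈ P, 512 * C0 * Real.log (P.card + 2) ^ 4 *
          ((P.card : ℝ) ^ 3 + P.card * (k : ℝ) ^ 4) :=
        sum_le_sum (fun x _ => perx C0 hC0 hR h2 h3 h4 P k x hk)
    _ = 512 * C0 * Real.log (P.card + 2) ^ 4 *
          ((P.card : ℝ) ^ 4 + (P.card : ℝ) ^ 2 * (k : ℝ) ^ 4) := by
        rw [sum_const, nsmul_eq_mul]; ring
    _ ≤ (512 * C0 + 4) * Real.log (P.card + 2) ^ 4 *
          ((P.card : ℝ) ^ 4 + (P.card : ℝ) ^ 2 * (k : ℝ) ^ 4) := by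
        apply mul_le_mul_of_nonneg_right _ (by positivity)
        apply mul_le_mul_of_nonneg_right _ (by positivity)
        linarith

end Pool.Agent.NH60.TP
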