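import Mathlib

/-!
Project TP: the number of distinct perimeters of the triangles spanned by `n` points of the plane
is at least `c n ^ (6 / 7) / (log n) ^ 2`. Definitions and the statements of all parts.
-/

set_option autoImplicit false

namespace Pool.Agent.NH60.TP

open Finset
open scoped Classical

/-! ### Cuttings -/

/-- continuous functions, two of which agree in at most `B` points -/
def Fam {ι : Type} (f : ι → ℝ → ℝ) (B : ℕ) : Prop :=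
  (∀ i, Continuous (f i)) ∧
    ∀ i j, i ≠ j → {x | f i x = f j x}.Finite ∧ {x | f i x = f j x}.ncard ≤ B

/-- a point on none of the graphs, at an abscissa where no two of the functions agree -/
def Gen {ι : Type} (f : ι → ℝ → ℝ) (w : ℝ × ℝ) : Prop :=
  (∀ i, f i w.1 ≠ w.2) ∧ ∀ i j, i ≠ j → f i w.1 ≠ f j w.1

/-- `w` is a generic point very close to `v`, slightly to the right of it -/
def Near {ι : Type} (f : ι → ℝ → ℝ) (v w : ℝ × ℝ) : Prop :=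
  v.1 < w.1 ∧ Gen f w ∧ (∀ i j, i ≠ j → ∀ x, v.1 < x → x ≤ w.1 → f i x ≠ f j x) ∧
    (∀ i, f i v.1 < v.2 → f i w.1 < w.2) ∧ ∀ i, v.2 < f i v.1 → w.2 < f i w.1

/-- a trapezoid: bottom, top, left wall and right wall; each may be missing -/
structure Trap (ι : Type) where
  /-- bottom -/
  b : Option ι
  /-- top -/
  t : Option ι
  /-- left wall -/
  l : Option ℝ
  /-- right wall -/
  r : Option ℝ

/-- the point `w` is in the open trapezoid -/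
def Ins {ι : Type} (f : ι → ℝ → ℝ) (τ : Trap ι) (w : ℝ × ℝ) : Prop :=
  (∀ i ∈ τ.b, f i w.1 < w.2) ∧ (∀ i ∈ τ.t, w.2 < f i w.1) ∧ (∀ l ∈ τ.l, l < w.1) ∧
    ∀ u ∈ τ.r, w.1 < u

/-- the graph of `f i` meets the open trapezoid -/
def Crs {ι : Type} (f : ι → ℝ → ℝ) (τ : Trap ι) (i : ι) : Prop := ∃ x, Ins f τ (x, f i x)

/-- `x` is an event of the (possibly missing) function `o`: it agrees there with another
function of `R` -/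
def Ev {ι : Type} (f : ι → ℝ → ℝ) (R : Finset ι) (o : Option ι) (x : ℝ) : Prop :=
  ∃ i ∈ o, ∃ g ∈ R, g ≠ i ∧ f g x = f i x

/-- `τ` is a trapezoid of the vertical decomposition of the functions in `R` -/
structure IsTrap {ι : Type} (f : ι → ℝ → ℝ) (R : Finset ι) (τ : Trap ι) : Prop where
  ne : ∃ w, Gen f w ∧ Ins f τ w
  bR : ∀ i ∈ τ.b, i ∈ R
  tR : ∀ i ∈ τ.t, i ∈ R
  lev : ∀ x ∈ τ.l, Ev f R τ.b x ∨ Ev f R τ.t x
  rev : ∀ x ∈ τ.r, Ev f R τ.b x ∨ Ev f R τ.t x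
  noev : ∀ x, (∀ l ∈ τ.l, l < x) → (∀ u ∈ τ.r, x < u) → ¬ Ev f R τ.b x ∧ ¬ Ev f R τ.t x
  nocr : ∀ i ∈ R, ¬ Crs f τ i

/-- PERT: perturbation of a point -/
def S_PERT : Prop := ∀ (ι : Type) [Fintype ι] (f : ι → ℝ → ℝ) (B : ℕ), Fam f B →
  ∀ v : ℝ × ℝ, ∃ w, Near f v w

/-- TEX: every generic point is in a trapezoid -/
def S_TEX : Prop := ∀ (ι : Type) [Fintype ι] (f : ι → ℝ → ℝ) (B : ℕ), Fam f B →
  ∀ (R : Finset ι) (w : ℝ × ℝ), Gen f w → ∃ τ, IsTrap f R τ ∧ Ins f τ w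

/-- TCT: the number of trapezoids -/
def S_TCT : Prop := ∀ (ι : Type) [Fintype ι] (f : ι → ℝ → ℝ) (B : ℕ), Fam f B →
  ∀ (R : Finset ι) (r : ℕ), R.Nonempty → R.card ≤ r →
    {τ : Trap ι | IsTrap f R τ}.Finite ∧ {τ : Trap ι | IsTrap f R τ}.ncard ≤ (2 * B + 2) * r ^ 2

/-- ALL: the number of all possible trapezoids -/
def S_ALL : Prop := ∀ (ι : Type) [Fintype ι] (f : ι → ℝ → ℝ) (B : ℕ), Fam f B →
  {τ : Trap ι | ∃ R, IsTrap f R τ}.Finite ∧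
    {τ : Trap ι | ∃ R, IsTrap f R τ}.ncard ≤ (B + 1) ^ 2 * (Fintype.card ι + 1) ^ 6

/-- HIT: a random sample hits all large sets of a family -/
def S_HIT : Prop := ∀ (ι : Type) [Fintype ι] [Nonempty ι] (F : Finset (Finset ι)) (r : ℕ) (ε : ℝ),
  0 ≤ ε → ε ≤ 1 → (∀ K ∈ F, ε * Fintype.card ι ≤ K.card) → (F.card : ℝ) * (1 - ε) ^ r < 1 →
    ∃ ω : Fin r → ι, ∀ K ∈ F, ∃ i, ω i ∈ K

/-- EXC: which functions through `v` do not enter the trapezoid of `v` -/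
def S_EXC : Prop := ∀ (ι : Type) [Fintype ι] (f : ι → ℝ → ℝ) (B : ℕ), Fam f B →
  ∀ (R : Finset ι) (τ : Trap ι) (v w : ℝ × ℝ), IsTrap f R τ → Near f v w → Ins f τ w →
    ∀ i, f i v.1 = v.2 → ¬ Crs f τ i → i ∈ τ.b ∨ i ∈ τ.t ∨ ∃ g ∈ R, g ≠ i ∧ f g v.1 = v.2

/-- the logarithmic factor of the cutting lemma -/
noncomputable def lam (B N : ℕ) : ℝ := 6 * Real.log (N + 1) + 2 * Real.log (B + 1) + 1

/-- CUT: the cutting lemma -/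
def S_CUT : Prop := ∀ (ι : Type) [Fintype ι] [Nonempty ι] (f : ι → ℝ → ℝ) (B : ℕ), Fam f B →
  ∀ (V : Finset (ℝ × ℝ)) (r : ℕ), 1 ≤ r →
    ∃ (κ : Type) (cl : ℝ × ℝ → κ) (K : κ → Finset ι),
      (V.image cl).card ≤ (2 * B + 2) * r ^ 2 ∧
      (∀ c, ((K c).card : ℝ) * r ≤ lam B (Fintype.card ι) * Fintype.card ι) ∧
      ∑ v ∈ V, (univ.filter (fun i => f i v.1 = v.2 ∧ i ∉ K (cl v))).card ≤
        B * r * Fintype.card ι + 2 * V.card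

/-! ### Incidences -/

/-- KST: the trivial incidence bound for curves with `s` degrees of freedom -/
def S_KST : Prop := ∀ (s A : ℕ), 1 ≤ s → ∀ (ι : Type) (K : Finset ι) (W : Finset (ℝ × ℝ))
  (I : ι → Finset (ℝ × ℝ)), (∀ i ∈ K, I i ⊆ W) →
  (∀ T : Finset (ℝ × ℝ), T.card = s → (K.filter (fun i => T ⊆ I i)).card ≤ A) →
    (∑ i ∈ K, ((I i).card - (s - 1))) ^ s ≤ K.card ^ (s - 1) * (A * W.card ^ s)

/-- RICH: the number of rich curves of a family with `s` degrees of freedom -/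
def S_RICH : Prop := ∀ (s A B : ℕ), 2 ≤ s → ∃ C : ℝ, 0 < C ∧
  ∀ (ι : Type) [Fintype ι] (f : ι → ℝ → ℝ), Fam f B →
  ∀ (V : Finset (ℝ × ℝ)) (I : ι → Finset (ℝ × ℝ)), (∀ i, I i ⊆ V) →
  (∀ i, ∀ v ∈ I i, f i v.1 = v.2) →
  (∀ T : Finset (ℝ × ℝ), T.card = s → (univ.filter (fun i => T ⊆ I i)).card ≤ A) →
  ∀ k : ℕ, (∀ i, k ≤ (I i).card) → C * Real.log (Fintype.card ι + 2) ≤ k →
    (Fintype.card ι : ℝ) * k ^ (2 * s - 1) ≤
      C * Real.log (Fintype.card ι + 2) ^ (2 * s - 2) *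
        ((V.card : ℝ) ^ s + V.card * (k : ℝ) ^ (2 * s - 2))

/-- the number of curves through two points -/
noncomputable def mu {ι : Type} [Fintype ι] (I : ι → Finset (ℝ × ℝ)) (e : (ℝ × ℝ) × (ℝ × ℝ)) : ℕ :=
  (univ.filter (fun i => e.1 ∈ I i ∧ e.2 ∈ I i)).card

/-- PAIRS: most pairs on common curves are on many common curves -/
def S_PAIRS : Prop := ∀ B : ℕ, ∃ C : ℝ, 0 < C ∧
  ∀ (ι : Type) [Fintype ι] [Nonempty ι] (f : ι → ℝ → ℝ), Fam f B →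
  ∀ (V : Finset (ℝ × ℝ)) (I : ι → Finset (ℝ × ℝ)), (∀ i, I i ⊆ V) →
  (∀ i, ∀ v ∈ I i, f i v.1 = v.2) → ∀ r : ℕ, 1 ≤ r → r ^ 2 ≤ V.card →
  C * ((r : ℝ) * Fintype.card ι * Real.log (Fintype.card ι + 2) + V.card) ≤
    ((∑ i, (I i).card : ℕ) : ℝ) →
  ∑ i, (I i).card ≤ 4 * ∑ e ∈ (V ×ˢ V).filter (fun e => e.1 ≠ e.2 ∧
    r ^ 2 * ∑ i, (I i).card ≤ 8 * V.card ^ 2 * mu I e), mu I e

/-! ### Conics with a given focus as parabolas -/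

/-- parabolic coordinates with focus `p` -/
noncomputable def psi (p r : ℂ) : ℝ × ℝ :=
  ((r - p).im / (dist r p + (r - p).re), 2 / (dist r p + (r - p).re))

/-- the conic with foci `p`, `q` and parameter `s` -/
noncomputable def phi (p q : ℂ) (s : ℝ) (t : ℝ) : ℝ :=
  (2 * (s - (q - p).re) - 4 * (q - p).im * t + 2 * (s + (q - p).re) * t ^ 2) /
    (s ^ 2 - dist q p ^ 2)

/-- PINC: incidences in parabolic coordinates -/
def S_PINC : Prop := ∀ (p q r : ℂ) (s : ℝ), 0 < dist r p + (r - p).re → s ^ 2 ≠ dist q p ^ 2 →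
  (dist r q = s - dist r p ∨ dist r q = dist r p - s) → phi p q s (psi p r).1 = (psi p r).2

/-- PINJ: parabolic coordinates are injective -/
def S_PINJ : Prop := ∀ (p r r' : ℂ), 0 < dist r p + (r - p).re → 0 < dist r' p + (r' - p).re →
  psi p r = psi p r' → r = r'

/-- PFAM: two distinct conics agree in at most two points -/
def S_PFAM : Prop := ∀ (p q q' : ℂ) (s s' : ℝ), s ^ 2 ≠ dist q p ^ 2 → s' ^ 2 ≠ dist q' p ^ 2 →
  (q, s) ≠ (q', s') → {t | phi p q s t = phi p q' s' t}.Finite ∧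
    {t | phi p q s t = phi p q' s' t}.ncard ≤ 2

/-! ### Perimeters -/

/-- all perimeters of triangles with vertices in `P` are in `D` -/
def Per (P : Finset ℂ) (D : Finset ℝ) : Prop := ∀ p ∈ P, ∀ q ∈ P, ∀ r ∈ P, p ≠ q → q ≠ r → p ≠ r →
  dist p q + dist q r + dist r p ∈ D

/-- the points of `P` on a branch of a hyperbola with foci `x`, `y` -/
noncomputable def hh (P : Finset ℂ) (x y : ℂ) (a : ℝ) : Finset ℂ :=
  P.filter (fun q => dist q x - dist q y = a)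

/-- LINE: few points on a line -/
def S_LINE : Prop := ∀ (P : Finset ℂ) (D : Finset ℝ), Per P D → ∀ u v : ℂ, u ≠ v →
  (P.filter (fun x => (v - u).re * (x - u).im - (v - u).im * (x - u).re = 0)).card ≤ D.card + 2

/-- NDEG: no degenerate hyperbolas -/
def S_NDEG : Prop := ∀ p q x y : ℂ, x ≠ y → dist p x + dist q x = dist p y + dist q y →
  dist p q < dist p x + dist q x → |dist p x - dist p y| < dist x y

/-- good triples `(q, x, y)` for the focus `p` -/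
noncomputable def GG (P : Finset ℂ) (r : ℕ) (p : ℂ) : Finset (ℂ × ℂ × ℂ) :=
  (P ×ˢ P ×ˢ P).filter (fun e => e.2.1 ≠ e.2.2 ∧
    dist p e.2.1 + dist e.1 e.2.1 = dist p e.2.2 + dist e.1 e.2.2 ∧
    |dist p e.2.1 - dist p e.2.2| < dist e.2.1 e.2.2 ∧
    r ^ 2 ≤ 16 * (hh P e.2.1 e.2.2 (dist p e.2.2 - dist p e.2.1)).card)

/-- FOC: the main counting for a fixed focus -/
def S_FOC : Prop := ∃ C : ℝ, 0 < C ∧ ∀ (P : Finset ℂ) (D : Finset ℝ), Per P D → 1 ≤ D.card →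
  ∀ r : ℕ, 1 ≤ r → 4 * r ^ 2 ≤ P.card →
  C * ((r : ℝ) * D.card * Real.log (P.card + 2)) ≤ P.card →
  ∀ p ∈ P, P.card ^ 2 ≤ 16 * (GG P r p).card

/-- all branches of nondegenerate hyperbolas with foci in `P` that contain a point of `P` -/
noncomputable def TT (P : Finset ℂ) : Finset (ℂ × ℂ × ℝ) :=
  ((P ×ˢ P ×ˢ P).filter (fun e => e.1 ≠ e.2.1 ∧
    |dist e.2.2 e.1 - dist e.2.2 e.2.1| < dist e.1 e.2.1)).image
      (fun e => (e.1, e.2.1, dist e.2.2 e.1 - dist e.2.2 e.2.1))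

/-- EN: the energy inequality -/
def S_EN : Prop := ∀ (P : Finset ℂ) (r : ℕ), (∀ p ∈ P, P.card ^ 2 ≤ 16 * (GG P r p).card) →
  P.card ^ 3 ≤ 32 * ∑ τ ∈ (TT P).filter (fun τ => r ^ 2 ≤ 16 * (hh P τ.1 τ.2.1 τ.2.2).card),
    (hh P τ.1 τ.2.1 τ.2.2).card ^ 2

/-- H2F: a branch of a hyperbola contains at most `2 f` points -/
def S_H2F : Prop := ∀ (P : Finset ℂ) (D : Finset ℝ), Per P D → ∀ τ ∈ TT P,
  (hh P τ.1 τ.2.1 τ.2.2).card ≤ 2 * D.card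

/-! ### Rich hyperbolas -/

/-- R0: rich perpendicular bisectors -/
def S_R0 : Prop := ∃ C : ℝ, 0 < C ∧ ∀ (P : Finset ℂ) (k : ℕ), C * Real.log (P.card + 2) ≤ k →
  (((TT P).filter (fun τ => τ.2.2 = 0 ∧ k ≤ (hh P τ.1 τ.2.1 τ.2.2).card)).card : ℝ) * k ^ 3 ≤
    C * Real.log (P.card + 2) ^ 2 * ((P.card : ℝ) ^ 3 + (P.card : ℝ) ^ 2 * (k : ℝ) ^ 2)

/-- R3: rich hyperbolas, three degrees of freedom -/
def S_R3 : Prop := ∃ C : ℝ, 0 < C ∧ ∀ (P : Finset ℂ) (k : ℕ), C * Real.log (P.card + 2) ≤ k →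
  (((TT P).filter (fun τ => k ≤ (hh P τ.1 τ.2.1 τ.2.2).card)).card : ℝ) * k ^ 5 ≤
    C * Real.log (P.card + 2) ^ 4 * ((P.card : ℝ) ^ 4 + (P.card : ℝ) ^ 2 * (k : ℝ) ^ 4)

/-- R5: rich hyperbolas, five degrees of freedom -/
def S_R5 : Prop := ∃ C : ℝ, 0 < C ∧ ∀ (P : Finset ℂ) (k : ℕ), C * Real.log (P.card + 2) ≤ k →
  (((TT P).filter (fun τ => τ.2.2 ≠ 0 ∧ k ≤ (hh P τ.1 τ.2.1 τ.2.2).card)).card : ℝ) * k ^ 9 ≤
    C * Real.log (P.card + 2) ^ 8 * ((P.card : ℝ) ^ 5 + (P.card : ℝ) * (k : ℝ) ^ 8)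

/-- the conic `(m₁, m₂, κ, α, β)`: `(Y - m₂ - κ (X - m₁)) ^ 2 = α (X - m₁) ^ 2 - β` -/
abbrev Cd : Type := ℝ × ℝ × ℝ × ℝ × ℝ

/-- the point `(X, Y)` is on the conic `c` -/
def OnC (c : Cd) (X Y : ℝ) : Prop :=
  (Y - c.2.1 - c.2.2.1 * (X - c.1)) ^ 2 = c.2.2.2.1 * (X - c.1) ^ 2 - c.2.2.2.2

/-- a hyperbola, not a pair of lines -/
def GoodC (c : Cd) : Prop := 0 < c.2.2.2.1 ∧ c.2.2.2.2 ≠ 0

/-- POLY: two distinct conics have at most four common abscissae -/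
def S_POLY : Prop := ∀ c c' : Cd, GoodC c → GoodC c' → c ≠ c' →
  {X | ∃ Y, OnC c X Y ∧ OnC c' X Y}.Finite ∧ {X | ∃ Y, OnC c X Y ∧ OnC c' X Y}.ncard ≤ 4

/-- ARC: arcs of conics as parts of graphs of functions on the real line; `o c` is the choice of
the arc -/
def S_ARC : Prop := ∀ (F : Finset Cd), (∀ c ∈ F, GoodC c) → ∀ o : Cd → Bool × Bool,
  ∃ g : {c // c ∈ F} → ℝ → ℝ, Fam g 9 ∧ ∀ (c : {c // c ∈ F}) (X Y : ℝ), OnC c.1 X Y →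
    (if (o c.1).1 then 0 ≤ Y - c.1.2.1 - c.1.2.2.1 * (X - c.1.1)
      else Y - c.1.2.1 - c.1.2.2.1 * (X - c.1.1) ≤ 0) →
    (if (o c.1).2 then c.1.1 ≤ X else X ≤ c.1.1) → g c X = Y

/-- the conic containing the branch `(x, y, a)` -/
noncomputable def cdat (τ : ℂ × ℂ × ℝ) : Cd :=
  ((τ.1.re + τ.2.1.re) / 2, (τ.1.im + τ.2.1.im) / 2,
    (τ.2.1 - τ.1).re * (τ.2.1 - τ.1).im / (τ.2.2 ^ 2 - (τ.2.1 - τ.1).im ^ 2),
    τ.2.2 ^ 2 * (dist τ.1 τ.2.1 ^ 2 - τ.2.2 ^ 2) / (τ.2.2 ^ 2 - (τ.2.1 - τ.1).im ^ 2) ^ 2,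
    τ.2.2 ^ 2 * (dist τ.1 τ.2.1 ^ 2 - τ.2.2 ^ 2) / (4 * (τ.2.2 ^ 2 - (τ.2.1 - τ.1).im ^ 2)))

/-- nondegenerate and in general position -/
def GoodT (τ : ℂ × ℂ × ℝ) : Prop :=
  τ.2.2 ≠ 0 ∧ |τ.2.2| < dist τ.1 τ.2.1 ∧ τ.2.2 ^ 2 ≠ (τ.2.1 - τ.1).im ^ 2

/-- CON: the conic of a branch -/
def S_CON : Prop :=
  (∀ τ, GoodT τ → GoodC (cdat τ)) ∧
  (∀ τ, GoodT τ → ∀ q : ℂ, dist q τ.1 - dist q τ.2.1 = τ.2.2 → OnC (cdat τ) q.re q.im) ∧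
  (∀ H : Finset (ℂ × ℂ × ℝ), (∀ τ ∈ H, GoodT τ) → H.card ≤ 4 * (H.image cdat).card)

/-- R5G: rich hyperbolas in general position -/
def S_R5G : Prop := ∃ C : ℝ, 0 < C ∧ ∀ (P : Finset ℂ) (H : Finset (ℂ × ℂ × ℝ)) (k : ℕ),
  (∀ τ ∈ H, GoodT τ ∧ k ≤ (hh P τ.1 τ.2.1 τ.2.2).card) → C * Real.log (H.card + 2) ≤ k →
  (H.card : ℝ) * k ^ 9 ≤
    C * Real.log (H.card + 2) ^ 8 * ((P.card : ℝ) ^ 5 + (P.card : ℝ) * (k : ℝ) ^ 8)

/-- ROT: a rotation to general position -/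
def S_ROT : Prop := ∀ H : Finset (ℂ × ℂ × ℝ),
  (∀ τ ∈ H, τ.2.2 ≠ 0 ∧ |τ.2.2| < dist τ.1 τ.2.1) →
  ∃ u : ℂ, ‖u‖ = 1 ∧ ∀ τ ∈ H, GoodT (u * τ.1, u * τ.2.1, τ.2.2)

/-! ### The end -/

/-- SUM: the contribution of the rich hyperbolas to the energy -/
def S_SUM : Prop := ∃ C : ℝ, 0 < C ∧ ∀ (P : Finset ℂ) (D : Finset ℝ), Per P D → ∀ k : ℕ,
  C * Real.log (P.card + 2) ≤ k →
  ((∑ τ ∈ (TT P).filter (fun τ => k ≤ (hh P τ.1 τ.2.1 τ.2.2).card),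
    (hh P τ.1 τ.2.1 τ.2.2).card ^ 2 : ℕ) : ℝ) ≤
    C * Real.log (P.card + 2) ^ 8 * ((P.card : ℝ) ^ 5 / (k : ℝ) ^ 7 + (P.card : ℝ) ^ 3 / k +
      (P.card : ℝ) ^ 2 * D.card)

/-- FIN: the theorem, in the complex plane -/
def S_FIN : Prop := ∃ c : ℝ, 0 < c ∧ ∀ (P : Finset ℂ) (D : Finset ℝ), Per P D → 3 ≤ P.card →
  c * (P.card : ℝ) ^ ((6 : ℝ) / 7) ≤ D.card * Real.log P.card ^ 2

end Pool.Agent.NH60.TP
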